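import Mathlib
import Pool.Agent.MP1bdb59C.Coh
import Pool.Agent.MP1bdb59C.BCGroup

/-!
# The index of `ℓ J(K)` in `J(K)`: abstract form
-/

open Polynomial Finset

noncomputable section

open scoped Classical

namespace Pool.Agent.MP1bdb59C

namespace Idx

section Poly

/-- `ℓ` is a multiple of `(1 - X)^(ℓ-1)` modulo `∑ X^i`. -/
lemma exists_poly_ell (ℓ : ℕ) [hp : Fact ℓ.Prime] :
    ∃ U V : ℤ[X], C (ℓ : ℤ) = U * ∑ i ∈ range ℓ, X ^ i + V * (1 - X) ^ (ℓ - 1) := by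
  obtain ⟨B, hB⟩ := exists_poly_identity ℓ
  have hℓ : (ℓ : ℤ) ≠ 0 := by exact_mod_cast hp.out.ne_zero
  have h1 : B.eval 1 = -1 := by
    have h2 := congrArg (eval 1) hB
    rw [eval_add, eval_mul, eval_C, eval_pow, eval_sub, eval_one, eval_X, sub_self,
      zero_pow (Nat.sub_pos_of_lt hp.out.one_lt).ne', eval_finsetSum] at h2
    simp only [eval_pow, eval_X, one_pow, sum_const, card_range, nsmul_eq_mul, mul_one] at h2
    have h3 : (ℓ : ℤ) * (1 + B.eval 1) = 0 := by rw [mul_add, mul_one]; exact h2.symm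
    rcases mul_eq_zero.mp h3 with h4 | h4
    · exact absurd h4 hℓ
    · omega
  obtain ⟨R, hR⟩ : (X - C 1 : ℤ[X]) ∣ B + 1 := by
    rw [dvd_iff_isRoot, IsRoot.def, eval_add, eval_one, h1]
    norm_num
  -- in the quotient, `ℓ (1 - (1 - X) R') = 0`
  set Φ : ℤ[X] := ∑ i ∈ range ℓ, X ^ i with hΦ
  set I : Ideal ℤ[X] := Ideal.span {Φ, (1 - X) ^ (ℓ - 1)} with hI
  have hmem : C (ℓ : ℤ) ∈ I := by
    rw [← Ideal.Quotient.eq_zero_iff_mem]
    have hp1 : (Ideal.Quotient.mk I (1 - X)) ^ (ℓ - 1) = 0 := by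
      rw [← map_pow, Ideal.Quotient.eq_zero_iff_mem]
      exact Ideal.subset_span (Or.inr rfl)
    have hΦ0 : Ideal.Quotient.mk I Φ = 0 := by
      rw [Ideal.Quotient.eq_zero_iff_mem]
      exact Ideal.subset_span (Or.inl rfl)
    have h2 := congrArg (Ideal.Quotient.mk I) hB
    rw [map_pow, hp1, map_add, hΦ0, zero_add, map_mul] at h2
    have h3 : B = -(1 - (1 - X) * (-R)) := by
      have : B = (X - C 1) * R - 1 := by rw [← hR]; ring
      rw [this, C_1]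
      ring
    have h4 : IsNilpotent (Ideal.Quotient.mk I ((1 - X) * (-R))) := by
      refine ⟨ℓ - 1, ?_⟩
      rw [map_mul, mul_pow, hp1, zero_mul]
    have h5 := h4.isUnit_one_sub
    rw [← map_one (Ideal.Quotient.mk I), ← map_sub] at h5
    have h6 : Ideal.Quotient.mk I (C (ℓ : ℤ)) * Ideal.Quotient.mk I (1 - (1 - X) * (-R)) = 0 := by
      rw [h3, map_neg] at h2
      linear_combination h2
    exact (h5.mul_left_eq_zero).mp h6
  rw [hI, Ideal.mem_span_pair] at hmem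
  obtain ⟨U, V, h⟩ := hmem
  exact ⟨U, V, h.symm⟩

/-- the action of `X ↦ X^c` on powers of `1 - X` -/
lemma exists_poly_pow (c a : ℕ) : ∃ E : ℤ[X], (1 - X ^ c) ^ a =
    (1 - X) ^ a * (C ((c : ℤ) ^ a) + (1 - X) * E) := by
  obtain ⟨G, hG⟩ : ∃ G : ℤ[X], G = ∑ i ∈ range c, X ^ i := ⟨_, rfl⟩
  have h1 : (1 - X ^ c : ℤ[X]) = (1 - X) * G := by rw [hG, mul_neg_geom_sum]
  have h2 : G.eval 1 = c := by
    rw [hG, eval_finsetSum]
    simp
  obtain ⟨R, hR⟩ : (X - C 1 : ℤ[X]) ∣ G ^ a - C ((c : ℤ) ^ a) := by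
    rw [dvd_iff_isRoot, IsRoot.def, eval_sub, eval_pow, h2, eval_C, sub_self]
  refine ⟨-R, ?_⟩
  have h3 : G ^ a = C ((c : ℤ) ^ a) + (1 - X) * (-R) := by
    have : G ^ a = (X - C 1) * R + C ((c : ℤ) ^ a) := by rw [← hR]; ring
    rw [this, C_1]
    ring
  rw [h1, mul_pow, h3]

end Poly

section Prime

/-- a quotient of prime order -/
lemma relIndex_eq_prime {M : Type*} [AddCommGroup M] {B C : AddSubgroup M} {ℓ : ℕ}
    [hp : Fact ℓ.Prime] {x₀ : M} (h1 : x₀ ∈ B) (h2 : x₀ ∉ C) (h3 : ℓ • x₀ ∈ C)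
    (h4 : ∀ x ∈ B, ∃ i : ℕ, x + i • x₀ ∈ C) : C.relIndex B = ℓ := by
  set q : B ⧸ C.addSubgroupOf B := QuotientAddGroup.mk ⟨x₀, h1⟩ with hq
  have h5 : addOrderOf q = ℓ := by
    apply addOrderOf_eq_prime
    · rw [hq, ← QuotientAddGroup.mk_nsmul, QuotientAddGroup.eq_zero_iff,
        AddSubgroup.mem_addSubgroupOf]
      exact h3
    · intro h0
      rw [hq, QuotientAddGroup.eq_zero_iff, AddSubgroup.mem_addSubgroupOf] at h0
      exact h2 h0
  have h6 : AddSubgroup.zmultiples q = ⊤ := by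
    rw [eq_top_iff]
    intro y _
    obtain ⟨⟨x, hx⟩, rfl⟩ := QuotientAddGroup.mk_surjective y
    obtain ⟨i, hi⟩ := h4 x hx
    rw [AddSubgroup.mem_zmultiples_iff]
    refine ⟨-(i : ℤ), ?_⟩
    rw [neg_smul, natCast_zsmul, neg_eq_iff_add_eq_zero, add_comm, hq, ← QuotientAddGroup.mk_nsmul,
      ← QuotientAddGroup.mk_add, QuotientAddGroup.eq_zero_iff, AddSubgroup.mem_addSubgroupOf]
    exact hi
  change (C.addSubgroupOf B).index = ℓ
  rw [AddSubgroup.index, ← h5, ← Nat.card_zmultiples, h6]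
  exact (Nat.card_congr (AddSubgroup.topEquiv (G := B ⧸ C.addSubgroupOf B)).toEquiv).symm

end Prime

section Main

variable {G M : Type*} [Group G] [AddCommGroup M] {ac : G → M →+ M} {ℓ : ℕ} [hp : Fact ℓ.Prime]
  {τ : AddMonoid.End M} {χ : G →* (ZMod ℓ)ˣ}

variable (ac) in
/-- the invariants of a subgroup -/
def inv (H : Subgroup G) : AddSubgroup M where
  carrier := {x | ∀ h ∈ H, ac h x = x}
  zero_mem' := fun h _ => map_zero _
  add_mem' := fun {x y} hx hy h hh => by rw [map_add, hx h hh, hy h hh]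
  neg_mem' := fun {x} hx h hh => by rw [map_neg, hx h hh]

lemma mem_inv {H : Subgroup G} {x : M} : x ∈ inv ac H ↔ ∀ h ∈ H, ac h x = x := Iff.rfl

/-- The trace of an `H`-invariant element. -/
theorem exists_trace (ha : ∀ g h x, ac (g * h) x = ac g (ac h x)) (H : Subgroup G)
    [hH : H.FiniteIndex] (s : M) (hs : ∀ h ∈ H, ac h s = s) (D : AddSubgroup M)
    (hD : ∀ g, ac g s - s ∈ D) :
    ∃ S : M, (∀ g, ac g S = S) ∧ S - H.index • s ∈ D := by
  let _ : Fintype (G ⧸ H) := H.fintypeQuotientOfFiniteIndex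
  let b : G ⧸ H → M := Quotient.lift (fun g => ac g s) (by
    intro g g' hgg
    have h1 : g⁻¹ * g' ∈ H := QuotientGroup.leftRel_apply.mp hgg
    have h2 : g' = g * (g⁻¹ * g') := by group
    change ac g s = ac g' s
    rw [h2, ha, hs _ h1])
  have hb : ∀ (g : G) (q : G ⧸ H), b (g • q) = 0 + ac g (b q) := by
    intro g q
    obtain ⟨g', rfl⟩ := QuotientGroup.mk_surjective q
    rw [zero_add]
    exact ha g g' s
  refine ⟨∑ q, b q, fun g => ?_, ?_⟩
  · have := BC.sum_coset ac H b g 0 (hb g)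
    rw [smul_zero, zero_add] at this
    exact this.symm
  · have h1 : ∑ q, b q - H.index • s = ∑ q : G ⧸ H, (b q - s) := by
      rw [Finset.sum_sub_distrib, Finset.sum_const, Finset.card_univ, ← Nat.card_eq_fintype_card]
      rfl
    rw [h1]
    refine AddSubgroup.sum_mem _ fun q _ => ?_
    obtain ⟨g, rfl⟩ := QuotientGroup.mk_surjective q
    exact hD g

variable (ac τ χ) in
/-- the data -/
structure Data (P : M) : Prop where
  mul : ∀ g h x, ac (g * h) x = ac g (ac h x)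
  tau : ∀ g x, ac g (τ x) = (τ ^ (χ g : ZMod ℓ).val) (ac g x)
  sum : ∑ i ∈ range ℓ, τ ^ i = 0
  tor : ∀ x ∈ inv ac χ.ker, ℓ • x = 0 → x = 0
  fix : ∀ g, ac g P = P
  ndiv : ∀ s ∈ inv ac χ.ker, s - τ s ≠ P
  gen : ∀ t ∈ inv ac χ.ker, ∃ s ∈ inv ac χ.ker, ∃ i : ℕ, t + i • P = s - τ s

/-- `π^a` as a polynomial in `τ` -/
lemma aeval_pi (a : ℕ) : aeval τ ((1 - X : ℤ[X]) ^ a) = (1 - τ) ^ a := by
  rw [map_pow, map_sub, map_one, aeval_X]

namespace Data

variable {P : M} (d : Data ac τ χ P)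
include d

/-- the subring `ℤ[τ]` -/
lemma ac_aeval_ker {g : G} (hg : g ∈ χ.ker) (Q : ℤ[X]) (x : M) :
    ac g (aeval τ Q x) = aeval τ Q (ac g x) := by
  have h1 : Commute (show AddMonoid.End M from ac g) τ := by
    refine DFunLike.ext _ _ fun y => ?_
    change ac g (τ y) = τ (ac g y)
    rw [d.tau, MonoidHom.mem_ker.mp hg, Units.val_one, ZMod.val_one, pow_one]
  exact DFunLike.congr_fun (commute_aeval h1 Q) x

lemma aeval_mem (Q : ℤ[X]) {x : M} (hx : x ∈ inv ac χ.ker) : aeval τ Q x ∈ inv ac χ.ker := by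
  intro g hg
  rw [d.ac_aeval_ker hg, hx g hg]

lemma ac_mem (g : G) {x : M} (hx : x ∈ inv ac χ.ker) : ac g x ∈ inv ac χ.ker := by
  intro h hh
  rw [← d.mul]
  have h1 : h * g = g * (g⁻¹ * h * g) := by group
  have h2 : g⁻¹ * h * g ∈ χ.ker := by
    have := (χ.normal_ker).conj_mem h hh g⁻¹
    rwa [inv_inv] at this
  rw [h1, d.mul, hx _ h2]

/-- action on `Q(τ) x` -/
lemma ac_aeval (g : G) (a : ℕ) (x : M) : ac g (((1 - τ) ^ a : AddMonoid.End M) x) =
    ((1 - τ ^ (χ g : ZMod ℓ).val) ^ a : AddMonoid.End M) (ac g x) := by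
  induction a generalizing x with
  | zero => rw [pow_zero, pow_zero]; rfl
  | succ a ih =>
    rw [pow_succ, pow_succ]
    change ac g (((1 - τ) ^ a : AddMonoid.End M) (x - τ x)) =
      ((1 - τ ^ (χ g : ZMod ℓ).val) ^ a : AddMonoid.End M)
        (ac g x - (τ ^ (χ g : ZMod ℓ).val) (ac g x))
    rw [ih, map_sub (ac g), d.tau]

end Data

variable (ac τ χ) in
/-- the subgroup `π^a N` -/
def D (a : ℕ) : AddSubgroup M := (inv ac χ.ker).map ((1 - τ) ^ a : AddMonoid.End M)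

lemma mem_D {a : ℕ} {x : M} : x ∈ D ac τ χ a ↔
    ∃ y ∈ inv ac χ.ker, ((1 - τ) ^ a : AddMonoid.End M) y = x := Iff.rfl

namespace Data

variable {P : M} (d : Data ac τ χ P)
include d

lemma P_mem : P ∈ inv ac χ.ker := fun g _ => d.fix g

lemma pi_mem {x : M} (hx : x ∈ inv ac χ.ker) : x - τ x ∈ inv ac χ.ker := by
  have h := d.aeval_mem (1 - X) hx
  rw [map_sub, map_one, aeval_X] at h
  exact h

lemma D_succ_le (a : ℕ) : D ac τ χ (a + 1) ≤ D ac τ χ a := by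
  rintro _ ⟨y, hy, rfl⟩
  exact ⟨y - τ y, d.pi_mem hy, (end_pow_succ_apply τ a y).symm⟩

lemma pi_inj {x : M} (hx : x ∈ inv ac χ.ker) (h : x - τ x = 0) : x = 0 := by
  apply d.tor x hx
  have h1 : ∀ i : ℕ, (τ ^ i) x = x := by
    intro i
    induction i with
    | zero => rfl
    | succ i ih =>
      rw [pow_succ]
      change (τ ^ i) (τ x) = x
      rw [← sub_eq_zero.mp h, ih]
  have h2 := DFunLike.congr_fun d.sum x
  rw [end_sum_apply] at h2
  simp only [h1, sum_const, card_range] at h2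
  exact h2

lemma pow_inj {a : ℕ} {x : M} (hx : x ∈ inv ac χ.ker)
    (h : ((1 - τ) ^ a : AddMonoid.End M) x = 0) : x = 0 := by
  induction a generalizing x with
  | zero => exact h
  | succ a ih =>
    rw [end_pow_succ_apply] at h
    exact d.pi_inj hx (ih (d.pi_mem hx) h)

/-- `ℓ N ⊆ π^(ℓ-1) N` -/
lemma ell_mem {x : M} (hx : x ∈ inv ac χ.ker) : ℓ • x ∈ D ac τ χ (ℓ - 1) := by
  obtain ⟨U, V, h⟩ := exists_poly_ell ℓ
  have h1 := congrArg (aeval τ) h
  simp only [map_add, map_mul, map_sum, map_pow, aeval_X, d.sum, mul_zero, zero_add, map_sub,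
    map_one, aeval_C] at h1
  have h2 := DFunLike.congr_fun h1 x
  refine ⟨aeval τ V x, d.aeval_mem V hx, ?_⟩
  have h3 : (((1 - τ) ^ (ℓ - 1) : AddMonoid.End M)) (aeval τ V x) =
      (aeval τ V * (1 - τ) ^ (ℓ - 1) : AddMonoid.End M) x := by
    rw [← aeval_pi, ← map_mul, mul_comm V, map_mul]
    rfl
  refine h3.trans (h2.symm.trans ?_)
  simp

/-- `π^(ℓ-1) N ⊆ ℓ N` -/
lemma of_mem_D {x : M} (hx : x ∈ D ac τ χ (ℓ - 1)) : ∃ y ∈ inv ac χ.ker, ℓ • y = x := by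
  obtain ⟨z, hz, rfl⟩ := hx
  obtain ⟨B, hB⟩ := exists_poly_identity ℓ
  have h1 := congrArg (aeval τ) hB
  simp only [map_pow, map_sub, map_one, aeval_X, map_add, map_sum, map_mul, aeval_C, d.sum,
    zero_add] at h1
  refine ⟨aeval τ B z, d.aeval_mem B hz, ?_⟩
  have h2 := DFunLike.congr_fun h1 z
  refine Eq.trans ?_ h2.symm
  simp

lemma D_anti {a b : ℕ} (h : a ≤ b) : D ac τ χ b ≤ D ac τ χ a := by
  induction b, h using Nat.le_induction with
  | base => exact le_rfl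
  | succ b _ ih => exact (d.D_succ_le b).trans ih

/-- multiples of `π^a P` -/
lemma zsmul_mem_iff (a : ℕ) (z : ℤ) :
    z • ((1 - τ) ^ a : AddMonoid.End M) P ∈ D ac τ χ (a + 1) ↔ (ℓ : ℤ) ∣ z := by
  have h0 : ∀ y ∈ inv ac χ.ker, ℓ • y ∈ D ac τ χ 1 := fun y hy =>
    d.D_anti (Nat.le_sub_of_add_le hp.out.two_le) (d.ell_mem hy)
  have h1 : ∀ y : M, (ℓ • y) ∈ D ac τ χ 1 → ((1 - τ) ^ a : AddMonoid.End M) (ℓ • y) ∈
      D ac τ χ (a + 1) := by
    rintro y ⟨s, hs, hsy⟩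
    refine ⟨s, hs, ?_⟩
    change ((1 - τ) ^ (a + 1) : AddMonoid.End M) s = _
    rw [end_pow_succ_apply, ← hsy]
    change _ = ((1 - τ) ^ a : AddMonoid.End M) (((1 - τ) ^ 1 : AddMonoid.End M) s)
    rw [pow_one]
    rfl
  constructor
  · rintro ⟨s, hs, h⟩
    by_contra hz
    change ((1 - τ) ^ (a + 1) : AddMonoid.End M) s = z • ((1 - τ) ^ a : AddMonoid.End M) P at h
    rw [end_pow_succ_apply, ← map_zsmul, ← sub_eq_zero, ← map_sub] at h
    have h2 : s - τ s = z • P := sub_eq_zero.mp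
      (d.pow_inj (sub_mem (d.pi_mem hs) (zsmul_mem d.P_mem z)) h)
    obtain ⟨s', hs', h3⟩ := h0 P d.P_mem
    change ((1 - τ) ^ 1 : AddMonoid.End M) s' = ℓ • P at h3
    rw [pow_one] at h3
    change s' - τ s' = ℓ • P at h3
    have hcop : IsCoprime (ℓ : ℤ) z :=
      (Nat.prime_iff_prime_int.mp hp.out).coprime_iff_not_dvd.mpr hz
    obtain ⟨u, v, huv⟩ := hcop
    refine d.ndiv (u • s' + v • s) (add_mem (zsmul_mem hs' u) (zsmul_mem hs v)) ?_
    have h4 : (u • s' + v • s) - τ (u • s' + v • s) = u • (s' - τ s') + v • (s - τ s) := by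
      rw [map_add, map_zsmul, map_zsmul, smul_sub, smul_sub]
      abel
    rw [h4, h3, h2, ← natCast_zsmul, smul_smul, smul_smul, ← add_smul, huv, one_smul]
  · rintro ⟨c, rfl⟩
    have h2 : ((ℓ : ℤ) * c) • ((1 - τ) ^ a : AddMonoid.End M) P =
        ((1 - τ) ^ a : AddMonoid.End M) (ℓ • (c • P)) := by
      rw [map_nsmul, map_zsmul, ← natCast_zsmul, smul_smul]
    rw [h2]
    exact h1 _ (h0 _ (zsmul_mem d.P_mem c))

/-- the classes -/
lemma exists_rep {a : ℕ} {x : M} (hx : x ∈ D ac τ χ a) : ∃ i : ℕ,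
    x + i • ((1 - τ) ^ a : AddMonoid.End M) P ∈ D ac τ χ (a + 1) := by
  obtain ⟨y, hy, rfl⟩ := hx
  obtain ⟨s, hs, i, hi⟩ := d.gen y hy
  refine ⟨i, s, hs, ?_⟩
  change ((1 - τ) ^ (a + 1) : AddMonoid.End M) s = ((1 - τ) ^ a : AddMonoid.End M) y + _
  rw [end_pow_succ_apply, ← hi, map_add, map_nsmul]

/-- the action on `π^a y` -/
lemma ac_pow (g : G) (a : ℕ) (y : M) (hy : y ∈ inv ac χ.ker) :
    ac g (((1 - τ) ^ a : AddMonoid.End M) y) -
      (((χ g : ZMod ℓ).val : ℤ) ^ a) • ((1 - τ) ^ a : AddMonoid.End M) (ac g y) ∈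
        D ac τ χ (a + 1) := by
  rw [d.ac_aeval]
  obtain ⟨E, hE⟩ := exists_poly_pow (χ g : ZMod ℓ).val a
  have h1 := congrArg (aeval τ) hE
  rw [map_pow, map_sub, map_one, map_pow, aeval_X] at h1
  rw [h1, map_mul, aeval_pi, map_add, map_mul]
  refine ⟨aeval τ E (ac g y), d.aeval_mem E (d.ac_mem g hy), ?_⟩
  change ((1 - τ) ^ (a + 1) : AddMonoid.End M) _ = ((1 - τ) ^ a : AddMonoid.End M)
    ((aeval τ (C (((χ g : ZMod ℓ).val : ℤ) ^ a))) (ac g y) +
      (aeval τ (1 - X)) (aeval τ E (ac g y))) - _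
  rw [end_pow_succ_apply, map_add, aeval_C, ← map_zsmul]
  have h2 : (algebraMap ℤ (AddMonoid.End M) (((χ g : ZMod ℓ).val : ℤ) ^ a)) (ac g y) =
      (((χ g : ZMod ℓ).val : ℤ) ^ a) • ac g y := by
    rw [Algebra.algebraMap_eq_smul_one]
    rfl
  have h3 : aeval τ (1 - X : ℤ[X]) = 1 - τ := by rw [map_sub, map_one, aeval_X]
  rw [h2, add_sub_cancel_left, h3]
  rfl

lemma D_stable (g : G) {b : ℕ} {x : M} (hx : x ∈ D ac τ χ b) : ac g x ∈ D ac τ χ b := by
  obtain ⟨y, hy, rfl⟩ := hx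
  have h1 := d.D_succ_le b (d.ac_pow g b y hy)
  have h2 : ((1 - τ) ^ b : AddMonoid.End M) (ac g y) ∈ D ac τ χ b := ⟨ac g y, d.ac_mem g hy, rfl⟩
  have h3 := add_mem h1 (zsmul_mem h2 (((χ g : ZMod ℓ).val : ℤ) ^ b))
  rwa [sub_add_cancel] at h3

omit d in
lemma dvd_iff (g : G) (a : ℕ) :
    (ℓ : ℤ) ∣ ((χ g : ZMod ℓ).val : ℤ) ^ a - 1 ↔ χ g ^ a = 1 := by
  rw [← ZMod.intCast_zmod_eq_zero_iff_dvd, Int.cast_sub, Int.cast_pow, Int.cast_natCast,
    ZMod.natCast_zmod_val, Int.cast_one, sub_eq_zero, ← Units.val_pow_eq_pow_val, Units.val_eq_one]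

/-- the step when some `χ^a` is nontrivial -/
lemma step_one {a : ℕ} (h : ¬ ∀ g, χ g ^ a = 1) :
    (D ac τ χ (a + 1) ⊓ inv ac ⊤).relIndex (D ac τ χ a ⊓ inv ac ⊤) = 1 := by
  push Not at h
  obtain ⟨g, hg⟩ := h
  rw [AddSubgroup.relIndex_eq_one]
  rintro x ⟨hx, hxi⟩
  refine ⟨?_, hxi⟩
  obtain ⟨i, hi⟩ := d.exists_rep hx
  have h1 := d.D_stable g hi
  rw [map_add, map_nsmul, hxi g trivial] at h1
  have h2 := d.ac_pow g a P d.P_mem
  rw [d.fix] at h2
  have h3 : ((i : ℤ) * (((χ g : ZMod ℓ).val : ℤ) ^ a - 1)) • ((1 - τ) ^ a : AddMonoid.End M) P ∈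
      D ac τ χ (a + 1) := by
    have h4 := sub_mem (sub_mem h1 (nsmul_mem h2 i)) hi
    convert h4 using 1
    rw [mul_sub, mul_one, sub_smul, mul_smul, natCast_zsmul, natCast_zsmul, smul_sub]
    abel
  rw [d.zsmul_mem_iff] at h3
  have h5 := ((Nat.prime_iff_prime_int.mp hp.out).dvd_mul.mp h3).resolve_right
    (fun h6 => hg ((dvd_iff g a).mp h6))
  have h6 := (d.zsmul_mem_iff a i).mpr h5
  rw [natCast_zsmul] at h6
  have h7 := sub_mem hi h6
  rwa [add_sub_cancel_right] at h7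

omit d in
lemma index_dvd : χ.ker.index ∣ ℓ - 1 := by
  rw [Subgroup.index_ker, ← Nat.totient_prime hp.out, ← ZMod.card_units_eq_totient,
    ← Nat.card_eq_fintype_card]
  exact Subgroup.card_subgroup_dvd_card _

omit d in
lemma not_dvd_index : ¬ ℓ ∣ χ.ker.index := by
  intro h
  have h1 := Nat.le_of_dvd (Nat.sub_pos_of_lt hp.out.one_lt) (h.trans index_dvd)
  have h2 := hp.out.one_lt
  omega

/-- the step when all `χ^a` are trivial -/
lemma step_ell {a : ℕ} (h : ∀ g, χ g ^ a = 1) :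
    (D ac τ χ (a + 1) ⊓ inv ac ⊤).relIndex (D ac τ χ a ⊓ inv ac ⊤) = ℓ := by
  have hfi : χ.ker.FiniteIndex := inferInstance
  have hPa : ((1 - τ) ^ a : AddMonoid.End M) P ∈ inv ac χ.ker := by
    rw [← aeval_pi]
    exact d.aeval_mem _ d.P_mem
  have hPD : ((1 - τ) ^ a : AddMonoid.End M) P ∈ D ac τ χ a := ⟨P, d.P_mem, rfl⟩
  obtain ⟨S, hS1, hS2⟩ := exists_trace d.mul χ.ker (((1 - τ) ^ a : AddMonoid.End M) P) hPa
    (D ac τ χ (a + 1)) (fun g => by
      have h2 := d.ac_pow g a P d.P_mem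
      rw [d.fix] at h2
      have h3 := (d.zsmul_mem_iff a _).mpr ((dvd_iff g a).mpr (h g))
      rw [sub_smul, one_smul] at h3
      have h4 := add_mem h2 h3
      rwa [sub_add_sub_cancel] at h4)
  have hz := d.zsmul_mem_iff a
  refine relIndex_eq_prime (x₀ := S) ⟨?_, fun g _ => hS1 g⟩ ?_ ⟨?_, fun g _ => ?_⟩ ?_
  · have h1 := add_mem (d.D_succ_le a hS2) (nsmul_mem hPD χ.ker.index)
    rwa [sub_add_cancel] at h1
  · rintro ⟨h1, -⟩
    have h1' : S ∈ D ac τ χ (a + 1) := h1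
    have h2 := sub_mem h1' hS2
    rw [sub_sub_cancel, ← natCast_zsmul, hz, Int.natCast_dvd_natCast] at h2
    exact not_dvd_index h2
  · have h1 := (hz ((ℓ : ℤ) * χ.ker.index)).mpr (dvd_mul_right _ _)
    have h2 := add_mem (nsmul_mem hS2 ℓ) h1
    rw [mul_smul, natCast_zsmul, natCast_zsmul, smul_sub, sub_add_cancel] at h2
    exact h2
  · rw [map_nsmul, hS1]
  · rintro x ⟨hx, hxi⟩
    obtain ⟨j, hj⟩ := d.exists_rep hx
    have hm0 : (χ.ker.index : ZMod ℓ) ≠ 0 := by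
      rw [Ne, ZMod.natCast_eq_zero_iff]
      exact not_dvd_index
    obtain ⟨i, hi⟩ : ∃ i : ℕ, (ℓ : ℤ) ∣ i * χ.ker.index - j := by
      refine ⟨((j : ZMod ℓ) * (χ.ker.index : ZMod ℓ)⁻¹).val, ?_⟩
      rw [← ZMod.intCast_zmod_eq_zero_iff_dvd, Int.cast_sub, Int.cast_mul, Int.cast_natCast,
        ZMod.natCast_zmod_val, Int.cast_natCast, Int.cast_natCast, mul_assoc,
        inv_mul_cancel₀ hm0, mul_one, sub_self]
    refine ⟨i, ?_, fun g _ => ?_⟩
    · have h1 := add_mem (add_mem hj (nsmul_mem hS2 i)) ((hz _).mpr hi)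
      change x + i • S ∈ D ac τ χ (a + 1)
      convert h1 using 1
      rw [sub_smul, mul_smul, natCast_zsmul, natCast_zsmul, natCast_zsmul, smul_sub]
      abel
    · rw [map_add, map_nsmul, hS1, hxi g trivial]

lemma relIndex_D (n : ℕ) : (D ac τ χ n ⊓ inv ac ⊤).relIndex (inv ac ⊤) =
    ∏ a ∈ range n, if ∀ g, χ g ^ a = 1 then ℓ else 1 := by
  induction n with
  | zero =>
    have h1 : D ac τ χ 0 ⊓ inv ac ⊤ = inv ac ⊤ := by
      rw [inf_eq_right]
      intro x hx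
      exact ⟨x, fun g _ => hx g trivial, rfl⟩
    rw [h1, AddSubgroup.relIndex_self, range_zero, prod_empty]
  | succ n ih =>
    rw [prod_range_succ, ← ih, ← AddSubgroup.relIndex_mul_relIndex
      (D ac τ χ (n + 1) ⊓ inv ac ⊤) (D ac τ χ n ⊓ inv ac ⊤) (inv ac ⊤)
      (inf_le_inf_right _ (d.D_succ_le n)) inf_le_right, mul_comm]
    congr 1
    split_ifs with h
    · exact d.step_ell h
    · exact d.step_one h

omit d in
lemma forall_pow_iff (a : ℕ) : (∀ g, χ g ^ a = 1) ↔ χ.ker.index ∣ a := by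
  rw [Subgroup.index_ker, ← IsCyclic.exponent_eq_card, Monoid.exponent_dvd_iff_forall_pow_eq_one]
  constructor
  · rintro h ⟨_, g, rfl⟩
    exact Subtype.ext (h g)
  · intro h g
    exact congrArg Subtype.val (h ⟨χ g, g, rfl⟩)

omit d in
lemma prod_eq : (∏ a ∈ range (ℓ - 1), if ∀ g, χ g ^ a = 1 then ℓ else 1) =
    ℓ ^ ((ℓ - 1) / χ.ker.index) := by
  simp only [forall_pow_iff]
  rw [← prod_filter, prod_const]
  congr 1
  obtain ⟨c, hc⟩ := index_dvd (χ := χ)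
  have hpos : 0 < χ.ker.index := Nat.pos_of_ne_zero (fun h0 => by
    have := not_dvd_index (χ := χ)
    rw [h0] at this
    exact this (dvd_zero _))
  rw [hc, Nat.mul_div_cancel_left _ hpos]
  have h1 : (range (χ.ker.index * c)).filter (fun a => χ.ker.index ∣ a) =
      (range c).image (fun b => χ.ker.index * b) := by
    ext a
    rw [mem_filter, mem_range, mem_image]
    constructor
    · rintro ⟨h1, b, rfl⟩
      exact ⟨b, mem_range.mpr (lt_of_mul_lt_mul_left h1 hpos.le), rfl⟩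
    · rintro ⟨b, hb, rfl⟩
      exact ⟨mul_lt_mul_of_pos_left (mem_range.mp hb) hpos, dvd_mul_right _ _⟩
  rw [h1, card_image_of_injective _ (fun x y hxy => Nat.eq_of_mul_eq_mul_left hpos hxy), card_range]

/-- The index of `ℓ J(K)` in `J(K)`. -/
theorem relIndex_inv : ((inv ac ⊤).map (nsmulAddMonoidHom ℓ)).relIndex (inv ac ⊤) =
    ℓ ^ ((ℓ - 1) / χ.ker.index) := by
  rw [← prod_eq, ← d.relIndex_D]
  congr 1
  ext x
  constructor
  · rintro ⟨y, hy, rfl⟩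
    refine ⟨d.ell_mem fun g _ => hy g trivial, fun g _ => ?_⟩
    change ac g (ℓ • y) = ℓ • y
    rw [map_nsmul, hy g trivial]
  · rintro ⟨hx, hxi⟩
    obtain ⟨y, hy, rfl⟩ := d.of_mem_D hx
    refine ⟨y, fun g _ => ?_, rfl⟩
    have h1 : ℓ • (ac g y - y) = 0 := by
      rw [smul_sub, ← map_nsmul, hxi g trivial, sub_self]
    exact sub_eq_zero.mp (d.tor _ (sub_mem (d.ac_mem g hy) hy) h1)

end Data

end Main

end Idx

end Pool.Agent.MP1bdb59C
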