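import Mathlib
import Pool.Agent.MP1bdb59C.Spec

/-!
# The element `ξ = 1 + w (c - x)` and its norm `D`
-/

open Polynomial

noncomputable section

open scoped Classical

set_option linter.unusedSectionVars false

namespace Pool.Agent.MP1bdb59C

section Alg

variable {A : Type*} [CommRing A] (f : A[X]) (w c : A)

/-- The element `ξ = 1 + w (c - x)` of `A[x]/(f)`. -/
def xi : AdjoinRoot f := 1 + AdjoinRoot.of f w * (AdjoinRoot.of f c - AdjoinRoot.root f)

/-- The element `D = w^n f(c + 1/w)` of `A`, the norm of `ξ`. -/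
def dd : A := (f.scaleRoots w).eval (c * w + 1)

variable {f}

lemma dd_eq (hf : f.Monic) : ∃ t, dd f w c = 1 + w * t := by
  have h1 : Ideal.Quotient.mk (Ideal.span {w}) (dd f w c - 1) = 0 := by
    set q := Ideal.Quotient.mk (Ideal.span {w}) with hq
    have hw : q w = 0 := Ideal.Quotient.eq_zero_iff_mem.mpr (Ideal.mem_span_singleton_self w)
    have h2 : q (dd f w c) = ((f.scaleRoots w).map q).eval (q (c * w + 1)) := by
      rw [eval_map, eval₂_at_apply]
      rfl
    by_cases hnt : Nontrivial (A ⧸ Ideal.span {w})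
    · have h3 : (f.scaleRoots w).map q = (f.map q).scaleRoots (q w) :=
        map_scaleRoots _ _ _ (by rw [hf.leadingCoeff, map_one]; exact one_ne_zero)
      have h4 : (f.map q).leadingCoeff = 1 := hf.map q
      rw [map_sub, h2, h3, hw, scaleRoots_zero, h4, one_smul, eval_pow, eval_X, map_add, map_mul,
        hw, mul_zero, zero_add, map_one, one_pow, sub_self]
    · rw [not_nontrivial_iff_subsingleton] at hnt
      exact Subsingleton.elim _ _
  rw [Ideal.Quotient.eq_zero_iff_mem, Ideal.mem_span_singleton'] at h1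
  obtain ⟨t, ht⟩ := h1
  exact ⟨t, by linear_combination -ht⟩

lemma xi_dvd_dd : xi f w c ∣ AdjoinRoot.of f (dd f w c) := by
  have h1 := sub_dvd_eval_sub (AdjoinRoot.of f (c * w + 1)) (AdjoinRoot.of f w * AdjoinRoot.root f)
    ((f.scaleRoots w).map (AdjoinRoot.of f))
  have h2 : ((f.scaleRoots w).map (AdjoinRoot.of f)).eval
      (AdjoinRoot.of f w * AdjoinRoot.root f) = 0 := by
    rw [eval_map]
    exact scaleRoots_eval₂_eq_zero _ (AdjoinRoot.eval₂_root f)
  have h3 : ((f.scaleRoots w).map (AdjoinRoot.of f)).eval (AdjoinRoot.of f (c * w + 1)) =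
      AdjoinRoot.of f (dd f w c) := by
    rw [eval_map, eval₂_at_apply]
    rfl
  have h4 : AdjoinRoot.of f (c * w + 1) - AdjoinRoot.of f w * AdjoinRoot.root f = xi f w c := by
    unfold xi
    rw [map_add, map_mul, map_one]
    ring
  rwa [h2, h3, sub_zero, h4] at h1

/-- An element `x` of `A` with `f(x)` divisible by `D` and `ξ = w (x - θ) + D`. -/
lemma exists_root_mod (hf : f.Monic) : ∃ x : A, dd f w c ∣ f.eval x ∧
    w * (x - c) + dd f w c = 1 ∧
    xi f w c = AdjoinRoot.of f w * (AdjoinRoot.of f x - AdjoinRoot.root f) +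
      AdjoinRoot.of f (dd f w c) := by
  obtain ⟨t, ht⟩ := dd_eq w c hf
  refine ⟨c - t, ?_, ?_, ?_⟩
  · have h1 := sub_dvd_eval_sub (w * (c - t)) (c * w + 1) (f.scaleRoots w)
    have h2 : w * (c - t) - (c * w + 1) = -dd f w c := by rw [ht]; ring
    rw [h2, scaleRoots_eval_mul, neg_dvd] at h1
    have h3 : dd f w c ∣ w ^ f.natDegree * f.eval (c - t) := by
      have h4 : w ^ f.natDegree * f.eval (c - t) =
          (w ^ f.natDegree * f.eval (c - t) - (f.scaleRoots w).eval (c * w + 1)) + dd f w c := by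
        unfold dd
        ring
      rw [h4]
      exact dvd_add h1 dvd_rfl
    have h4 : IsCoprime (dd f w c) (w ^ f.natDegree) :=
      IsCoprime.pow_right ⟨1, -t, by rw [ht]; ring⟩
    exact h4.dvd_of_dvd_mul_left h3
  · rw [ht]
    ring
  · unfold xi
    rw [ht]
    simp only [map_sub, map_add, map_mul, map_one]
    ring

/-- The homomorphism `A[x]/(f) → A/(D)`, `x ↦ c + 1/w`. -/
lemma exists_hom_mod (hf : f.Monic) : ∃ ρ : AdjoinRoot f →+* A ⧸ Ideal.span {dd f w c},
    (∀ a, ρ (AdjoinRoot.of f a) = Ideal.Quotient.mk _ a) ∧ ρ (xi f w c) = 0 := by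
  obtain ⟨x, hx1, hx2, hx3⟩ := exists_root_mod w c hf
  have h1 : f.eval₂ (Ideal.Quotient.mk (Ideal.span {dd f w c})) (Ideal.Quotient.mk _ x) = 0 := by
    rw [eval₂_at_apply, Ideal.Quotient.eq_zero_iff_mem, Ideal.mem_span_singleton]
    exact hx1
  refine ⟨AdjoinRoot.lift (Ideal.Quotient.mk _) _ h1, fun a => AdjoinRoot.lift_of _, ?_⟩
  rw [hx3, map_add, map_mul, map_sub, AdjoinRoot.lift_of, AdjoinRoot.lift_of, AdjoinRoot.lift_of,
    AdjoinRoot.lift_root, sub_self, mul_zero, zero_add, Ideal.Quotient.eq_zero_iff_mem]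
  exact Ideal.mem_span_singleton_self _

/-- `(ξ) ∩ A = (D)`. -/
lemma comap_xi (hf : f.Monic) :
    (Ideal.span {xi f w c}).comap (AdjoinRoot.of f) = Ideal.span {dd f w c} := by
  apply le_antisymm
  · intro a ha
    obtain ⟨ρ, hρ1, hρ2⟩ := exists_hom_mod w c hf
    change AdjoinRoot.of f a ∈ Ideal.span {xi f w c} at ha
    obtain ⟨y, hy⟩ := Ideal.mem_span_singleton.mp ha
    have h1 := congrArg ρ hy
    rw [map_mul, hρ1, hρ2, zero_mul, Ideal.Quotient.eq_zero_iff_mem] at h1
    exact h1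
  · rw [Ideal.span_le, Set.singleton_subset_iff]
    exact Ideal.mem_span_singleton.mpr (xi_dvd_dd w c)

end Alg

section Pair

variable {A : Type*} [CommRing A] {f : A[X]} (hf : f.Monic) {g : (AdjoinRoot f)[X]}
  (hg : f.map (AdjoinRoot.of f) = (X - C (AdjoinRoot.root f)) * g)

include hg in
lemma eval_second : f.eval₂ ((AdjoinRoot.of g).comp (AdjoinRoot.of f)) (AdjoinRoot.root g) = 0 := by
  rw [← Polynomial.eval₂_map, hg, eval₂_mul, AdjoinRoot.eval₂_root, mul_zero]

/-- The second embedding of `A[x]/(f)`, `x ↦ x'`. -/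
def iota2 : AdjoinRoot f →+* AdjoinRoot g :=
  AdjoinRoot.lift ((AdjoinRoot.of g).comp (AdjoinRoot.of f)) (AdjoinRoot.root g) (eval_second hg)

lemma iota2_of (a : A) : iota2 hg (AdjoinRoot.of f a) = AdjoinRoot.of g (AdjoinRoot.of f a) :=
  AdjoinRoot.lift_of _

lemma iota2_root : iota2 hg (AdjoinRoot.root f) = AdjoinRoot.root g := AdjoinRoot.lift_root _

include hg in
/-- `x' - x` is a unit. -/
lemma isUnit_diff (hsep : f.Separable) :
    IsUnit (AdjoinRoot.root g - AdjoinRoot.of g (AdjoinRoot.root f)) := by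
  -- `g(x)` is a unit
  have h1 : IsUnit (g.eval (AdjoinRoot.root f)) := by
    obtain ⟨a, b, hab⟩ := hsep
    have h2 := congrArg derivative hg
    rw [derivative_mul, derivative_sub, derivative_X, derivative_C, sub_zero, one_mul,
      derivative_map] at h2
    have h3 := congrArg (eval (AdjoinRoot.root f)) h2
    rw [eval_add, eval_mul (p := X - C (AdjoinRoot.root f)), eval_sub, eval_X, eval_C, sub_self,
      zero_mul, add_zero, eval_map] at h3
    rw [← h3]
    have h4 := congrArg (eval₂ (AdjoinRoot.of f) (AdjoinRoot.root f)) hab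
    rw [eval₂_add, eval₂_mul, eval₂_mul, AdjoinRoot.eval₂_root, mul_zero, zero_add, eval₂_one] at h4
    exact IsUnit.of_mul_eq_one _ (by rw [mul_comm]; exact h4)
  have h2 := sub_dvd_eval_sub (AdjoinRoot.root g) (AdjoinRoot.of g (AdjoinRoot.root f))
    (g.map (AdjoinRoot.of g))
  rw [eval_map, eval_map, AdjoinRoot.eval₂_root, eval₂_at_apply, zero_sub, dvd_neg] at h2
  exact isUnit_of_dvd_unit h2 (h1.map (AdjoinRoot.of g))

/-- The other prime above `D`. -/
def otherP (w c : A) : Ideal (AdjoinRoot f) :=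
  (Ideal.span {AdjoinRoot.of g (xi f w c)}).comap (iota2 hg)

variable {w c : A}

lemma dd_mem_otherP : AdjoinRoot.of f (dd f w c) ∈ otherP hg w c := by
  change iota2 hg (AdjoinRoot.of f (dd f w c)) ∈ Ideal.span {AdjoinRoot.of g (xi f w c)}
  rw [iota2_of, Ideal.mem_span_singleton]
  exact map_dvd _ (xi_dvd_dd w c)

lemma xi_notMem_otherP (hsep : f.Separable)
    (hpr : (Ideal.span {AdjoinRoot.of g (xi f w c)}).IsPrime) : xi f w c ∉ otherP hg w c := by
  intro hmem
  have h1 : iota2 hg (xi f w c) ∈ Ideal.span {AdjoinRoot.of g (xi f w c)} := hmem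
  have h2 : iota2 hg (xi f w c) = AdjoinRoot.of g (xi f w c) -
      AdjoinRoot.of g (AdjoinRoot.of f w) *
        (AdjoinRoot.root g - AdjoinRoot.of g (AdjoinRoot.root f)) := by
    unfold xi
    simp only [map_add, map_mul, map_sub, map_one, iota2_of, iota2_root]
    ring
  have hself := Ideal.mem_span_singleton_self (AdjoinRoot.of g (xi f w c))
  have h3 : AdjoinRoot.of g (AdjoinRoot.of f w) *
      (AdjoinRoot.root g - AdjoinRoot.of g (AdjoinRoot.root f)) ∈
      Ideal.span {AdjoinRoot.of g (xi f w c)} := by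
    have h4 := Ideal.sub_mem _ hself h1
    rw [h2, sub_sub_cancel] at h4
    exact h4
  rcases hpr.mem_or_mem h3 with h4 | h4
  · apply hpr.ne_top
    rw [Ideal.eq_top_iff_one]
    have h5 : (1 : AdjoinRoot g) = AdjoinRoot.of g (xi f w c) -
        AdjoinRoot.of g (AdjoinRoot.of f w) *
          AdjoinRoot.of g (AdjoinRoot.of f c - AdjoinRoot.root f) := by
      unfold xi
      simp only [map_add, map_mul, map_sub, map_one]
      ring
    rw [h5]
    exact Ideal.sub_mem _ hself (Ideal.mul_mem_right _ _ h4)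
  · exact hpr.ne_top (Ideal.eq_top_of_isUnit_mem _ h4 (isUnit_diff hg hsep))

include hf in
/-- Every prime above `D` not containing `ξ` contains `otherP`. -/
lemma otherP_le {P : Ideal (AdjoinRoot f)} [hP : P.IsPrime] (hD : AdjoinRoot.of f (dd f w c) ∈ P)
    (hξ : xi f w c ∉ P) : otherP hg w c ≤ P := by
  obtain ⟨x, hx1, hx2, hx3⟩ := exists_root_mod w c hf
  set q := Ideal.Quotient.mk P with hq
  have hqD : q (AdjoinRoot.of f (dd f w c)) = 0 := Ideal.Quotient.eq_zero_iff_mem.mpr hD
  have hfx : f.eval₂ (q.comp (AdjoinRoot.of f)) (q (AdjoinRoot.of f x)) = 0 := by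
    have h1 : f.eval₂ (q.comp (AdjoinRoot.of f)) (q (AdjoinRoot.of f x)) =
        q (AdjoinRoot.of f (f.eval x)) := eval₂_at_apply (q.comp (AdjoinRoot.of f)) x
    rw [h1]
    obtain ⟨y, hy⟩ := hx1
    rw [hy, map_mul, map_mul, hqD, zero_mul]
  set h₁ : AdjoinRoot f →+* AdjoinRoot f ⧸ P :=
    AdjoinRoot.lift (q.comp (AdjoinRoot.of f)) (q (AdjoinRoot.of f x)) hfx with hh₁
  have hh₁of : ∀ a, h₁ (AdjoinRoot.of f a) = q (AdjoinRoot.of f a) := fun a =>
    AdjoinRoot.lift_of _
  have hh₁root : h₁ (AdjoinRoot.root f) = q (AdjoinRoot.of f x) := AdjoinRoot.lift_root _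
  have hh₁xi : h₁ (xi f w c) = 0 := by
    rw [hx3, map_add, map_mul, map_sub, hh₁of, hh₁of, hh₁of, hh₁root, sub_self, mul_zero, zero_add,
      hqD]
  have hne : q (AdjoinRoot.root f) - q (AdjoinRoot.of f x) ≠ 0 := by
    intro h0
    apply hξ
    rw [← Ideal.Quotient.eq_zero_iff_mem, hx3]
    change q _ = 0
    rw [map_add, map_mul, map_sub, hqD, add_zero]
    have h1 : q (AdjoinRoot.of f x) - q (AdjoinRoot.root f) = 0 := by
      rw [← neg_sub, h0, neg_zero]
    rw [h1, mul_zero]
  have hgx : g.eval₂ h₁ (q (AdjoinRoot.root f)) = 0 := by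
    have h1 : (f.map (AdjoinRoot.of f)).eval₂ h₁ (q (AdjoinRoot.root f)) = 0 := by
      rw [eval₂_map]
      have h2 : h₁.comp (AdjoinRoot.of f) = q.comp (AdjoinRoot.of f) :=
        RingHom.ext fun a => hh₁of a
      rw [h2, ← Polynomial.hom_eval₂, AdjoinRoot.eval₂_root, map_zero]
    rw [hg, eval₂_mul, eval₂_sub, eval₂_X, eval₂_C, hh₁root] at h1
    exact (mul_eq_zero.mp h1).resolve_left hne
  set Φ : AdjoinRoot g →+* AdjoinRoot f ⧸ P := AdjoinRoot.lift h₁ (q (AdjoinRoot.root f)) hgx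
    with hΦ
  have hΦι : Φ.comp (iota2 hg) = q := by
    apply AdjoinRoot.ringHom_ext
    · apply RingHom.ext
      intro a
      change Φ (iota2 hg (AdjoinRoot.of f a)) = q (AdjoinRoot.of f a)
      rw [iota2_of, hΦ, AdjoinRoot.lift_of, hh₁of]
    · change Φ (iota2 hg (AdjoinRoot.root f)) = q (AdjoinRoot.root f)
      rw [iota2_root, hΦ, AdjoinRoot.lift_root]
  intro y hy
  have h1 : iota2 hg y ∈ Ideal.span {AdjoinRoot.of g (xi f w c)} := hy
  obtain ⟨z, hz⟩ := Ideal.mem_span_singleton.mp h1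
  rw [← Ideal.Quotient.eq_zero_iff_mem]
  change q y = 0
  rw [← hΦι, RingHom.comp_apply, hz, map_mul]
  have h2 : Φ (AdjoinRoot.of g (xi f w c)) = h₁ (xi f w c) := AdjoinRoot.lift_of _
  rw [h2, hh₁xi, zero_mul]

/-- `ξ` generates a prime ideal of `A[x]/(f)` if it generates one of the larger ring. -/
lemma comap_of_xi (hgm : g.Monic) (hgn : g.natDegree ≠ 0) :
    (Ideal.span {AdjoinRoot.of g (xi f w c)}).comap (AdjoinRoot.of g) = Ideal.span {xi f w c} := by
  apply le_antisymm
  · intro a ha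
    change AdjoinRoot.of g a ∈ Ideal.span {AdjoinRoot.of g (xi f w c)} at ha
    obtain ⟨y, hy⟩ := Ideal.mem_span_singleton.mp ha
    by_cases hnt : Nontrivial (AdjoinRoot f)
    · set pb := AdjoinRoot.powerBasis' hgm with hpb
      have hdim : 0 < pb.dim := by
        rw [hpb, AdjoinRoot.powerBasis'_dim]
        exact Nat.pos_of_ne_zero hgn
      have h1 : ∀ b : AdjoinRoot f, pb.basis.repr (AdjoinRoot.of g b) ⟨0, hdim⟩ = b := by
        intro b
        have h2 : AdjoinRoot.of g b = b • pb.basis ⟨0, hdim⟩ := by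
          rw [pb.basis_eq_pow]
          simp only [pow_zero]
          rw [Algebra.smul_def, mul_one]
          rfl
        rw [h2, map_smul, Finsupp.smul_apply, Module.Basis.repr_self, Finsupp.single_eq_same,
          smul_eq_mul, mul_one]
      rw [Ideal.mem_span_singleton]
      refine ⟨pb.basis.repr y ⟨0, hdim⟩, ?_⟩
      have h3 := congrArg (fun z => pb.basis.repr z ⟨0, hdim⟩) hy
      simp only [h1] at h3
      have h4 : AdjoinRoot.of g (xi f w c) * y = xi f w c • y := by
        rw [Algebra.smul_def]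
        rfl
      rw [h4, map_smul, Finsupp.smul_apply, smul_eq_mul] at h3
      exact h3
    · rw [not_nontrivial_iff_subsingleton] at hnt
      rw [Subsingleton.elim a 0]
      exact Ideal.zero_mem _
  · rw [Ideal.span_le, Set.singleton_subset_iff]
    exact Ideal.mem_span_singleton_self _

end Pair

end Pool.Agent.MP1bdb59C
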