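import Mathlib
import Pool.Agent.MP1bdb59C.Main

/-!
# The Kummer image of a rational divisor prime to `y`
-/

open Polynomial Finset Submodule

noncomputable section

open scoped Classical

set_option linter.unusedSectionVars false

namespace Pool.Agent.MP1bdb59C

open Pool.Agent.MP1bdb59 (Sep AbsGal)

universe u

section Grp

variable {G : Type*} [CommGroup G]

lemma grp5 {z b d t u s : G} (h : z * b = d * t) : z * s * u⁻¹ * (u * b) = d * (s * t) := by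
  calc z * s * u⁻¹ * (u * b) = (z * b) * s * (u⁻¹ * u) := by ac_rfl
    _ = d * (s * t) := by rw [h, inv_mul_cancel, mul_one]; ac_rfl

lemma grp6 {z z' i d t i' t' : G} (h : z * i = d * t) (h' : z' * i' = d * t') :
    z * z'⁻¹ * (t' * t⁻¹) = i' * i⁻¹ := by
  have h1 : z = d * t * i⁻¹ := by rw [← h, mul_inv_cancel_right]
  have h2 : t' = d⁻¹ * (z' * i') := by rw [h', inv_mul_cancel_left]
  rw [h1, h2]
  calc d * t * i⁻¹ * z'⁻¹ * (d⁻¹ * (z' * i') * t⁻¹) =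
      (d * d⁻¹) * (t * t⁻¹) * (z' * z'⁻¹) * (i' * i⁻¹) := by ac_rfl
    _ = i' * i⁻¹ := by rw [mul_inv_cancel, mul_inv_cancel, mul_inv_cancel, one_mul, one_mul, one_mul]

end Grp

variable {F : Type u} [Field F] {ℓ : ℕ} [hp : Fact ℓ.Prime] {g : F[X]} {gs : (Sep F)[X]}
  [hf : Good ℓ g] [hfs : Good ℓ gs] (hgs : g.map (algebraMap F (Sep F)) = gs)
  {ζ : F} (hζ : IsPrimitiveRoot ζ ℓ) {ζs : Sep F} (hζs : IsPrimitiveRoot ζs ℓ)
  (hζζ : algebraMap F (Sep F) ζ = ζs)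

include hζζ hζs in
/-- The Kummer image: `D` is a rational divisor prime to `y`, of norm `(q)`. -/
theorem exists_kum (D : Dv ℓ gs) (hD1 : D.1 ≤ 1) {d : FF ℓ gs} (hd : d ∈ D.1) (hd1 : redM d = 1)
    (hDσ : ∀ σ, aU hgs σ D = D) {q : F[X]} (hq0 : (pol (q.map (algebraMap F (Sep F))) : FF ℓ gs) ≠ 0)
    (hN : nrm (tauU hζs) ℓ D = prin (pol (q.map (algebraMap F (Sep F)))) hq0)
    {r : F} (hr0 : r ≠ 0) (hr : Algebra.norm F (AdjoinRoot.mk g q) = r ^ ℓ) :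
    ∃ (b : CommRing.Pic (CoordRing ℓ gs)) (ρ : AdjoinRoot gs) (e : AbsGal F → AdjoinRoot gs),
      pcl D * tauPic hζs b = b ∧ IsUnit ρ ∧ (∀ σ, IsEps hζs (aP hgs σ b * b⁻¹) (e σ)) ∧
      (∀ σ, aL hgs σ ρ = e σ * ρ) ∧
      lamMap (algebraMap F (Sep F)) hgs (AdjoinRoot.mk g q) * ρ ^ ℓ = 1 := by
  have hsc : IsSepClosed (Sep F) := (inferInstance : IsSepClosed (SeparableClosure F))
  have hsplit : gs.Splits := IsSepClosed.splits_of_separable gs hfs.sep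
  have hnt : Nontrivial (AdjoinRoot gs) := gs_nontrivial (gs := gs) ℓ
  obtain ⟨B, z₀, hz₀, hB⟩ := exists_phi_div' hζs D
  -- a representative prime to `y`
  obtain ⟨u, hu, s₀, hs₀, hsu⟩ := exists_trivial hsplit B
  have hu0 : u ≠ 0 := by
    rintro rfl
    rw [mul_zero, redM_zero] at hsu
    exact zero_ne_one hsu
  obtain ⟨I, hI⟩ : ∃ I : Dv ℓ gs, I = prin u hu0 * B := ⟨_, rfl⟩
  have hI1 : I.1 ≤ 1 := by
    intro x hx
    rw [hI, mem_prin_mul] at hx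
    have h1 : x = u⁻¹ * x * u := by rw [mul_comm, ← mul_assoc, mul_inv_cancel₀ hu0, one_mul]
    rw [h1]
    exact B.mul_inv_mem hx hu
  set s : FF ℓ gs := s₀ * u with hs
  have hsI : s ∈ I.1 := by
    rw [hI, mem_prin_mul, hs, mul_comm s₀ u, inv_mul_cancel_left₀ hu0]
    exact hs₀
  have hτu0 := tauM_ne_zero hζs hu0
  have hz₁ : z₀ * tauM hζs u * u⁻¹ ≠ 0 := mul_ne_zero (mul_ne_zero hz₀ hτu0) (inv_ne_zero hu0)
  have hI2 : prin (z₀ * tauM hζs u * u⁻¹) hz₁ * I = D * tauU hζs I := by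
    rw [hI, map_mul, tauU_prin, ← prin_mul (mul_ne_zero hz₀ hτu0) (inv_ne_zero hu0),
      ← prin_mul hz₀ hτu0, ← prin_inv hu0]
    exact grp5 (G := Dv ℓ gs) hB
  -- the norm of `z₁`
  have hNz₁ : ∃ κ : Sep F, κ ≠ 0 ∧ nrm (tauM hζs) ℓ (z₀ * tauM hζs u * u⁻¹) =
      pol (C κ) * pol (q.map (algebraMap F (Sep F))) := by
    have h1 := congrArg (nrm (tauU hζs) ℓ) hI2
    have h2 : nrm (tauU hζs) ℓ (tauU hζs I) = nrm (tauU hζs) ℓ I := by
      rw [← map_nrm', nrm_tau (tauU hζs) (tauU_iterate_ell hζs I)]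
    rw [nrm_mul, nrm_mul, h2, hN, nrm_prin] at h1
    have h3 := mul_right_cancel h1
    have h4 : prin (nrm (tauM hζs) ℓ (z₀ * tauM hζs u * u⁻¹) *
        (pol (q.map (algebraMap F (Sep F))))⁻¹)
        (mul_ne_zero (nrm_ne_zero (hζ := hζs) hz₁ ℓ) (inv_ne_zero hq0)) = 1 := by
      rw [← prin_mul (nrm_ne_zero (hζ := hζs) hz₁ ℓ) (inv_ne_zero hq0), h3, ← prin_inv hq0,
        mul_inv_cancel]
    obtain ⟨κ, hκ, hκ'⟩ := (prin_eq_one_iff _).mp h4
    refine ⟨κ, hκ, ?_⟩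
    rw [← hκ', inv_mul_cancel_right₀ hq0]
  obtain ⟨κ, hκ, hNκ⟩ := hNz₁
  have : NeZero (ℓ : Sep F) := ⟨ell_ne_zero hζs⟩
  obtain ⟨μ, hμ⟩ := IsSepClosed.exists_pow_nat_eq κ ℓ
  have hμ0 : μ ≠ 0 := by
    rintro rfl
    rw [zero_pow hp.out.ne_zero] at hμ
    exact hκ hμ.symm
  have hμp : (pol (C μ⁻¹) : FF ℓ gs) ≠ 0 := pol_ne_zero (C_ne_zero.mpr (inv_ne_zero hμ0))
  obtain ⟨z, hzdef⟩ : ∃ z : FF ℓ gs, z = pol (C μ⁻¹) * (z₀ * tauM hζs u * u⁻¹) := ⟨_, rfl⟩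
  have hz : z ≠ 0 := by rw [hzdef]; exact mul_ne_zero hμp hz₁
  have hzI : prin z hz * I = D * tauU hζs I := by
    have h1 : prin z hz = prin (pol (C μ⁻¹)) hμp * prin (z₀ * tauM hζs u * u⁻¹) hz₁ := by
      rw [prin_mul]
      exact prin_congr hzdef _ _
    have h2 : prin (pol (C μ⁻¹) : FF ℓ gs) hμp = 1 :=
      (prin_eq_one_iff hμp).mpr ⟨μ⁻¹, inv_ne_zero hμ0, rfl⟩
    rw [h1, h2, one_mul, hI2]
  have hNz : nrm (tauM hζs) ℓ z = pol (q.map (algebraMap F (Sep F))) := by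
    rw [hzdef, nrm_mul, hNκ, nrm_of_fixed _ (tauM_pol hζs _), ← pol_pow, ← mul_assoc, ← pol_mul,
      ← C_pow, ← C_mul, ← hμ, inv_pow, inv_mul_cancel₀ (pow_ne_zero _ hμ0), C_1, pol_one, one_mul]
  -- the value of `z` along `y = 0`
  have hs1 := hI1 hsI
  have hτs := tauM_mem_one hζs hs1
  have hsW : InW s 1 := by
    have := InW.of_mem hs1
    rwa [hsu] at this
  have hzs : z * s ∈ (1 : Submodule (CoordRing ℓ gs) (FF ℓ gs)) := by
    have h1 : z * s ∈ (D * tauU hζs I).1 := by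
      rw [← hzI, mem_prin_mul, inv_mul_cancel_left₀ hz]
      exact hsI
    have h2 : (D * tauU hζs I).1 ≤ 1 := by
      change D.1 * (tauU hζs I).1 ≤ 1
      rw [Submodule.mul_le]
      intro x hx y hy
      rw [tauU_val] at hy
      obtain ⟨t, ht, rfl⟩ := (mem_tauS hζs).mp hy
      exact mul_mem_one (hD1 hx) (tauM_mem_one hζs (hI1 ht))
    exact h2 h1
  obtain ⟨ρ', hρ'⟩ : ∃ ρ', ρ' = redM (s * z) := ⟨_, rfl⟩
  have hzW : InW z ρ' := ⟨s, hs1, hsu, by rw [mul_comm]; exact hzs, hρ'.symm⟩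
  have hρpow : ρ' ^ ℓ = lamMap (algebraMap F (Sep F)) hgs (AdjoinRoot.mk g q) := by
    have h1 := hzW.nrm hζs ℓ
    rw [hNz] at h1
    have h2 := InW.of_mem (pol_mem_one (ℓ := ℓ) (f := gs) (q.map (algebraMap F (Sep F))))
    rw [redM_pol] at h2
    rw [h1.unique h2, lamMap_mk]
  -- `ρ'` is a unit
  obtain ⟨w, hw1, hw2⟩ : ∃ w : FF ℓ gs, w * z = d * tauM hζs s ∧
      w ∈ (1 : Submodule (CoordRing ℓ gs) (FF ℓ gs)) := by
    refine ⟨z⁻¹ * (d * tauM hζs s), ?_, ?_⟩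
    · rw [mul_comm, mul_inv_cancel_left₀ hz]
    · have h1 : d * tauM hζs s ∈ (prin z hz * I).1 := by
        rw [hzI]
        exact Submodule.mul_mem_mul hd (tauM_mem_tauS hζs hsI)
      rw [mem_prin_mul] at h1
      exact hI1 h1
  have hρu : redM w * ρ' = 1 := by
    have h1 := (InW.of_mem hw2).mul hzW
    rw [hw1] at h1
    have hd' := hD1 hd
    have h2 := (InW.of_mem hd').mul ((InW.of_mem hs1).tau hζs)
    rw [hd1, hsu, one_mul] at h2
    exact h1.unique h2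
  -- the cocycle
  have haz : ∀ σ, aM hgs σ z ≠ 0 := fun σ => aM_ne_zero hgs σ hz
  have hTσ : ∀ σ, prin (z * (aM hgs σ z)⁻¹) (mul_ne_zero hz (inv_ne_zero (haz σ))) *
      tauU hζs (aU hgs σ I * I⁻¹) = aU hgs σ I * I⁻¹ := by
    intro σ
    have h1 := congrArg (aU hgs σ) hzI
    rw [map_mul, map_mul, hDσ, aU_prin, aU_tau hgs hζs hζζ] at h1
    rw [← prin_mul hz (inv_ne_zero (haz σ)), ← prin_inv (haz σ), map_mul, map_inv]
    exact grp6 (G := Dv ℓ gs) hzI h1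
  choose e he using fun σ => exists_rel (hζ := hζs) (aU hgs σ I * I⁻¹)
    (mul_ne_zero hz (inv_ne_zero (haz σ))) (hTσ σ)
  have hcoc : ∀ σ, ρ' = e σ * aL hgs σ ρ' := by
    intro σ
    have h1 := (inW_z hgs hζs hI1 hsI hsu (he σ)).mul (hzW.aM hgs σ)
    rw [inv_mul_cancel_right₀ (haz σ)] at h1
    exact hzW.unique h1
  refine ⟨pcl I, redM w, e, ?_, IsUnit.of_mul_eq_one _ hρu, fun σ => ?_, fun σ => ?_, ?_⟩
  · rw [tauPic_pcl, ← map_mul, ← hzI, map_mul, pcl_prin, one_mul]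
  · refine ⟨aU hgs σ I * I⁻¹, _, ?_, he σ, ?_, ?_⟩
    · rw [map_mul, map_inv, aP_pcl]
    · have h1 : z * (aM hgs σ z)⁻¹ * aM hgs σ z = z := inv_mul_cancel_right₀ (haz σ) z
      have h2 := congrArg (nrm (tauM hζs) ℓ) h1
      have h3 : nrm (tauM hζs) ℓ (aM hgs σ z) = nrm (tauM hζs) ℓ z := by
        rw [← aM_nrm hgs hζs hζζ, hNz, aM_pol, Polynomial.map_map]
        congr 2
        exact RingHom.ext fun x => σ.commutes x
      rw [nrm_mul, h3] at h2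
      exact mul_eq_right₀ (nrm_ne_zero (hζ := hζs) hz ℓ) |>.mp h2
    · -- the norm of `ρ'` is in `F`
      have h1 : (Algebra.norm (Sep F) ρ') ^ ℓ = algebraMap F (Sep F) r ^ ℓ := by
        rw [← map_pow, hρpow, norm_lamMap (algebraMap F (Sep F)) hgs hf.monic, hr, map_pow]
      have hr0' : algebraMap F (Sep F) r ≠ 0 := by rwa [Ne, map_eq_zero]
      have h2 : (Algebra.norm (Sep F) ρ' / algebraMap F (Sep F) r) ^ ℓ = 1 := by
        rw [div_pow, h1, div_self (pow_ne_zero _ hr0')]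
      obtain ⟨i, -, hi⟩ := hζs.eq_pow_of_pow_eq_one h2
      have h3 : Algebra.norm (Sep F) ρ' = algebraMap F (Sep F) (ζ ^ i * r) := by
        rw [map_mul, map_pow, hζζ, hi, div_mul_cancel₀ _ hr0']
      have h4 := congrArg (Algebra.norm (Sep F)) (hcoc σ)
      have h5 : Algebra.norm (Sep F) (aL hgs σ ρ') = Algebra.norm (Sep F) ρ' := by
        have h6 : Algebra.norm (Sep F) (aL hgs σ ρ') = gr σ (Algebra.norm (Sep F) ρ') :=
          norm_lamMap (gr σ) (map_gal hgs σ) hfs.monic ρ'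
        rw [h6, h3]
        exact σ.commutes _
      rw [map_mul, h5] at h4
      have h7 : Algebra.norm (Sep F) ρ' ≠ 0 := by
        intro h0
        rw [h0, zero_pow hp.out.ne_zero] at h1
        exact pow_ne_zero _ hr0' h1.symm
      exact (mul_eq_right₀ h7).mp h4.symm
  · have h1 : aL hgs σ (redM w) * aL hgs σ ρ' = 1 := by rw [← map_mul, hρu, map_one]
    have h2 := hcoc σ
    calc aL hgs σ (redM w) = aL hgs σ (redM w) * (redM w * ρ') := by rw [hρu, mul_one]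
      _ = (aL hgs σ (redM w) * aL hgs σ ρ') * (e σ * redM w) := by
          conv_lhs => rw [h2]
          ring
      _ = e σ * redM w := by rw [h1, one_mul]
  · rw [← hρpow, ← mul_pow, mul_comm, hρu, one_pow]

end Pool.Agent.MP1bdb59C
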