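import Mathlib
import Pool.Agent.MP1bdb59P.Kum

/-!
# The divisor of a rational point and its Kummer image
-/

open Polynomial Finset Submodule

noncomputable section

open scoped Classical

set_option linter.unusedSectionVars false

namespace Pool.Agent.MP1bdb59C

open Pool.Agent.MP1bdb59 (Sep AbsGal)

universe u

/-- The norm of `a - x`. -/
lemma norm_of_sub_root {F : Type*} [Field F] {g : F[X]} (hg : g.Monic) (a : F) :
    Algebra.norm F (AdjoinRoot.of g a - AdjoinRoot.root g) = g.eval a := by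
  have h1 := charpoly_leftMulMatrix (AdjoinRoot.powerBasis hg.ne_zero)
  have h2 : minpoly F (AdjoinRoot.powerBasis hg.ne_zero).gen = g := by
    rw [AdjoinRoot.powerBasis_gen, AdjoinRoot.minpoly_root hg.ne_zero, hg.leadingCoeff, inv_one,
      C_1, mul_one]
  rw [h2] at h1
  have h4 := congrArg (eval a) h1
  rw [Matrix.eval_charpoly] at h4
  rw [← h4, Algebra.norm_eq_matrix_det (AdjoinRoot.powerBasis hg.ne_zero).basis, map_sub]
  have h3 : AdjoinRoot.of g a = algebraMap F (AdjoinRoot g) a := rfl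
  rw [h3, AlgHom.commutes]
  rfl

section Pt

variable {F : Type u} [Field F] {ℓ : ℕ} [hp : Fact ℓ.Prime] {f : F[X]} [hf : Good ℓ f]
  {ζ : F} (hζ : IsPrimitiveRoot ζ ℓ)

/-- The linear form `ζ^i y - b`. -/
def lin (ζ b : F) (i : ℕ) : CoordRing ℓ f := of f (C (ζ ^ i)) * yy - of f (C b)

/-- the product of the first linear forms. -/
def linP (ζ b : F) (n : ℕ) : CoordRing ℓ f := ∏ i ∈ range n, lin ζ b i

lemma linP_succ (b : F) (n : ℕ) : (linP ζ b (n + 1) : CoordRing ℓ f) = linP ζ b n * lin ζ b n :=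
  Finset.prod_range_succ _ _

include hζ in
lemma isCoprime_lin {b : F} (hb : b ≠ 0) {n : ℕ} (hn : n < ℓ) :
    IsCoprime (linP ζ b n : CoordRing ℓ f) (lin ζ b n) := by
  apply IsCoprime.prod_left
  intro i hi
  have hi' : i < n := Finset.mem_range.mp hi
  have h1 : ζ ^ i - ζ ^ n ≠ 0 := by
    intro h0
    have h2 := hζ.pow_inj (hi'.trans hn) hn (sub_eq_zero.mp h0)
    omega
  have h2 : (b * (ζ ^ i - ζ ^ n)) ≠ 0 := mul_ne_zero hb h1
  obtain ⟨t, ht⟩ : ∃ t, t * (b * (ζ ^ i - ζ ^ n)) = 1 := ⟨_, inv_mul_cancel₀ h2⟩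
  have ht' : (of f (C t) : CoordRing ℓ f) * (of f (C b) * (of f (C (ζ ^ i)) - of f (C (ζ ^ n)))) =
      1 := by
    rw [← map_sub, ← map_mul, ← map_mul, ← C_sub, ← C_mul, ← C_mul, ht, C_1, map_one]
  refine ⟨of f (C t) * of f (C (ζ ^ n)), -(of f (C t) * of f (C (ζ ^ i))), ?_⟩
  unfold lin
  linear_combination ht'

/-- The span of `x - a` and `v`. -/
def ptS (ℓ : ℕ) [Fact ℓ.Prime] {f : F[X]} [Good ℓ f] (a : F) (v : CoordRing ℓ f) :
    Submodule (CoordRing ℓ f) (FF ℓ f) :=
  span _ {pol (X - C a), algebraMap _ (FF ℓ f) v}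

lemma tauS_ptS (a b : F) (n : ℕ) :
    tauS hζ (ptS ℓ (f := f) a (lin ζ b n)) = ptS ℓ a (lin ζ b (n + 1)) := by
  have h1 : ∀ x y : FF ℓ f, tauS hζ (span (CoordRing ℓ f) {x, y}) =
      span _ {tauM hζ x, tauM hζ y} := by
    intro x y
    rw [Submodule.span_insert, Submodule.span_insert]
    change push _ _ = _
    rw [push_sup, push_span_singleton, push_span_singleton]
  unfold ptS
  rw [h1, tauM_pol, tauM_alg]
  congr 3
  unfold lin
  rw [map_sub, map_mul, tau_of, tau_of, tau_yy, ← mul_assoc, ← map_mul, ← C_mul, ← pow_succ]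

lemma tauS_iterate_ptS (a b : F) (n : ℕ) :
    (tauS hζ)^[n] (ptS ℓ (f := f) a (lin ζ b 0)) = ptS ℓ a (lin ζ b n) := by
  induction n with
  | zero => rfl
  | succ n ih => rw [Function.iterate_succ_apply', ih, tauS_ptS]

include hζ in
lemma ptS_mul (a : F) {b : F} (hb : b ≠ 0) {n : ℕ} (hn : n < ℓ) :
    ptS ℓ (f := f) a (linP ζ b n) * ptS ℓ a (lin ζ b n) = ptS ℓ a (linP ζ b (n + 1)) := by
  obtain ⟨s, t, hst⟩ := isCoprime_lin (f := f) hζ hb hn
  set x : FF ℓ f := pol (X - C a) with hx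
  set P : FF ℓ f := algebraMap (CoordRing ℓ f) _ (linP ζ b n) with hP
  set Q : FF ℓ f := algebraMap (CoordRing ℓ f) _ (lin ζ b n) with hQ
  have hPQ : algebraMap (CoordRing ℓ f) (FF ℓ f) (linP ζ b (n + 1)) = P * Q := by
    rw [linP_succ, map_mul]
  unfold ptS
  rw [← hx, ← hP, ← hQ, hPQ]
  have hxm : x ∈ (1 : Submodule (CoordRing ℓ f) (FF ℓ f)) := pol_mem_one _
  have hx' : x ∈ span (CoordRing ℓ f) {x, P * Q} := subset_span (by simp)
  apply le_antisymm
  · rw [span_mul_span, span_le]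
    rintro _ ⟨u, hu, v, hv, rfl⟩
    simp only [Set.mem_insert_iff, Set.mem_singleton_iff] at hu hv
    rcases hu with rfl | rfl <;> rcases hv with rfl | rfl
    · exact mul_mem_of_mem_one hxm hx'
    · change x * Q ∈ _
      have h9 : x * Q = Q * x := mul_comm _ _
      rw [h9]
      exact mul_mem_of_mem_one (alg_mem_one _) hx'
    · exact mul_mem_of_mem_one (alg_mem_one _) hx'
    · exact subset_span (by simp)
  · rw [span_le]
    intro u hu
    simp only [Set.mem_insert_iff, Set.mem_singleton_iff] at hu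
    have m1 : x * Q ∈ span (CoordRing ℓ f) {x, P} * span (CoordRing ℓ f) {x, Q} :=
      Submodule.mul_mem_mul (subset_span (by simp)) (subset_span (by simp))
    have m2 : P * x ∈ span (CoordRing ℓ f) {x, P} * span (CoordRing ℓ f) {x, Q} :=
      Submodule.mul_mem_mul (subset_span (by simp)) (subset_span (by simp))
    rcases hu with rfl | rfl
    · have h1 : algebraMap _ (FF ℓ f) s * P + algebraMap _ (FF ℓ f) t * Q = 1 := by
        rw [hP, hQ, ← map_mul, ← map_mul, ← map_add, hst, map_one]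
      have h2 : x = algebraMap _ (FF ℓ f) s * (P * x) + algebraMap _ (FF ℓ f) t * (x * Q) := by
        linear_combination (-x) * h1
      have h5 := Submodule.add_mem _ (mul_mem_of_mem_one (alg_mem_one s) m2)
        (mul_mem_of_mem_one (alg_mem_one t) m1)
      rwa [← h2] at h5
    · exact Submodule.mul_mem_mul (subset_span (by simp)) (subset_span (by simp))

/-- Evaluation at the point `(a, b)`. -/
def evPt (a b : F) (hab : b ^ ℓ = f.eval a) : CoordRing ℓ f →+* F :=
  AdjoinRoot.lift (evalRingHom a) b (by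
    rw [eval₂_sub, eval₂_pow, eval₂_X, eval₂_C, coe_evalRingHom, hab, sub_self])

lemma evPt_of (a b : F) (hab : b ^ ℓ = f.eval a) (p : F[X]) :
    evPt a b hab (of f p) = p.eval a := AdjoinRoot.lift_of _

lemma evPt_yy (a b : F) (hab : b ^ ℓ = f.eval a) : evPt a b hab yy = b := AdjoinRoot.lift_root _

include hζ in
lemma linP_ell (a b : F) (hab : b ^ ℓ = f.eval a) :
    ∃ p : F[X], (linP ζ b ℓ : CoordRing ℓ f) = of f ((X - C a) * p) := by
  have h1 : ∀ n, (algebraMap (CoordRing ℓ f) (FF ℓ f) (lin ζ b n)) =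
      (tauM hζ)^[n] (algebraMap (CoordRing ℓ f) _ (lin ζ b 0)) := by
    intro n
    induction n with
    | zero => rfl
    | succ n ih =>
      rw [Function.iterate_succ_apply', ← ih, tauM_alg]
      congr 1
      unfold lin
      rw [map_sub, map_mul, tau_of, tau_of, tau_yy, ← mul_assoc, ← map_mul, ← C_mul, ← pow_succ]
  have h2 : algebraMap (CoordRing ℓ f) (FF ℓ f) (linP ζ b ℓ) =
      nrm (tauM hζ) ℓ (algebraMap (CoordRing ℓ f) _ (lin ζ b 0)) := by
    unfold linP nrm
    rw [map_prod]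
    exact Finset.prod_congr rfl fun i _ => h1 i
  have h3 : tauM hζ (algebraMap (CoordRing ℓ f) (FF ℓ f) (linP ζ b ℓ)) =
      algebraMap (CoordRing ℓ f) _ (linP ζ b ℓ) := by
    rw [h2, nrm_tau _ (tauM_iterate_ell hζ _)]
  obtain ⟨q, hq⟩ := tau_fixed_mem_one (hζ := hζ) (alg_mem_one _) h3
  have h4 : (linP ζ b ℓ : CoordRing ℓ f) = of f q := IsFractionRing.injective _ _ hq
  have h5 : q.eval a = 0 := by
    rw [← evPt_of (ℓ := ℓ) a b hab, ← h4]
    unfold linP
    rw [map_prod]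
    apply Finset.prod_eq_zero (Finset.mem_range.mpr hp.out.pos)
    unfold lin
    rw [map_sub, map_mul, evPt_of, evPt_of, evPt_yy, pow_zero, eval_C, eval_C, one_mul, sub_self]
  obtain ⟨p, rfl⟩ := dvd_iff_isRoot.mpr h5
  exact ⟨p, h4⟩

/-- The divisor of the point `(a, b)`. -/
theorem exists_pt (a : F) {b : F} (hb : b ≠ 0) (hab : b ^ ℓ = f.eval a) :
    ∃ D : Dv ℓ f, D.1 = ptS ℓ a (lin ζ b 0) ∧
      nrm (tauU hζ) ℓ D = prin (pol (X - C a)) (pol_ne_zero (X_sub_C_ne_zero a)) := by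
  obtain ⟨D, hD⟩ := exists_unit_of_fg (B := ptS ℓ (f := f) a (lin ζ b 0)) hζ
    (Submodule.fg_span (Set.toFinite _)) (by
      intro h0
      have h1 : (pol (X - C a) : FF ℓ f) ∈ ptS ℓ (f := f) a (lin ζ b 0) :=
        subset_span (by simp)
      rw [h0] at h1
      exact pol_ne_zero (X_sub_C_ne_zero a) ((Submodule.mem_bot _).mp h1))
  refine ⟨D, hD, ?_⟩
  have key : ∀ n ≤ ℓ, (nrm (tauU hζ) n D).1 = ptS ℓ a (linP ζ b n) := by
    intro n
    induction n with
    | zero =>
      intro _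
      have h1 : (linP ζ b 0 : CoordRing ℓ f) = 1 := by
        unfold linP
        rw [Finset.range_zero, Finset.prod_empty]
      have h2 : nrm (tauU hζ) 0 D = 1 := by simp [nrm]
      rw [h1, h2]
      unfold ptS
      rw [map_one]
      apply le_antisymm
      · intro x hx
        have h3 : x = x * 1 := (mul_one x).symm
        rw [h3]
        exact mul_mem_of_mem_one hx (subset_span (by simp))
      · rw [span_le]
        intro x hx
        simp only [Set.mem_insert_iff, Set.mem_singleton_iff] at hx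
        rcases hx with rfl | rfl
        · exact pol_mem_one _
        · exact one_mem_one
    | succ n ih =>
      intro hn
      rw [nrm_succ']
      change (nrm (tauU hζ) n D).1 * ((tauU hζ)^[n] D).1 = _
      rw [ih (by omega), tauU_iterate_val, hD, tauS_iterate_ptS, ptS_mul hζ a hb (by omega)]
  apply Units.ext
  rw [key ℓ le_rfl]
  obtain ⟨p, hp'⟩ := linP_ell (f := f) hζ a b hab
  rw [hp']
  change span _ {_, _} = span _ {_}
  have h1 : algebraMap (CoordRing ℓ f) (FF ℓ f) (of f ((X - C a) * p)) =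
      pol p * pol (X - C a) := by
    rw [← pol_mul, mul_comm]
    rfl
  rw [h1]
  apply le_antisymm
  · rw [span_le]
    intro x hx
    simp only [Set.mem_insert_iff, Set.mem_singleton_iff] at hx
    rcases hx with rfl | rfl
    · exact mem_span_singleton_self _
    · exact mul_mem_of_mem_one (pol_mem_one _) (mem_span_singleton_self _)
  · rw [span_le, Set.singleton_subset_iff]
    exact subset_span (by simp)

end Pt

section Gal

variable {F : Type u} [Field F] {ℓ : ℕ} [hp : Fact ℓ.Prime] {g : F[X]} {gs : (Sep F)[X]}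
  [hf : Good ℓ g] [hfs : Good ℓ gs] (hgs : g.map (algebraMap F (Sep F)) = gs)
  {ζ : F} (hζ : IsPrimitiveRoot ζ ℓ) {ζs : Sep F} (hζs : IsPrimitiveRoot ζs ℓ)
  (hζζ : algebraMap F (Sep F) ζ = ζs)

include hζζ hζs in
/-- The Kummer image of the point `(a, b)` is `(a - x)⁻¹`. -/
theorem exists_kum_pt {a b : F} (hb : b ≠ 0) (hab : b ^ ℓ = g.eval a) :
    ∃ (D : Dv ℓ gs) (B : CommRing.Pic (CoordRing ℓ gs)) (ρ : AdjoinRoot gs)
      (e : AbsGal F → AdjoinRoot gs),
      D.1 = ptS ℓ (algebraMap F (Sep F) a) (lin ζs (algebraMap F (Sep F) b) 0) ∧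
      (∀ σ, aU hgs σ D = D) ∧
      pcl D * tauPic hζs B = B ∧ IsUnit ρ ∧ (∀ σ, IsEps hζs (aP hgs σ B * B⁻¹) (e σ)) ∧
      (∀ σ, aL hgs σ ρ = e σ * ρ) ∧
      lamMap (algebraMap F (Sep F)) hgs (AdjoinRoot.of g a - AdjoinRoot.root g) * ρ ^ ℓ = 1 := by
  have hb' : algebraMap F (Sep F) b ≠ 0 := by rwa [Ne, map_eq_zero]
  have hab' : algebraMap F (Sep F) b ^ ℓ = gs.eval (algebraMap F (Sep F) a) := by
    rw [← hgs, eval_map_apply, ← hab, map_pow]
  obtain ⟨D, hD, hN⟩ := exists_pt (f := gs) hζs (algebraMap F (Sep F) a) hb' hab'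
  have hσ : ∀ σ, aU hgs σ D = D := by
    intro σ
    apply Units.ext
    change push _ D.1 = D.1
    rw [hD]
    unfold ptS
    rw [Submodule.span_insert, push_sup, push_span_singleton, push_span_singleton]
    have h1 : ∀ x : F, gr σ (algebraMap F (Sep F) x) = algebraMap F (Sep F) x := fun x =>
      σ.commutes x
    have h2 : bcM (gr σ) (map_gal hgs σ) (pol (X - C (algebraMap F (Sep F) a)) : FF ℓ gs) =
        pol (X - C (algebraMap F (Sep F) a)) := by
      rw [bcM_pol, Polynomial.map_sub, map_X, map_C, h1]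
    have h3 : bcM (gr σ) (map_gal hgs σ) (algebraMap (CoordRing ℓ gs) (FF ℓ gs)
        (lin ζs (algebraMap F (Sep F) b) 0)) =
        algebraMap (CoordRing ℓ gs) _ (lin ζs (algebraMap F (Sep F) b) 0) := by
      rw [bcM_alg]
      congr 1
      unfold lin
      rw [map_sub, map_mul, coordMap_of, coordMap_of, coordMap_yy, map_C, map_C, pow_zero, map_one,
        h1]
    rw [h2, h3]
  have hD1 : D.1 ≤ 1 := by
    rw [hD]
    unfold ptS
    rw [span_le]
    intro x hx
    simp only [Set.mem_insert_iff, Set.mem_singleton_iff] at hx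
    rcases hx with rfl | rfl
    · exact pol_mem_one _
    · exact alg_mem_one _
  obtain ⟨t, ht⟩ : ∃ t, t * (-algebraMap F (Sep F) b) = 1 :=
    ⟨_, inv_mul_cancel₀ (neg_ne_zero.mpr hb')⟩
  have hd : pol (C t) * algebraMap (CoordRing ℓ gs) (FF ℓ gs)
      (lin ζs (algebraMap F (Sep F) b) 0) ∈ D.1 := by
    rw [hD]
    exact mul_mem_of_mem_one (pol_mem_one _) (subset_span (by simp))
  have hd1 : redM (pol (C t) * algebraMap (CoordRing ℓ gs) (FF ℓ gs)
      (lin ζs (algebraMap F (Sep F) b) 0)) = 1 := by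
    rw [redM_mul (pol_mem_one _) (alg_mem_one _), redM_pol, redM_alg]
    unfold lin
    rw [map_sub, map_mul, red_yy, mul_zero, zero_sub, red_of, ← map_neg, ← map_mul, ← C_neg,
      ← C_mul, ht, C_1, map_one]
  have hq : ((C a - X : F[X])).map (algebraMap F (Sep F)) =
      C (-1) * (X - C (algebraMap F (Sep F) a)) := by
    rw [Polynomial.map_sub, map_X, map_C, C_neg, C_1]
    ring
  have hq0 : (pol ((C a - X : F[X]).map (algebraMap F (Sep F))) : FF ℓ gs) ≠ 0 := by
    rw [hq]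
    exact pol_ne_zero (mul_ne_zero (C_ne_zero.mpr (neg_ne_zero.mpr one_ne_zero))
      (X_sub_C_ne_zero _))
  have hN' : nrm (tauU hζs) ℓ D = prin (pol ((C a - X : F[X]).map (algebraMap F (Sep F)))) hq0 := by
    rw [hN]
    have h1 : (pol (C (-1 : Sep F)) : FF ℓ gs) ≠ 0 :=
      pol_ne_zero (C_ne_zero.mpr (neg_ne_zero.mpr one_ne_zero))
    have h2 : prin (pol (C (-1 : Sep F)) : FF ℓ gs) h1 = 1 :=
      (prin_eq_one_iff h1).mpr ⟨-1, neg_ne_zero.mpr one_ne_zero, rfl⟩
    have h3 : prin (pol ((C a - X : F[X]).map (algebraMap F (Sep F))) : FF ℓ gs) hq0 =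
        prin (pol (C (-1 : Sep F))) h1 * prin (pol (X - C (algebraMap F (Sep F) a)))
          (pol_ne_zero (X_sub_C_ne_zero _)) := by
      rw [prin_mul]
      exact prin_congr (by rw [hq, pol_mul]) _ _
    rw [h3, h2, one_mul]
  have hmk : AdjoinRoot.mk g (C a - X) = AdjoinRoot.of g a - AdjoinRoot.root g := by
    rw [map_sub, AdjoinRoot.mk_C, AdjoinRoot.mk_X]
  obtain ⟨B, ρ, e, h1, h2, h3, h4, h5⟩ := exists_kum hgs hζs hζζ D hD1 hd hd1 hσ hq0 hN' hb (by
    rw [hmk, norm_of_sub_root hf.monic, hab])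
  rw [hmk] at h5
  exact ⟨D, B, ρ, e, hD, hσ, h1, h2, h3, h4, h5⟩

end Gal

end Pool.Agent.MP1bdb59C
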