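import Mathlib
import Pool.Agent.MP1bdb59P.Pt

/-!
# The descent when the Selmer group is generated by the class of a point
-/

open Polynomial Finset

noncomputable section

open scoped Classical

set_option linter.unusedSectionVars false

namespace Pool.Agent.MP1bdb59C

open Pool.Agent.MP1bdb59 (Sep AbsGal emb resGal emb_resGal Place Completion)

universe u v

/-- `ℓ` is a multiple of `1 - τ` if the norm of `τ` vanishes. -/
lemma exists_ell_eq_phi {J : Type*} [AddCommGroup J] {ℓ : ℕ}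
    (τ : AddMonoid.End J) (hN : ∑ i ∈ range ℓ, τ ^ i = 0) :
    ∃ B : AddMonoid.End J, (ℓ : AddMonoid.End J) = (1 - τ) * B ∧
      ∀ a : AddMonoid.End J, Commute a τ → Commute a B := by
  refine ⟨∑ i ∈ range ℓ, ∑ j ∈ range i, τ ^ j, ?_, fun a ha => ?_⟩
  · rw [Finset.mul_sum]
    have h1 : ∀ i ∈ range ℓ, (1 - τ) * ∑ j ∈ range i, τ ^ j = 1 - τ ^ i := fun i _ =>
      mul_neg_geom_sum τ i
    rw [Finset.sum_congr rfl h1, Finset.sum_sub_distrib, hN, sub_zero, Finset.sum_const,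
      Finset.card_range, nsmul_eq_mul, mul_one]
  · exact Commute.sum_right _ _ _ fun i _ => Commute.sum_right _ _ _ fun j _ => ha.pow_right j

section

variable {K : Type v} [Field K] {ℓ : ℕ} [hp : Fact ℓ.Prime] {ζ : K} (hζ : IsPrimitiveRoot ζ ℓ)
  (f : K[X]) [hf : Good ℓ f]

/-- `P = φ(b)`, and the cocycle `σ b - b` corresponds to the class of `μ⁻¹` in `L^* / L^*^ℓ`. -/
def KumData (P : Jac ℓ f K) (μ : AdjoinRoot f) : Prop :=
  ∃ (b : Jac ℓ f K) (ρ : AdjoinRoot (f.map (algebraMap K (Sep K))))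
    (e : AbsGal K → AdjoinRoot (f.map (algebraMap K (Sep K)))),
    b - tauJ f K hζ b = P ∧ IsUnit ρ ∧
    (∀ σ, IsEps (prim_map (Sep K) hζ) (act ℓ f K σ b - b).toMul (e σ)) ∧
    (∀ σ, aL (g := f) rfl σ ρ = e σ * ρ) ∧
    lamMap (algebraMap K (Sep K)) rfl μ * ρ ^ ℓ = 1

/-- The class of the point `(a, b)`. -/
theorem exists_kumData {a b : K} (hb : b ≠ 0) (hab : b ^ ℓ = f.eval a) :
    ∃ D : Dv ℓ (f.map (algebraMap K (Sep K))),
      D.1 = ptS ℓ (algebraMap K (Sep K) a)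
        (lin (algebraMap K (Sep K) ζ) (algebraMap K (Sep K) b) 0) ∧
      (∀ σ, act ℓ f K σ (Additive.ofMul (pcl D)) = Additive.ofMul (pcl D)) ∧
      KumData hζ f (Additive.ofMul (pcl D)) (AdjoinRoot.of f a - AdjoinRoot.root f) := by
  obtain ⟨D, B, ρ, e, h1, h2, h3, h4, h5, h6, h7⟩ :=
    exists_kum_pt (g := f) (gs := f.map (algebraMap K (Sep K))) rfl (prim_map (Sep K) hζ) rfl hb hab
  refine ⟨D, h1, fun σ => ?_, Additive.ofMul B, ρ, e, ?_, h4, fun σ => ?_, h6, h7⟩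
  · apply Additive.toMul.injective
    rw [act_eq']
    change aP _ σ (pcl D) = pcl D
    rw [aP_pcl, h2]
  · rw [sub_eq_iff_eq_add]
    exact h3.symm
  · rw [toMul_sub, act_eq', div_eq_mul_inv]
    exact h5 σ

variable {f}

/-- Rational classes fixed by `τ` are trivial. -/
lemma eq_zero_of_tau_fixed (hirr : Irreducible f) {t : Jac ℓ f K} (ht : ∀ σ, act ℓ f K σ t = t)
    (hτ : tauJ f K hζ t = t) : t = 0 := by
  have i0 := Fact.mk hirr
  have hsc : IsSepClosed (Sep K) := (inferInstance : IsSepClosed (SeparableClosure K))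
  obtain ⟨e, he⟩ := exists_isEps (hζ := prim_map (Sep K) hζ) (congrArg Additive.toMul hτ)
  have hfix : ∀ σ, aL (g := f) rfl σ e = e := by
    intro σ
    have h1 := he.gal (g := f) rfl (prim_map (Sep K) hζ) rfl σ
    rw [← act_eq', ht σ] at h1
    exact h1.unique he
  obtain ⟨x, hx⟩ := exists_lam_of_fixed ℓ (g := f) rfl hfix
  have h2 : x ^ ℓ = 1 := by
    apply lamMap_injective (algebraMap K (Sep K)) rfl hf.monic
    rw [map_pow, map_one, hx, he.pow]
  have hζL : IsPrimitiveRoot (AdjoinRoot.of f ζ) ℓ := hζ.map_of_injective (AdjoinRoot.of f).injective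
  obtain ⟨i, -, hi⟩ := hζL.eq_pow_of_pow_eq_one h2
  rw [← map_pow] at hi
  have h3 : (ζ ^ i) ^ f.natDegree = 1 := by
    have h4 := he.norm
    rw [← hx, norm_lamMap (algebraMap K (Sep K)) rfl hf.monic, ← hi, norm_of hf.monic] at h4
    apply (algebraMap K (Sep K)).injective
    rw [h4, map_one]
  have h5 : (ζ ^ i) ^ ℓ = 1 := by rw [← pow_mul, mul_comm, pow_mul, hζ.pow_eq_one, one_pow]
  have h6 := eq_one_of_pow (ℓ := ℓ) (f := f) h5 h3
  rw [h6, map_one] at hi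
  rw [← hi, map_one] at hx
  rw [← hx] at he
  exact congrArg Additive.ofMul he.eq_one

/-- If the point is divisible by `φ` then its class is an `ℓ`-th power. -/
lemma KumData.isPow {P : Jac ℓ f K} {μ : AdjoinRoot f} (h : KumData hζ f P μ) {s : Jac ℓ f K}
    (hs : ∀ σ, act ℓ f K σ s = s) (hsP : s - tauJ f K hζ s = P) : ∃ z, μ = z ^ ℓ := by
  have hsc : IsSepClosed (Sep K) := (inferInstance : IsSepClosed (SeparableClosure K))
  obtain ⟨b, ρ, e, h1, h2, h3, h4, h5⟩ := h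
  have hτ : tauJ f K hζ (b - s) = b - s := by
    rw [map_sub]
    have h6 : b - tauJ f K hζ b = s - tauJ f K hζ s := h1.trans hsP.symm
    rw [sub_eq_sub_iff_add_eq_add] at h6 ⊢
    rw [add_comm (tauJ f K hζ b) s, ← h6, add_comm]
  obtain ⟨e₀, he₀⟩ := exists_isEps (hζ := prim_map (Sep K) hζ) (congrArg Additive.toMul hτ)
  obtain ⟨e₁, h6, h7⟩ := he₀.exists_inv
  have h8 : ∀ σ, e σ = aL (g := f) rfl σ e₀ * e₁ := by
    intro σ
    have h9 := (he₀.gal (g := f) rfl (prim_map (Sep K) hζ) rfl σ).mul h7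
    have h10 : aP (g := f) rfl σ (b - s).toMul * ((b - s).toMul)⁻¹ =
        (act ℓ f K σ b - b).toMul := by
      rw [← act_eq', ← div_eq_mul_inv, ← toMul_sub, map_sub (act ℓ f K σ), hs σ]
      congr 1
      abel
    rw [h10] at h9
    exact (h3 σ).unique h9
  have h11 : ∀ σ, aL (g := f) rfl σ (ρ * e₁) = ρ * e₁ := by
    intro σ
    have h12 : aL (g := f) rfl σ e₀ * aL (g := f) rfl σ e₁ = 1 := by rw [← map_mul, h6, map_one]
    rw [map_mul, h4, h8]
    linear_combination (ρ * e₁) * h12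
  obtain ⟨y, hy⟩ := exists_lam_of_fixed ℓ (g := f) rfl h11
  have h13 : e₁ ^ ℓ = 1 := h7.pow
  have h14 : μ * y ^ ℓ = 1 := by
    apply lamMap_injective (algebraMap K (Sep K)) rfl hf.monic
    rw [map_mul, map_pow, hy, mul_pow, h13, mul_one, h5, map_one]
  have h15 : IsUnit (y ^ ℓ) := IsUnit.of_mul_eq_one _ (by rw [mul_comm]; exact h14)
  obtain ⟨y', hy'⟩ := ((isUnit_pow_iff hp.out.ne_zero).mp h15).exists_right_inv
  refine ⟨y', ?_⟩
  calc μ = μ * (y * y') ^ ℓ := by rw [hy', one_pow, mul_one]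
    _ = (μ * y ^ ℓ) * y' ^ ℓ := by rw [mul_pow]; ring
    _ = y' ^ ℓ := by rw [h14, one_mul]

lemma phi_pow_rat (n : ℕ) : ∀ {t : Jac ℓ f K}, (∀ σ, act ℓ f K σ t = t) →
    (∀ t : Jac ℓ f K, (∀ σ, act ℓ f K σ t = t) → t - tauJ f K hζ t = 0 → t = 0) →
    ((1 - tauJ f K hζ) ^ n : AddMonoid.End (Jac ℓ f K)) t = 0 → t = 0 := by
  induction n with
  | zero => intro t _ _ h; exact h
  | succ n ih =>
    intro t ht H h
    rw [end_pow_succ_apply] at h
    exact H t ht (ih (fun σ => by rw [map_sub, act_tauJ, ht]) H h)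

include hζ in
/-- There is no rational class of order `ℓ`. -/
lemma eq_zero_of_ell (hirr : Irreducible f) {t : Jac ℓ f K} (ht : ∀ σ, act ℓ f K σ t = t)
    (hℓt : ℓ • t = 0) : t = 0 := by
  obtain ⟨B, hB, -⟩ := exists_phi_pow_eq (tauJ f K hζ) (sum_tauJ f K hζ)
  apply phi_pow_rat hζ (ℓ - 1) ht
  · intro t ht h
    exact eq_zero_of_tau_fixed hζ hirr ht (sub_eq_zero.mp h).symm
  · rw [hB, end_natCast_mul_apply', hℓt, map_zero]

/-- A point not divisible by `φ` has infinite order. -/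
lemma nsmul_ne_zero_of_not_phi (hirr : Irreducible f) {P : Jac ℓ f K}
    (hP : ∀ σ, act ℓ f K σ P = P)
    (hndiv : ∀ s : Jac ℓ f K, (∀ σ, act ℓ f K σ s = s) → s - tauJ f K hζ s ≠ P) {n : ℕ}
    (hn : n ≠ 0) : n • P ≠ 0 := by
  obtain ⟨B, hB, hB'⟩ := exists_ell_eq_phi (tauJ f K hζ) (sum_tauJ f K hζ)
  have hBact : ∀ σ t, act ℓ f K σ (B t) = B (act ℓ f K σ t) := fun σ t =>
    DFunLike.congr_fun (hB' (show AddMonoid.End (Jac ℓ f K) from act ℓ f K σ)
      (DFunLike.ext _ _ fun t => act_tauJ f K hζ σ t)) t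
  induction n using Nat.strong_induction_on with
  | _ n ih =>
    intro h0
    by_cases hd : ℓ ∣ n
    · obtain ⟨m, rfl⟩ := hd
      have hm : m ≠ 0 := by
        rintro rfl
        exact hn (mul_zero _)
      apply ih m ?_ hm
      · apply eq_zero_of_ell hζ hirr (fun σ => by rw [map_nsmul, hP])
        rw [← mul_nsmul', h0]
      · exact lt_mul_of_one_lt_left (Nat.pos_of_ne_zero hm) hp.out.one_lt
    · have hcop : IsCoprime (n : ℤ) (ℓ : ℤ) := by
        rw [Nat.isCoprime_iff_coprime]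
        exact ((Nat.Prime.coprime_iff_not_dvd hp.out).mpr hd).symm
      obtain ⟨u, v, huv⟩ := hcop
      have h1 : P = ℓ • (v • P) := by
        calc P = (u * n + v * ℓ : ℤ) • P := by rw [huv, one_smul]
          _ = u • (n • P) + ℓ • (v • P) := by
              rw [add_smul, mul_smul, mul_comm v, mul_smul, natCast_zsmul, natCast_zsmul]
          _ = ℓ • (v • P) := by rw [h0, smul_zero, zero_add]
      apply hndiv (B (v • P)) (fun σ => by rw [hBact, map_zsmul, hP])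
      have h2 := DFunLike.congr_fun hB (v • P)
      have h3 : ((ℓ : AddMonoid.End (Jac ℓ f K)) : AddMonoid.End (Jac ℓ f K)) (v • P) =
          ℓ • (v • P) := by
        have := end_natCast_mul_apply (1 : AddMonoid.End (Jac ℓ f K)) ℓ (v • P)
        rwa [mul_one] at this
      rw [h3, ← h1] at h2
      exact h2.symm

end

section

variable (k : Type u) {K : Type v} [Field k] [Field K] [Algebra k K] {ℓ : ℕ}
    [hp : Fact ℓ.Prime] {ζ : K} (hζ : IsPrimitiveRoot ζ ℓ) (f : K[X]) [hf : Good ℓ f]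

/-- The main step. -/
def CoreP (P : Jac ℓ f K) : Prop := ∀ c : AbsGal K → Jac ℓ f K, ShaC k f c →
  (∀ σ, tauJ f K hζ (c σ) = c σ) →
  ∃ (t : Jac ℓ f K) (i : ℕ), t - tauJ f K hζ t = -(i • P) ∧ ∀ σ, c σ = act ℓ f K σ t - t

theorem coreP {P : Jac ℓ f K} {μ : AdjoinRoot f} (hP : KumData hζ f P μ) (hirr : Irreducible f)
    (hsel : ∀ m : AdjoinRoot f, IsUnit m → (∃ r : K, Algebra.norm K m = r ^ ℓ) →
      (∀ v : Place k K, LocCond hζ (Completion v) m) → ∃ (i : ℕ) (l : AdjoinRoot f),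
        m = μ ^ i * l ^ ℓ) : CoreP k hζ f P := by
  intro c hc hτ
  obtain ⟨b, ρP, eP, hb, hρP, heP, hρP1, hρP2⟩ := hP
  have hζs := prim_map (Sep K) hζ
  -- the cocycle `eps`
  have hex : ∀ t : Jac ℓ f K, tauJ f K hζ t = t →
      ∃ e, IsEps (prim_map (Sep K) hζ) t.toMul e := fun t ht =>
    exists_isEps (congrArg Additive.toMul ht)
  let E : Jac ℓ f K → AdjoinRoot (f.map (algebraMap K (Sep K))) := fun t =>
    if h : tauJ f K hζ t = t then (hex t h).choose else 1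
  have hE : ∀ t, tauJ f K hζ t = t → IsEps (prim_map (Sep K) hζ) t.toMul (E t) := by
    intro t ht
    have h1 : E t = (hex t ht).choose := dif_pos ht
    rw [h1]
    exact (hex t ht).choose_spec
  let eps : AbsGal K → AdjoinRoot (f.map (algebraMap K (Sep K))) := fun σ => E (c σ)
  have heps : ∀ σ, IsEps (prim_map (Sep K) hζ) (c σ).toMul (eps σ) := fun σ => hE _ (hτ σ)
  have hlc : IsLocallyConstant eps := hc.1.1.comp E
  have hcoc : ∀ σ ρ, eps (σ * ρ) = eps σ * aL (g := f) rfl σ (eps ρ) := by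
    intro σ ρ
    have h1 := (heps σ).mul ((heps ρ).gal (g := f) rfl (prim_map (Sep K) hζ) rfl σ)
    have h2 := congrArg Additive.toMul (hc.1.2 σ ρ)
    rw [toMul_add, act_eq'] at h2
    rw [← h2] at h1
    exact (heps (σ * ρ)).unique h1
  obtain ⟨ρ, m, hρ, hmu, hρ1, hm⟩ := hilbert90_lam (g := f) rfl hirr eps hlc hcoc
    (fun σ => (heps σ).pow)
  have hN : ∀ σ, Algebra.norm (Sep K) (eps σ) = 1 := fun σ => (heps σ).norm
  obtain ⟨i, y, hy⟩ := hsel m hmu (exists_norm_pow (g := f) rfl hρ1 hN hm) (fun v => by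
    obtain ⟨R, hR⟩ := hc.2 v
    exact locCond_of_local (Completion v) hζ c eps heps ρ hρ hρ1 m hm R hR)
  -- the modified cocycle
  have hρ2 : ∀ σ, aL (g := f) rfl σ (ρ * ρP ^ i) = (eps σ * eP σ ^ i) * (ρ * ρP ^ i) := by
    intro σ
    rw [map_mul, map_pow, hρ1, hρP1, mul_pow]
    ring
  have hyu : IsUnit (y ^ ℓ) := by
    rw [hy] at hmu
    exact isUnit_of_mul_isUnit_right hmu
  obtain ⟨η, h1, h2, h3⟩ := exists_eta (g := f) rfl (prim_map (Sep K) hζ) rfl hρ2 hyu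
    (m := y ^ ℓ) (by
      rw [mul_pow, ← hm, hy, map_mul, map_pow, map_pow, ← pow_mul, mul_comm i ℓ, pow_mul]
      have h4 : lamMap (algebraMap K (Sep K)) (rfl : f.map (algebraMap K (Sep K)) = _) μ ^ i *
          (ρP ^ ℓ) ^ i = 1 := by rw [← mul_pow, hρP2, one_pow]
      linear_combination (-lamMap (algebraMap K (Sep K)) (rfl : f.map (algebraMap K (Sep K)) = _) y ^ ℓ) * h4)
    rfl
  have heps' : ∀ σ, IsEps (prim_map (Sep K) hζ) (c σ + i • (act ℓ f K σ b - b)).toMul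
      (eps σ * eP σ ^ i) := by
    intro σ
    have h4 : ∀ n : ℕ, IsEps (prim_map (Sep K) hζ) (n • (act ℓ f K σ b - b)).toMul (eP σ ^ n) := by
      intro n
      induction n with
      | zero =>
        rw [zero_smul, pow_zero]
        exact IsEps.one
      | succ n ih =>
        rw [succ_nsmul, pow_succ]
        exact ih.mul (heP σ)
    exact (heps σ).mul (h4 i)
  obtain ⟨t, ht, ht'⟩ := exists_bdry (g := f) rfl (prim_map (Sep K) hζ) rfl heps' h1 h2 h3
  have ht1 : ∀ σ, c σ + i • (act ℓ f K σ b - b) =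
      act ℓ f K σ (Additive.ofMul t) - Additive.ofMul t := by
    intro σ
    apply Additive.toMul.injective
    rw [ht' σ, toMul_sub, act_eq', div_eq_mul_inv]
    rfl
  have ht2 : tauJ f K hζ (Additive.ofMul t) = Additive.ofMul t := ht
  refine ⟨Additive.ofMul t - i • b, i, ?_, fun σ => ?_⟩
  · rw [map_sub, map_nsmul, ht2, ← hb, smul_sub]
    abel
  · have h5 : c σ = act ℓ f K σ (Additive.ofMul t) - Additive.ofMul t -
        i • (act ℓ f K σ b - b) := by
      rw [← ht1 σ]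
      abel
    rw [map_sub, map_nsmul, h5, smul_sub]
    abel

variable {k f} {hζ}

lemma CoreP.step {P : Jac ℓ f K} (H : CoreP k hζ f P) {c : AbsGal K → Jac ℓ f K}
    (hc : ShaC k f c)
    (h : ∃ Q : Jac ℓ f K, ∀ σ, c σ - tauJ f K hζ (c σ) = act ℓ f K σ Q - Q) :
    ∃ Q : Jac ℓ f K, ∀ σ, c σ = act ℓ f K σ Q - Q := by
  obtain ⟨Q, hQ⟩ := h
  obtain ⟨b, hb⟩ := exists_phi f K hζ Q
  obtain ⟨t, -, -, ht⟩ := H (fun σ => c σ - (act ℓ f K σ b - b)) (hc.sub (ShaC.bdry b))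
    (fun σ => by
      have h1 := hQ σ
      rw [← hb, map_sub, act_tauJ] at h1
      rw [map_sub, map_sub]
      have h2 : tauJ f K hζ (c σ) = c σ - (act ℓ f K σ b - tauJ f K hζ (act ℓ f K σ b) -
        (b - tauJ f K hζ b)) := by rw [← h1]; abel
      rw [h2]
      abel)
  refine ⟨t + b, fun σ => ?_⟩
  have h1 := ht σ
  rw [map_add, sub_eq_iff_eq_add.mp h1]
  abel

lemma CoreP.steps {P : Jac ℓ f K} (H : CoreP k hζ f P) (n : ℕ) :
    ∀ {c : AbsGal K → Jac ℓ f K}, ShaC k f c →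
    (∃ Q : Jac ℓ f K, ∀ σ, ((1 - tauJ f K hζ) ^ n : AddMonoid.End (Jac ℓ f K)) (c σ) =
      act ℓ f K σ Q - Q) → ∃ Q : Jac ℓ f K, ∀ σ, c σ = act ℓ f K σ Q - Q := by
  induction n with
  | zero => intro c _ h; exact h
  | succ n ih =>
    intro c hc h
    apply H.step hc
    apply ih (hc.sub (hc.tau hζ))
    obtain ⟨Q, hQ⟩ := h
    exact ⟨Q, fun σ => by rw [← hQ, end_pow_succ_apply]⟩

lemma CoreP.torsion {P : Jac ℓ f K} (H : CoreP k hζ f P) {c : AbsGal K → Jac ℓ f K}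
    (hc : ShaC k f c)
    (h : ∃ Q : Jac ℓ f K, ∀ σ, ℓ • c σ = act ℓ f K σ Q - Q) :
    ∃ Q : Jac ℓ f K, ∀ σ, c σ = act ℓ f K σ Q - Q := by
  obtain ⟨B, hB, hB'⟩ := exists_phi_pow_eq (tauJ f K hζ) (sum_tauJ f K hζ)
  have hBact : ∀ σ t, act ℓ f K σ (B t) = B (act ℓ f K σ t) := fun σ t =>
    DFunLike.congr_fun (hB' (show AddMonoid.End (Jac ℓ f K) from act ℓ f K σ)
      (DFunLike.ext _ _ fun t => act_tauJ f K hζ σ t)) t
  apply H.steps (ℓ - 1) hc
  obtain ⟨Q, hQ⟩ := h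
  exact ⟨B Q, fun σ => by rw [hBact, ← map_sub, ← hQ, hB, end_natCast_mul_apply']⟩

lemma CoreP.gen {P : Jac ℓ f K} (H : CoreP k hζ f P) (t : Jac ℓ f K)
    (ht : ∀ σ, act ℓ f K σ t = t) :
    ∃ (s : Jac ℓ f K) (i : ℕ), (∀ σ, act ℓ f K σ s = s) ∧ t + i • P = s - tauJ f K hζ s := by
  obtain ⟨b, hb⟩ := exists_phi f K hζ t
  obtain ⟨t', i, ht1, ht'⟩ := H (fun σ => act ℓ f K σ b - b) (ShaC.bdry b) (fun σ => by
    have h1 := ht σ
    rw [← hb, map_sub, act_tauJ] at h1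
    have h2 : tauJ f K hζ (act ℓ f K σ b) = act ℓ f K σ b - (b - tauJ f K hζ b) := by
      rw [← h1]; abel
    rw [map_sub, h2]
    abel)
  refine ⟨b - t', i, fun σ => ?_, ?_⟩
  · have h1 := ht' σ
    rw [map_sub, sub_eq_sub_iff_sub_eq_sub]
    exact h1
  · rw [map_sub]
    have h2 : b - t' - (tauJ f K hζ b - tauJ f K hζ t') =
        (b - tauJ f K hζ b) - (t' - tauJ f K hζ t') := by abel
    rw [h2, hb, ht1, sub_neg_eq_add]

theorem CoreP.sha {P : Jac ℓ f K} (H : CoreP k hζ f P) : ∀ ξ ∈ Sha k ℓ f, ℓ • ξ = 0 → ξ = 0 := by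
  rintro ξ ⟨⟨c, hc, rfl⟩, hloc⟩ hℓ
  rw [cls_eq_zero_iff]
  have hS : ShaC k f c := by
    refine ⟨hc, fun v => ?_⟩
    have h1 : cls ℓ f K c ∈ (res ℓ f (Completion v)).ker := AddSubgroup.mem_iInf.mp hloc v
    rwa [AddMonoidHom.mem_ker, res_cls, cls_eq_zero_iff] at h1
  apply H.torsion hS
  have h2 : cls ℓ f K (ℓ • c) = 0 := by
    rw [← hℓ]
    rfl
  rw [cls_eq_zero_iff] at h2
  exact h2

end

end Pool.Agent.MP1bdb59C
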