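import Mathlib
import Pool.Agent.MP1bdb59C.Spec
import Pool.Agent.MP1bdb59C.LocSel

/-!
# Unramifiedness, and the norm condition at a prime
-/

open Polynomial IsDedekindDomain

noncomputable section

open scoped Classical WithZero

namespace Pool.Agent.MP1bdb59C

section Unr

variable {A : Type*} [CommRing A] {f : A[X]}

lemma mem_span_of_lamMap {κ : Type*} [CommRing κ] (σ : A →+* κ) (hσ : Function.Surjective σ)
    {D : A} (hD : RingHom.ker σ = Ideal.span {D}) {y : AdjoinRoot f}
    (hy : lamMap σ (rfl : f.map σ = f.map σ) y = 0) : y ∈ Ideal.span {AdjoinRoot.of f D} := by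
  obtain ⟨q, rfl⟩ := AdjoinRoot.mk_surjective y
  rw [lamMap_mk, AdjoinRoot.mk_eq_zero] at hy
  obtain ⟨h, hh⟩ := hy
  obtain ⟨h', rfl⟩ := Polynomial.map_surjective σ hσ h
  rw [← Polynomial.map_mul] at hh
  have h1 : (q - f * h').map σ = 0 := by rw [Polynomial.map_sub, hh, sub_self]
  have h2 : C D ∣ q - f * h' := by
    rw [C_dvd_iff_dvd_coeff]
    intro i
    have h3 : σ ((q - f * h').coeff i) = 0 := by
      rw [← coeff_map, h1, coeff_zero]
    have h4 : (q - f * h').coeff i ∈ RingHom.ker σ := h3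
    rw [hD] at h4
    exact Ideal.mem_span_singleton.mp h4
  obtain ⟨r, hr⟩ := h2
  rw [Ideal.mem_span_singleton]
  refine ⟨AdjoinRoot.mk f r, ?_⟩
  have h5 : q = f * h' + C D * r := by rw [← hr]; ring
  rw [h5, map_add, map_mul, map_mul, AdjoinRoot.mk_self, zero_mul, zero_add, AdjoinRoot.mk_C]

lemma mem_of_sq_mem (hsep : f.Separable) {D : A} (hD : (Ideal.span {D}).IsMaximal)
    {y : AdjoinRoot f} (hy : y ^ 2 ∈ Ideal.span {AdjoinRoot.of f D}) :
    y ∈ Ideal.span {AdjoinRoot.of f D} := by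
  let _ : Field (A ⧸ Ideal.span {D}) := Ideal.Quotient.field _
  set σ : A →+* A ⧸ Ideal.span {D} := Ideal.Quotient.mk _ with hσ
  apply mem_span_of_lamMap σ Ideal.Quotient.mk_surjective (Ideal.mk_ker)
  obtain ⟨z, hz⟩ := Ideal.mem_span_singleton.mp hy
  have hσD : σ D = 0 := Ideal.Quotient.eq_zero_iff_mem.mpr (Ideal.mem_span_singleton_self D)
  obtain ⟨q, rfl⟩ := AdjoinRoot.mk_surjective y
  have h1 := congrArg (lamMap σ (rfl : f.map σ = f.map σ)) hz
  rw [map_mul, lamMap_of', hσD, map_zero, zero_mul, map_pow, lamMap_mk, ← map_pow,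
    AdjoinRoot.mk_eq_zero] at h1
  have h2 : Squarefree (f.map σ) := hsep.map.squarefree
  rw [h2.dvd_pow_iff_dvd two_ne_zero] at h1
  rw [lamMap_mk, AdjoinRoot.mk_eq_zero]
  exact h1

lemma ideal_sq {R : Type*} [CommRing R] (P J S : Ideal R) (hJ : S = P ^ 2 * J) :
    (P * J) ^ 2 = S * J := by
  rw [hJ, mul_pow, pow_two J, mul_assoc]

lemma ideal_sq' {R : Type*} [CommRing R] (P J S c : Ideal R) (hJ : S = P ^ 2 * J)
    (hc : P * J = S * c) : S * 1 = S * (P * c) := by
  rw [mul_one]
  calc S = P * (P * J) := by rw [hJ, pow_two, mul_assoc]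
    _ = P * (S * c) := by rw [← hc]
    _ = _ := by rw [mul_left_comm]

theorem notMem_sq' {R : Type*} [CommRing R] [IsDedekindDomain R] {D : R}
    (hsq : ∀ y : R, y ^ 2 ∈ Ideal.span {D} → y ∈ Ideal.span {D}) (hD0 : D ≠ 0) {P : Ideal R}
    [hP : P.IsPrime] : D ∉ P ^ 2 := by
  intro hmem
  have h1 : P ^ 2 ∣ Ideal.span {D} := by
    rw [Ideal.dvd_span_singleton]
    exact hmem
  obtain ⟨J, hJ⟩ := h1
  have hD0' : Ideal.span {D} ≠ 0 := by
    rw [Ideal.zero_eq_bot, Ne, Ideal.span_singleton_eq_bot]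
    exact hD0
  have h2 : P * J ≤ Ideal.span {D} := by
    intro x hx
    apply hsq
    have h3 : x ^ 2 ∈ (P * J) ^ 2 := Ideal.pow_mem_pow hx 2
    rw [ideal_sq P J _ hJ] at h3
    exact (Ideal.mul_le_inf h3).1
  obtain ⟨c, hc⟩ := Ideal.dvd_iff_le.mpr h2
  have h5 := mul_left_cancel₀ hD0' (ideal_sq' P J _ c hJ hc)
  have h6 : P ∣ 1 := ⟨c, h5⟩
  rw [Ideal.dvd_iff_le, Ideal.one_eq_top, top_le_iff] at h6
  exact hP.ne_top h6

/-- A prime of `A[x]/(f)` above `D` is unramified. -/
theorem notMem_sq [IsDedekindDomain (AdjoinRoot f)] (hsep : f.Separable) {D : A}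
    (hD : (Ideal.span {D}).IsMaximal) (hD0 : AdjoinRoot.of f D ≠ 0) {P : Ideal (AdjoinRoot f)}
    [hP : P.IsPrime] : AdjoinRoot.of f D ∉ P ^ 2 :=
  notMem_sq' (fun _ hy => mem_of_sq_mem hsep hD hy) hD0

end Unr

section Norm

variable {A K O L : Type*} [CommRing A] [IsDedekindDomain A] [Field K] [Algebra A K]
  [IsFractionRing A K] [CommRing O] [IsDedekindDomain O] [Algebra A O] [Algebra.IsIntegral A O]
  [Field L] [Algebra K L] [FiniteDimensional K L] [Algebra A L]
  [IsScalarTower A K L] [Algebra O L] [IsFractionRing O L] [IsScalarTower A O L]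

include A in
/-- The norm of a unit is a unit. -/
lemma val_norm_unit (p : HeightOneSpectrum A) (u : Oˣ) :
    p.valuation K (Algebra.norm K (algebraMap O L u)) = 1 := by
  have hle : ∀ x : O, p.valuation K (Algebra.norm K (algebraMap O L x)) ≤ 1 := by
    intro x
    have h1 : IsIntegral A (Algebra.norm K (algebraMap O L x)) :=
      Algebra.isIntegral_norm K (Algebra.IsIntegral.isIntegral x).algebraMap
    obtain ⟨d, hd⟩ := IsIntegrallyClosed.isIntegral_iff.mp h1
    rw [← hd]
    exact p.valuation_le_one d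
  have h1 : p.valuation K (Algebra.norm K (algebraMap O L u)) *
      p.valuation K (Algebra.norm K (algebraMap O L ((u⁻¹ : Oˣ) : O))) = 1 := by
    rw [← map_mul, ← map_mul, ← map_mul, Units.mul_inv, map_one, map_one, map_one]
  apply le_antisymm (hle u)
  rw [← h1]
  exact mul_le_of_le_one_right' (hle _)

end Norm

section Split

variable {K : Type*} [Field K] {A : Type*} [CommRing A]
  [IsDedekindDomain A] [Algebra A K] [IsFractionRing A K] {ℓ : ℕ} [hp : Fact ℓ.Prime]
  {f : A[X]} [hirr : Fact (Irreducible (f.map (algebraMap A K)))]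
  [IsDedekindDomain (AdjoinRoot f)] [Algebra (AdjoinRoot f) (AdjoinRoot (f.map (algebraMap A K)))]
  [IsFractionRing (AdjoinRoot f) (AdjoinRoot (f.map (algebraMap A K)))]
  [IsScalarTower A (AdjoinRoot f) (AdjoinRoot (f.map (algebraMap A K)))]
  (halg : ∀ x, algebraMap (AdjoinRoot f) (AdjoinRoot (f.map (algebraMap A K))) x =
    lamMap (algebraMap A K) rfl x)
  (hf : f.Monic) (hsep : f.Separable)

include halg hf hsep in
/-- The norm condition at a prime `p`: if all valuations above `p` but one are `ℓ`-th powers,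
then so is the last one, at `P`, if `P` has residue degree one. -/
theorem isPow_split (p : HeightOneSpectrum A)
    (m : AdjoinRoot (f.map (algebraMap A K))) (hm : m ≠ 0) {r : K}
    (hr : Algebra.norm K m = r ^ ℓ)
    (P : HeightOneSpectrum (AdjoinRoot f)) {x : AdjoinRoot (f.map (algebraMap A K))}
    (hPx : P.valuation (AdjoinRoot (f.map (algebraMap A K))) x = WithZero.exp (-1 : ℤ))
    (hx : ∀ Q : HeightOneSpectrum (AdjoinRoot f), Q.asIdeal.LiesOver p.asIdeal → Q ≠ P →
      Q.valuation (AdjoinRoot (f.map (algebraMap A K))) x = 1)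
    (hNx : p.valuation K (Algebra.norm K x) = WithZero.exp (-1 : ℤ))
    (hQ : ∀ Q : HeightOneSpectrum (AdjoinRoot f), Q.asIdeal.LiesOver p.asIdeal → Q ≠ P →
      ∃ t : ℤᵐ⁰, Q.valuation (AdjoinRoot (f.map (algebraMap A K))) m = t ^ ℓ) :
    ∃ t : ℤᵐ⁰, P.valuation (AdjoinRoot (f.map (algebraMap A K))) m = t ^ ℓ := by
  have hℓ := hp.out
  have hle := p.asIdeal.primeCompl_le_nonZeroDivisors
  set A' := Localization.subalgebra.ofField K p.asIdeal.primeCompl hle with hA'
  have i1 : IsLocalization.AtPrime A' p.asIdeal :=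
    inferInstanceAs (IsLocalization p.asIdeal.primeCompl A')
  have i2 : IsFractionRing A' K := inferInstance
  have i3 : IsScalarTower A A' K := inferInstance
  have i4 : IsDiscreteValuationRing A' :=
    IsLocalization.AtPrime.isDiscreteValuationRing_of_dedekind_domain A p.ne_bot A'
  -- the polynomial over `A'`
  obtain ⟨F, hF⟩ : ∃ F, F = f.map (algebraMap A A') := ⟨_, rfl⟩
  have hFm : F.Monic := by rw [hF]; exact hf.map _
  have hFK : F.map (algebraMap A' K) = f.map (algebraMap A K) := by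
    rw [hF, Polynomial.map_map, ← IsScalarTower.algebraMap_eq]
  have hFded : IsDedekindDomain (AdjoinRoot F) :=
    isDedekind_adjoinRoot K hFm (by rw [hF]; exact hsep.map) (by rw [hFK]; exact hirr.out)
  have j1 : Module.Finite A' (AdjoinRoot F) := (AdjoinRoot.powerBasis' hFm).finite
  have j2 : Module.Free A' (AdjoinRoot F) := Module.Free.of_basis (AdjoinRoot.powerBasis' hFm).basis
  have j3 : Module.IsTorsionFree A' (AdjoinRoot F) := inferInstance
  have hFpid : IsPrincipalIdealRing (AdjoinRoot F) := isPrincipal_of_semilocal (A := A')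
  let l1 : Algebra (AdjoinRoot F) (AdjoinRoot (f.map (algebraMap A K))) :=
    (lamMap (algebraMap A' K) hFK).toAlgebra
  have l2 : IsFractionRing (AdjoinRoot F) (AdjoinRoot (f.map (algebraMap A K))) :=
    isFractionRing_adjoinRoot hFK hFm hirr.out (fun _ => rfl)
  have l3 : IsScalarTower A' (AdjoinRoot F) (AdjoinRoot (f.map (algebraMap A K))) := by
    apply IsScalarTower.of_algebraMap_eq
    intro a
    change AdjoinRoot.of _ (algebraMap A' K a) = lamMap (algebraMap A' K) hFK (AdjoinRoot.of F a)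
    rw [lamMap_of']
  have l4 : Algebra.IsIntegral A' (AdjoinRoot F) := inferInstance
  have hfKm : (f.map (algebraMap A K)).Monic := hf.map _
  have l7 : FiniteDimensional K (AdjoinRoot (f.map (algebraMap A K))) :=
    (AdjoinRoot.powerBasis' hfKm).finite
  -- the algebra `A[x]/(f) → A'[x]/(f)`
  let l8 : Algebra (AdjoinRoot f) (AdjoinRoot F) := (lamMap (algebraMap A A') hF.symm).toAlgebra
  have l9 : IsScalarTower (AdjoinRoot f) (AdjoinRoot F) (AdjoinRoot (f.map (algebraMap A K))) := by
    apply IsScalarTower.of_algebraMap_eq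
    intro x
    rw [halg]
    change _ = lamMap (algebraMap A' K) hFK (lamMap (algebraMap A A') hF.symm x)
    obtain ⟨q, rfl⟩ := AdjoinRoot.mk_surjective x
    rw [lamMap_mk, lamMap_mk, lamMap_mk, Polynomial.map_map, ← IsScalarTower.algebraMap_eq]
  -- the primes of `A'[x]/(f)` lie over `p`
  have hcontr : ∀ Q' : HeightOneSpectrum (AdjoinRoot F), ∃ Q : HeightOneSpectrum (AdjoinRoot f),
      Q.asIdeal.LiesOver p.asIdeal ∧ ∀ y : AdjoinRoot (f.map (algebraMap A K)),
        Q.valuation (AdjoinRoot (f.map (algebraMap A K))) y =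
          Q'.valuation (AdjoinRoot (f.map (algebraMap A K))) y := by
    intro Q'
    have h2 : Q'.asIdeal.comap (algebraMap A' (AdjoinRoot F)) ≠ ⊥ :=
      mt Ideal.eq_bot_of_comap_eq_bot Q'.ne_bot
    have h3 : (Q'.asIdeal.comap (algebraMap A' (AdjoinRoot F))).IsPrime := Ideal.comap_isPrime _ _
    have h5 := IsLocalRing.eq_maximalIdeal (h3.isMaximal h2)
    have h6 : (Q'.asIdeal.comap (algebraMap (AdjoinRoot f) (AdjoinRoot F))).comap
        (algebraMap A (AdjoinRoot f)) = p.asIdeal := by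
      ext a
      change lamMap (algebraMap A A') hF.symm (AdjoinRoot.of f a) ∈ Q'.asIdeal ↔ _
      rw [lamMap_of', ← IsLocalization.AtPrime.to_map_mem_maximal_iff A' p.asIdeal, ← h5]
      rfl
    have h7 : (Q'.asIdeal.comap (algebraMap (AdjoinRoot f) (AdjoinRoot F))) ≠ ⊥ := by
      intro h0
      apply p.ne_bot
      rw [← h6, h0]
      apply Ideal.comap_bot_of_injective
      have h8 : Function.Injective (algebraMap A (AdjoinRoot (f.map (algebraMap A K)))) := by
        rw [IsScalarTower.algebraMap_eq A K]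
        exact (algebraMap K _).injective.comp (IsFractionRing.injective A K)
      rw [IsScalarTower.algebraMap_eq A (AdjoinRoot f)
        (AdjoinRoot (f.map (algebraMap A K)))] at h8
      exact Function.Injective.of_comp h8
    let Q : HeightOneSpectrum (AdjoinRoot f) :=
      ⟨Q'.asIdeal.comap (algebraMap (AdjoinRoot f) (AdjoinRoot F)), Ideal.comap_isPrime _ _, h7⟩
    refine ⟨Q, ⟨h6.symm⟩, fun y => ?_⟩
    exact valuation_eq_of_sameField Q' Q rfl y
  -- the valuation of norms of units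
  have hpv : ∃ p' : HeightOneSpectrum A', ∀ y : K, p.valuation K y = p'.valuation K y := by
    have h1 : IsLocalRing.maximalIdeal A' ≠ ⊥ := by
      intro h0
      exact IsDiscreteValuationRing.not_isField A'
        ((IsLocalRing.isField_iff_maximalIdeal_eq).mpr h0)
    refine ⟨⟨IsLocalRing.maximalIdeal A', inferInstance, h1⟩, fun y => ?_⟩
    apply valuation_eq_of_sameField
    exact (IsLocalization.AtPrime.under_maximalIdeal A' p.asIdeal).symm
  obtain ⟨p', hp'⟩ := hpv
  -- the exponent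
  have hx0 : x ≠ 0 := by
    rintro rfl
    rw [map_zero] at hPx
    exact WithZero.exp_ne_zero hPx.symm
  set a : ℤ := WithZero.log (P.valuation (AdjoinRoot (f.map (algebraMap A K))) m) with ha
  have hvm : P.valuation (AdjoinRoot (f.map (algebraMap A K))) m ≠ 0 := by rwa [Ne, map_eq_zero]
  have hPm : P.valuation (AdjoinRoot (f.map (algebraMap A K))) m = WithZero.exp a :=
    (WithZero.exp_log hvm).symm
  obtain ⟨u, z, huz⟩ := exists_unit_mul_pow (O := AdjoinRoot F)
    (L := AdjoinRoot (f.map (algebraMap A K))) hℓ.ne_zero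
    (fun I _ => IsPrincipalIdealRing.principal I) (m * x ^ a)
    (mul_ne_zero hm (zpow_ne_zero _ hx0)) (fun Q' => by
      obtain ⟨Q, hQ1, hQ2⟩ := hcontr Q'
      rw [← hQ2, map_mul, map_zpow₀]
      by_cases hQP : Q = P
      · refine ⟨1, ?_⟩
        rw [hQP, hPm, hPx, ← WithZero.exp_zsmul, ← WithZero.exp_add, one_pow, smul_neg,
          smul_eq_mul, mul_one, add_neg_cancel, WithZero.exp_zero]
      · obtain ⟨t, ht⟩ := hQ Q hQ1 hQP
        exact ⟨t, by rw [hx Q hQ1 hQP, one_zpow, mul_one, ht]⟩)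
  have hz0 : z ≠ 0 := by
    rintro rfl
    rw [zero_pow hℓ.ne_zero, mul_zero] at huz
    exact mul_ne_zero hm (zpow_ne_zero _ hx0) huz
  have hzp : ∀ (y : AdjoinRoot (f.map (algebraMap A K))) (i : ℤ),
      Algebra.norm K (y ^ i) = Algebra.norm K y ^ i := by
    intro y i
    exact map_zpow₀ ({ (Algebra.norm K : AdjoinRoot (f.map (algebraMap A K)) →* K) with
      map_zero' := Algebra.norm_zero } : AdjoinRoot (f.map (algebraMap A K)) →*₀ K) y i
  have h1 := congrArg (fun y => p.valuation K (Algebra.norm K y)) huz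
  rw [map_mul (Algebra.norm K), map_mul (Algebra.norm K), hzp,
    map_pow (Algebra.norm K), hr, map_mul, map_mul, map_pow, map_zpow₀, map_pow, hNx,
    hp' (Algebra.norm K (algebraMap (AdjoinRoot F) _ (u : AdjoinRoot F))), val_norm_unit p' u,
    one_mul] at h1
  have hNz : p.valuation K (Algebra.norm K z) ≠ 0 := by
    rw [Ne, map_eq_zero, Algebra.norm_eq_zero_iff]
    exact hz0
  have hrv : p.valuation K r ≠ 0 := by
    intro h0
    rw [h0, zero_pow hℓ.ne_zero, zero_mul] at h1
    exact pow_ne_zero _ hNz h1.symm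
  refine ⟨p.valuation K r / p.valuation K (Algebra.norm K z), ?_⟩
  rw [hPm, div_pow, eq_div_iff (pow_ne_zero _ hNz), ← h1, mul_left_comm, ← WithZero.exp_zsmul,
    ← WithZero.exp_add]
  have h2 : a + a • (-1 : ℤ) = 0 := by rw [smul_neg, smul_eq_mul, mul_one, add_neg_cancel]
  rw [h2, WithZero.exp_zero, mul_one]

end Split

end Pool.Agent.MP1bdb59C
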