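import Mathlib
import Pool.Agent.MP1bdb59P.Unr
import Pool.Agent.MP1bdb59P.Core
import Pool.Agent.MP1bdb59P.Alg
import Pool.Agent.MP1bdb59C.HilbTw

/-!
# The Selmer group of a twist with a point
-/

open Polynomial IsDedekindDomain

noncomputable section

set_option linter.unusedSectionVars false

open scoped Classical WithZero

namespace Pool.Agent.MP1bdb59C

open Pool.Agent.MP1bdb59 (Sep AbsGal emb resGal Place Completion placeOf TateModule)

universe u v

section Norm

variable {A K : Type*} [CommRing A] [Field K] [Algebra A K] {f : A[X]}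

lemma map_dd (hf : f.Monic) (w c : A) : algebraMap A K (dd f w c) =
    ((f.map (algebraMap A K)).scaleRoots (algebraMap A K w)).eval
      (algebraMap A K c * algebraMap A K w + 1) := by
  have h1 : (f.scaleRoots w).map (algebraMap A K) =
      (f.map (algebraMap A K)).scaleRoots (algebraMap A K w) :=
    map_scaleRoots _ _ _ (by rw [hf.leadingCoeff, map_one]; exact one_ne_zero)
  unfold dd
  rw [← h1, eval_map, ← map_mul, ← map_one (algebraMap A K), ← map_add, eval₂_at_apply]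

lemma map_dd' (hf : f.Monic) {w : A} (hw0 : algebraMap A K w ≠ 0) (c : A) :
    algebraMap A K (dd f w c) = algebraMap A K w ^ f.natDegree *
      (f.map (algebraMap A K)).eval (algebraMap A K c + (algebraMap A K w)⁻¹) := by
  rw [map_dd hf, ← hf.natDegree_map (algebraMap A K), ← scaleRoots_eval_mul]
  congr 1
  rw [mul_add, mul_inv_cancel₀ hw0, mul_comm]

lemma lamMap_xi {w : A} (hw0 : algebraMap A K w ≠ 0) (c : A) :
    lamMap (algebraMap A K) (rfl : f.map (algebraMap A K) = f.map (algebraMap A K)) (xi f w c) =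
      AdjoinRoot.of _ (algebraMap A K w) * (AdjoinRoot.of _ (algebraMap A K c +
        (algebraMap A K w)⁻¹) - AdjoinRoot.root _) := by
  unfold xi
  rw [map_add, map_one, map_mul, map_sub, lamMap_of', lamMap_of', lamMap_root',
    map_add (AdjoinRoot.of _)]
  have h2 : AdjoinRoot.of (f.map (algebraMap A K)) (algebraMap A K w) *
      AdjoinRoot.of (f.map (algebraMap A K)) (algebraMap A K w)⁻¹ = 1 := by
    rw [← map_mul, mul_inv_cancel₀ hw0, map_one]
  linear_combination -h2

lemma norm_xi (hf : f.Monic) {w : A} (hw0 : algebraMap A K w ≠ 0) (c : A) :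
    Algebra.norm K (lamMap (algebraMap A K) (rfl : f.map (algebraMap A K) = _) (xi f w c)) =
      algebraMap A K (dd f w c) := by
  rw [lamMap_xi hw0, map_mul, norm_of (hf.map _), norm_of_sub_root (hf.map _), map_dd' hf hw0,
    hf.natDegree_map]

end Norm

section At

variable {k : Type u} {K : Type v} [Field k] [Field K] [Algebra k K] {A : Type*} [CommRing A]
  [IsDedekindDomain A] [Algebra A K] [IsFractionRing A K] [Algebra k A] [IsScalarTower k A K]
  {ℓ : ℕ} [hp : Fact ℓ.Prime]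
  {f : A[X]} [hirr : Fact (Irreducible (f.map (algebraMap A K)))]
  [IsDedekindDomain (AdjoinRoot f)] [Algebra (AdjoinRoot f) (AdjoinRoot (f.map (algebraMap A K)))]
  [IsFractionRing (AdjoinRoot f) (AdjoinRoot (f.map (algebraMap A K)))]
  [IsScalarTower A (AdjoinRoot f) (AdjoinRoot (f.map (algebraMap A K)))]
  (halg : ∀ x, algebraMap (AdjoinRoot f) (AdjoinRoot (f.map (algebraMap A K))) x =
    lamMap (algebraMap A K) rfl x)
  (hf : f.Monic) (hsep : f.Separable) (hcop : ¬ ℓ ∣ f.natDegree)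
  {g₂ : (AdjoinRoot f)[X]}
  (hg₂ : f.map (AdjoinRoot.of f) = (X - C (AdjoinRoot.root f)) * g₂) (hg₂m : g₂.Monic)
  (hg₂n : g₂.natDegree ≠ 0)

/-- The two primes over `D`. -/
structure TwoPrimes (p : HeightOneSpectrum A) (P₁ P₂ : HeightOneSpectrum (AdjoinRoot f))
    (w c : A) : Prop where
  hp : p.asIdeal = Ideal.span {dd f w c}
  hD : dd f w c ≠ 0
  hP₁ : P₁.asIdeal = Ideal.span {xi f w c}
  lo₁ : P₁.asIdeal.LiesOver p.asIdeal
  lo₂ : P₂.asIdeal.LiesOver p.asIdeal
  ne : P₁ ≠ P₂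
  all : ∀ Q : HeightOneSpectrum (AdjoinRoot f), Q.asIdeal.LiesOver p.asIdeal → Q = P₁ ∨ Q = P₂
  val₁ : P₁.valuation (AdjoinRoot (f.map (algebraMap A K)))
    (lamMap (algebraMap A K) rfl (xi f w c)) = WithZero.exp (-1 : ℤ)
  val₂ : P₂.valuation (AdjoinRoot (f.map (algebraMap A K)))
    (lamMap (algebraMap A K) rfl (xi f w c)) = 1
  valD : P₂.valuation (AdjoinRoot (f.map (algebraMap A K)))
    (lamMap (algebraMap A K) rfl (AdjoinRoot.of f (dd f w c))) = WithZero.exp (-1 : ℤ)
  away : ∀ Q : HeightOneSpectrum (AdjoinRoot f), dd f w c ∉ Q.asIdeal.comap (AdjoinRoot.of f) →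
    Q.valuation (AdjoinRoot (f.map (algebraMap A K)))
      (lamMap (algebraMap A K) rfl (xi f w c)) = 1 ∧
    Q.valuation (AdjoinRoot (f.map (algebraMap A K)))
      (lamMap (algebraMap A K) rfl (AdjoinRoot.of f (dd f w c))) = 1

include halg hf hsep hg₂ hg₂m hg₂n in
omit [Algebra k K] [Algebra k A] [IsScalarTower k A K] in
theorem exists_twoPrimes {w c : A} (hw : ¬ IsUnit w)
    (hξ : (Ideal.span {AdjoinRoot.of g₂ (xi f w c)}).IsMaximal) :
    ∃ (p : HeightOneSpectrum A) (P₁ P₂ : HeightOneSpectrum (AdjoinRoot f)),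
      TwoPrimes (K := K) p P₁ P₂ w c := by
  have hfin₂ := (AdjoinRoot.powerBasis' hg₂m).finite
  have hint₂ : Algebra.IsIntegral (AdjoinRoot f) (AdjoinRoot g₂) := inferInstance
  have hfin := (AdjoinRoot.powerBasis' hf).finite
  have hint : Algebra.IsIntegral A (AdjoinRoot f) := inferInstance
  -- `ξ` is prime
  have hξ₁ : (Ideal.span {xi f w c}).IsMaximal := by
    rw [← comap_of_xi (g := g₂) (w := w) (c := c) hg₂m hg₂n]
    exact Ideal.isMaximal_comap_of_isIntegral_of_isMaximal (R := AdjoinRoot f) _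
  have hD₁ : (Ideal.span {dd f w c}).IsMaximal := by
    rw [← comap_xi w c hf]
    exact Ideal.isMaximal_comap_of_isIntegral_of_isMaximal (R := A) _
  have hD0 : dd f w c ≠ 0 := by
    intro h0
    obtain ⟨t, ht⟩ := dd_eq w c hf
    rw [h0] at ht
    exact hw (IsUnit.of_mul_eq_one (-t) (by linear_combination ht))
  have hinj : Function.Injective (AdjoinRoot.of f) := by
    have h1 : Function.Injective (algebraMap A (AdjoinRoot (f.map (algebraMap A K)))) := by
      rw [IsScalarTower.algebraMap_eq A K]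
      exact (algebraMap K _).injective.comp (IsFractionRing.injective A K)
    rw [IsScalarTower.algebraMap_eq A (AdjoinRoot f)
      (AdjoinRoot (f.map (algebraMap A K)))] at h1
    exact Function.Injective.of_comp h1
  have hD0' : AdjoinRoot.of f (dd f w c) ≠ 0 := by
    rw [Ne, ← map_zero (AdjoinRoot.of f)]
    exact fun h => hD0 (hinj h)
  have hξ0 : xi f w c ≠ 0 := by
    intro h0
    have h1 := xi_dvd_dd (f := f) w c
    rw [h0, zero_dvd_iff] at h1
    exact hD0' h1
  let p : HeightOneSpectrum A := ⟨Ideal.span {dd f w c}, hD₁.isPrime, by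
    rwa [Ne, Ideal.span_singleton_eq_bot]⟩
  let P₁ : HeightOneSpectrum (AdjoinRoot f) := ⟨Ideal.span {xi f w c}, hξ₁.isPrime, by
    rwa [Ne, Ideal.span_singleton_eq_bot]⟩
  have hpr₂ : (otherP hg₂ w c).IsPrime := Ideal.comap_isPrime _ _
  have hbot₂ : otherP hg₂ w c ≠ ⊥ := by
    intro h0
    have h1 := dd_mem_otherP hg₂ (w := w) (c := c)
    rw [h0] at h1
    exact hD0' h1
  let P₂ : HeightOneSpectrum (AdjoinRoot f) := ⟨otherP hg₂ w c, hpr₂, hbot₂⟩
  have hmax₂ : (otherP hg₂ w c).IsMaximal := hpr₂.isMaximal hbot₂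
  have hξ₂ : xi f w c ∉ otherP hg₂ w c := xi_notMem_otherP hg₂ hsep hξ.isPrime
  refine ⟨p, P₁, P₂, rfl, hD0, rfl, ?_, ?_, ?_, ?_, ?_, ?_, ?_, ?_⟩
  · exact ⟨(comap_xi w c hf).symm⟩
  · refine ⟨?_⟩
    apply hD₁.eq_of_le (Ideal.comap_ne_top _ hpr₂.ne_top)
    rw [Ideal.span_le, Set.singleton_subset_iff]
    exact dd_mem_otherP hg₂
  · intro h
    apply hξ₂
    have h1 : P₁.asIdeal = P₂.asIdeal := by rw [h]
    have h2 : xi f w c ∈ P₁.asIdeal := Ideal.mem_span_singleton_self _
    rw [h1] at h2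
    exact h2
  · intro Q hQ
    have hQD : AdjoinRoot.of f (dd f w c) ∈ Q.asIdeal := by
      have h1 : dd f w c ∈ p.asIdeal := Ideal.mem_span_singleton_self _
      rw [hQ.over] at h1
      exact h1
    by_cases hQξ : xi f w c ∈ Q.asIdeal
    · left
      apply HeightOneSpectrum.ext
      symm
      apply hξ₁.eq_of_le Q.isPrime.ne_top
      rwa [Ideal.span_le, Set.singleton_subset_iff]
    · right
      apply HeightOneSpectrum.ext
      symm
      exact hmax₂.eq_of_le Q.isPrime.ne_top (otherP_le hf hg₂ hQD hQξ)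
  · rw [← halg, HeightOneSpectrum.valuation_of_algebraMap]
    exact HeightOneSpectrum.intValuation_singleton P₁ hξ0 rfl
  · rw [← halg, HeightOneSpectrum.valuation_of_algebraMap,
      HeightOneSpectrum.intValuation_eq_one_iff]
    exact hξ₂
  · rw [← halg, HeightOneSpectrum.valuation_of_algebraMap]
    have h1 : AdjoinRoot.of f (dd f w c) ∈ P₂.asIdeal ^ 1 := by
      rw [pow_one]
      exact dd_mem_otherP hg₂
    have h2 : AdjoinRoot.of f (dd f w c) ∉ P₂.asIdeal ^ 2 := notMem_sq hsep hD₁ hD0'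
    rw [← HeightOneSpectrum.intValuation_le_pow_iff_mem] at h1 h2
    have h3 : P₂.intValuation (AdjoinRoot.of f (dd f w c)) ≠ 0 :=
      HeightOneSpectrum.intValuation_ne_zero _ _ hD0'
    rw [← WithZero.exp_log h3, WithZero.exp_le_exp] at h1
    rw [← WithZero.exp_log h3, WithZero.exp_le_exp] at h2
    rw [← WithZero.exp_log h3]
    congr 1
    push_cast at h1 h2
    omega
  · intro Q hQ
    have h1 : AdjoinRoot.of f (dd f w c) ∉ Q.asIdeal := hQ
    have h2 : xi f w c ∉ Q.asIdeal := by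
      intro h0
      obtain ⟨t, ht⟩ := xi_dvd_dd (f := f) w c
      apply h1
      rw [ht]
      exact Ideal.mul_mem_right _ _ h0
    rw [← halg, ← halg, HeightOneSpectrum.valuation_of_algebraMap,
      HeightOneSpectrum.intValuation_eq_one_iff, HeightOneSpectrum.valuation_of_algebraMap,
      HeightOneSpectrum.intValuation_eq_one_iff]
    exact ⟨h2, h1⟩

/-- the image of `a - x` -/
lemma scMap_mu {w c : A} {j : ℕ} {g : K[X]}
    (hg : g = (f.map (algebraMap A K)).scaleRoots (algebraMap A K (dd f w c ^ j * w))) :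
    scMap hg (AdjoinRoot.of g (algebraMap A K (dd f w c ^ j * (c * w + 1))) - AdjoinRoot.root g) =
      lamMap (algebraMap A K) rfl (AdjoinRoot.of f (dd f w c)) ^ j *
        lamMap (algebraMap A K) rfl (xi f w c) := by
  rw [map_sub, scMap_of, scMap_root]
  unfold xi
  simp only [map_add, map_mul, map_sub, map_pow, lamMap_of', lamMap_root', map_one]
  ring

lemma norm_mu (hf : f.Monic) {w c : A} (hw0 : algebraMap A K w ≠ 0) {j N : ℕ}
    (hN : f.natDegree * j + 1 = ℓ * N) :
    Algebra.norm K (lamMap (algebraMap A K) (rfl : f.map (algebraMap A K) = _)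
      (AdjoinRoot.of f (dd f w c)) ^ j * lamMap (algebraMap A K) rfl (xi f w c)) =
      (algebraMap A K (dd f w c) ^ N) ^ ℓ := by
  rw [map_mul, map_pow, norm_xi hf hw0, lamMap_of', norm_of (hf.map _), hf.natDegree_map,
    ← pow_mul, ← pow_succ, hN, ← pow_mul, mul_comm ℓ N]

lemma exists_index {ℓ : ℕ} {n j : ℕ} (hj : ℓ ∣ n * j + 1) (hℓ : ℓ ≠ 0) (a : ℤ) :
    ∃ i : ℕ, (ℓ : ℤ) ∣ a + j * i := by
  refine ⟨n * (a % ℓ).toNat, ?_⟩
  have h1 : (((a % ℓ).toNat : ℕ) : ℤ) = a % ℓ :=
    Int.toNat_of_nonneg (Int.emod_nonneg _ (by exact_mod_cast hℓ))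
  obtain ⟨b, hb⟩ := hj
  have h2 : ((n : ℤ) * j + 1) = ℓ * b := by exact_mod_cast hb
  refine ⟨a / ℓ + b * (a % ℓ), ?_⟩
  push_cast
  rw [h1]
  have h3 := Int.emod_add_mul_ediv a ℓ
  linear_combination (a % ℓ) * h2 - h3

include halg hf hsep hcop in
/-- The Selmer group of the twist is generated by the class of the point. -/
theorem sel_at {ζ : k} (hζ : IsPrimitiveRoot ζ ℓ) {w c : A} (hw0 : w ≠ 0) {j : ℕ}
    (hj : ℓ ∣ f.natDegree * j + 1) {g : K[X]}
    (hg : g = (f.map (algebraMap A K)).scaleRoots (algebraMap A K (dd f w c ^ j * w)))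
    [hgood : Good ℓ g] (M : Finset (AdjoinRoot f))
    (hM : ∀ m : AdjoinRoot (f.map (algebraMap A K)), m ≠ 0 →
      (∀ P : HeightOneSpectrum (AdjoinRoot f), ∃ z : ℤᵐ⁰,
        P.valuation (AdjoinRoot (f.map (algebraMap A K))) m = z ^ ℓ) →
      (∃ r : K, Algebra.norm K m = r ^ ℓ) → (∃ z, m = z ^ ℓ) ∨
        ∃ m₀ ∈ M, ∃ z, z ≠ 0 ∧ m = algebraMap (AdjoinRoot f) _ m₀ * z ^ ℓ)
    (hmax : (Ideal.span {AdjoinRoot.of f w}).IsMaximal)
    (hMmod : ∀ m ∈ M, ¬ ∃ b : AdjoinRoot f, m - b ^ ℓ ∈ Ideal.span {AdjoinRoot.of f w})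
    {p : HeightOneSpectrum A} {P₁ P₂ : HeightOneSpectrum (AdjoinRoot f)}
    (H : TwoPrimes (K := K) p P₁ P₂ w c)
    {ζK : K} (hζK : IsPrimitiveRoot ζK ℓ) (hζζ : algebraMap k K ζ = ζK)
    (m : AdjoinRoot g) (hm : IsUnit m) (hr : ∃ r : K, Algebra.norm K m = r ^ ℓ)
    (hloc : ∀ v : Place k K, LocCond hζK (Completion v) m) :
    ∃ (i : ℕ) (l : AdjoinRoot g), m = (AdjoinRoot.of g
      (algebraMap A K (dd f w c ^ j * (c * w + 1))) - AdjoinRoot.root g) ^ i * l ^ ℓ := by
  subst hζζ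
  have hℓ := hp.out
  obtain ⟨r, hr⟩ := hr
  have hn : f.natDegree ≠ 0 := by
    rw [← hf.natDegree_map (algebraMap A K)]
    exact hirr.out.natDegree_pos.ne'
  have hfKm : (f.map (algebraMap A K)).Monic := hf.map _
  have hwK : algebraMap A K w ≠ 0 := by rwa [Ne, IsFractionRing.to_map_eq_zero_iff]
  have hDK : algebraMap A K (dd f w c) ≠ 0 := by
    rw [Ne, IsFractionRing.to_map_eq_zero_iff]
    exact H.hD
  have hwjK : algebraMap A K (dd f w c ^ j * w) ≠ 0 := by
    rw [Ne, IsFractionRing.to_map_eq_zero_iff]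
    exact mul_ne_zero (pow_ne_zero _ H.hD) hw0
  -- the primes
  have hcomap := comap_span halg hf hw0
  have hint : Algebra.IsIntegral A (AdjoinRoot f) := by
    have := (AdjoinRoot.powerBasis' hf).finite
    infer_instance
  have hAmax : (Ideal.span {w}).IsMaximal := by
    rw [← hcomap]
    exact Ideal.isMaximal_comap_of_isIntegral_of_isMaximal _
  have hDmax : (Ideal.span {dd f w c}).IsMaximal := by
    rw [← H.hp]
    exact p.isPrime.isMaximal p.ne_bot
  let pw : HeightOneSpectrum A := ⟨Ideal.span {w}, hAmax.isPrime, by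
    rwa [Ne, Ideal.span_singleton_eq_bot]⟩
  have hζA : algebraMap A K (algebraMap k A ζ) = algebraMap k K ζ := by
    rw [← IsScalarTower.algebraMap_apply]
  have hfree : Module.Free A (AdjoinRoot f) :=
    Module.Free.of_basis (AdjoinRoot.powerBasis' hf).basis
  have htf : Module.IsTorsionFree A (AdjoinRoot f) := inferInstance
  have hfin : FiniteDimensional K (AdjoinRoot (f.map (algebraMap A K))) :=
    (AdjoinRoot.powerBasis' hfKm).finite
  have hnt : Nontrivial (AdjoinRoot g) := (scEquiv hg (mul_inv_cancel₀ hwjK)).toEquiv.nontrivial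
  obtain ⟨N, hN⟩ := hj
  -- the elements
  obtain ⟨X₀, hX₀⟩ : ∃ X₀, X₀ = lamMap (algebraMap A K) (rfl : f.map (algebraMap A K) = _)
    (xi f w c) := ⟨_, rfl⟩
  obtain ⟨Y₀, hY₀⟩ : ∃ Y₀, Y₀ = lamMap (algebraMap A K) (rfl : f.map (algebraMap A K) = _)
    (AdjoinRoot.of f (dd f w c)) := ⟨_, rfl⟩
  have hμ := scMap_mu hg
  have hNμ := norm_mu (K := K) (ℓ := ℓ) (c := c) hf hwK hN
  have hNX := norm_xi (K := K) hf hwK c
  rw [← hX₀, ← hY₀] at hμ hNμ
  rw [← hX₀] at hNX
  have hX0 : X₀ ≠ 0 := by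
    intro h0
    rw [h0, Algebra.norm_zero] at hNX
    exact hDK hNX.symm
  have hY0 : Y₀ ≠ 0 := by
    rw [hY₀, lamMap_of', Ne, map_eq_zero]
    exact hDK
  have hμ0 : Y₀ ^ j * X₀ ≠ 0 := mul_ne_zero (pow_ne_zero _ hY0) hX0
  have hm' : scMap hg m ≠ 0 := by
    intro h0
    have h1 : scEquiv hg (mul_inv_cancel₀ hwjK) m = 0 := h0
    rw [map_eq_zero_iff _ (scEquiv hg (mul_inv_cancel₀ hwjK)).injective] at h1
    exact hm.ne_zero h1
  have hr' : Algebra.norm K (scMap hg m) = r ^ ℓ := by rw [norm_scMap hwjK hg, hr]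
  have hv₂ : P₂.valuation (AdjoinRoot (f.map (algebraMap A K))) (scMap hg m) ≠ 0 := by
    rwa [Ne, map_eq_zero]
  obtain ⟨i, b, hb⟩ := exists_index (ℓ := ℓ) (n := f.natDegree) (j := j) ⟨N, hN⟩ hℓ.ne_zero
    (WithZero.log (P₂.valuation (AdjoinRoot (f.map (algebraMap A K))) (scMap hg m)))
  obtain ⟨m', hm'def⟩ : ∃ m', m' * (Y₀ ^ j * X₀) ^ i = scMap hg m :=
    ⟨scMap hg m / (Y₀ ^ j * X₀) ^ i, div_mul_cancel₀ _ (pow_ne_zero _ hμ0)⟩
  have hm'0 : m' ≠ 0 := by
    rintro rfl
    rw [zero_mul] at hm'def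
    exact hm' hm'def.symm
  have hr'' : Algebra.norm K m' = (r / (algebraMap A K (dd f w c) ^ N) ^ i) ^ ℓ := by
    rw [div_pow, eq_div_iff (pow_ne_zero _ (pow_ne_zero _ (pow_ne_zero _ hDK))), ← hr', ← hm'def,
      map_mul, map_pow, hNμ]
    ring
  -- valuations
  have hval : ∀ P' : HeightOneSpectrum (AdjoinRoot f), ∃ z : ℤᵐ⁰,
      P'.valuation (AdjoinRoot (f.map (algebraMap A K))) m' = z ^ ℓ := by
    have hval₂ : ∃ z : ℤᵐ⁰,
        P₂.valuation (AdjoinRoot (f.map (algebraMap A K))) m' = z ^ ℓ := by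
      refine ⟨WithZero.exp b, ?_⟩
      have h1 := congrArg (P₂.valuation (AdjoinRoot (f.map (algebraMap A K)))) hm'def
      rw [map_mul, map_pow, map_mul, map_pow, hX₀, hY₀, H.val₂, H.valD, mul_one,
        ← WithZero.exp_log hv₂, ← WithZero.exp_nsmul, ← WithZero.exp_nsmul] at h1
      have h3 : (i • j • (-1 : ℤ)) + (i : ℤ) * j = 0 := by
        simp only [nsmul_eq_mul]
        ring
      have h2 : P₂.valuation (AdjoinRoot (f.map (algebraMap A K))) m' =
          P₂.valuation (AdjoinRoot (f.map (algebraMap A K))) m' *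
            WithZero.exp (i • j • (-1 : ℤ)) * WithZero.exp ((i : ℤ) * j) := by
        rw [mul_assoc, ← WithZero.exp_add, h3, WithZero.exp_zero, mul_one]
      rw [h2, h1, ← WithZero.exp_add, ← WithZero.exp_nsmul, nsmul_eq_mul, ← hb, mul_comm (i : ℤ)]
    intro P'
    set p' := HeightOneSpectrum.under A P' with hp'
    have hlo : P'.asIdeal.LiesOver p'.asIdeal := ⟨rfl⟩
    by_cases hwp : w ∈ p'.asIdeal
    · have h1 : p'.asIdeal = Ideal.span {w} := by
        symm
        apply hAmax.eq_of_le p'.isPrime.ne_top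
        rwa [Ideal.span_le, Set.singleton_subset_iff]
      have h2 : P'.asIdeal = Ideal.span {algebraMap A (AdjoinRoot f) w} := by
        symm
        apply hmax.eq_of_le P'.isPrime.ne_top
        rw [Ideal.span_le, Set.singleton_subset_iff]
        exact hwp
      exact isPow_at halg hf hsep hcop p' h1 _ hm'0 hr'' P' h2
    · by_cases hDp : dd f w c ∈ p'.asIdeal
      · have h1 : p' = p := by
          apply HeightOneSpectrum.ext
          rw [H.hp]
          symm
          apply hDmax.eq_of_le p'.isPrime.ne_top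
          rwa [Ideal.span_le, Set.singleton_subset_iff]
        rw [h1] at hlo
        rcases H.all P' hlo with h2 | h2
        · rw [h2]
          refine isPow_split halg hf hsep p m' hm'0 hr'' P₁ (x := X₀) (by rw [hX₀]; exact H.val₁)
            (fun Q hQ hne => ?_) ?_ (fun Q hQ hne => ?_)
          · rcases H.all Q hQ with h3 | h3
            · exact absurd h3 hne
            · rw [h3, hX₀]
              exact H.val₂
          · rw [hNX, HeightOneSpectrum.valuation_of_algebraMap]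
            exact HeightOneSpectrum.intValuation_singleton p H.hD H.hp
          · rcases H.all Q hQ with h3 | h3
            · exact absurd h3 hne
            · rw [h3]
              exact hval₂
        · rw [h2]
          exact hval₂
      · have hwp' : dd f w c ^ j * w ∉ p'.asIdeal := by
          intro h0
          rcases p'.isPrime.mem_or_mem h0 with h1 | h1
          · exact hDp (p'.isPrime.mem_of_pow_mem j h1)
          · exact hwp h1
        have hg1 : g = (f.map (algebraMap A K)).scaleRoots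
            (algebraMap A K (dd f w c ^ j * w) ^ 1) := by
          rw [pow_one]
          exact hg
        obtain ⟨t, ht⟩ := isPow_away (j := 1) halg hf hsep hcop
          (hζ.map_of_injective (algebraMap k K).injective) hζA p' hwp' hg1
          (placeOf k K p') rfl m hm hr hloc P' hlo
        rw [← scMap_congr hg hg1 (pow_one _).symm] at ht
        obtain ⟨h1, h2⟩ := H.away P' hDp
        refine ⟨t, ?_⟩
        rw [← ht, ← hm'def, map_mul, map_pow, map_mul, map_pow, hX₀, hY₀, h1, h2, one_pow,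
          one_mul, one_pow, mul_one]
  rcases hM _ hm'0 hval ⟨_, hr''⟩ with ⟨z, hz⟩ | ⟨m₀, hm₀, z, hz0, hz⟩
  · refine ⟨i, (scEquiv hg (mul_inv_cancel₀ hwjK)).symm z, ?_⟩
    apply (scEquiv hg (mul_inv_cancel₀ hwjK)).injective
    have hz' : scMap hg ((scEquiv hg (mul_inv_cancel₀ hwjK)).symm z) = z :=
      (scEquiv hg (mul_inv_cancel₀ hwjK)).apply_symm_apply z
    change scMap hg m = scMap hg ((AdjoinRoot.of g
      (algebraMap A K (dd f w c ^ j * (c * w + 1))) - AdjoinRoot.root g) ^ i *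
        (scEquiv hg (mul_inv_cancel₀ hwjK)).symm z ^ ℓ)
    rw [map_mul (scMap hg), map_pow (scMap hg), map_pow (scMap hg), hz', hμ, ← hm'def, hz,
      mul_comm]
  · exfalso
    -- the completion at `w`
    have hpK : ∀ x : A, pw.valuation K (algebraMap A K x) ≤ 1 := fun x => pw.valuation_le_one x
    obtain ⟨vF, h1, h2, h3⟩ := exists_dvr pw (placeOf k K pw) rfl
    set F := Completion (placeOf k K pw) with hF
    set ι : A →+* F := (algebraMap K F).comp (algebraMap A K) with hι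
    have hιx : ∀ x, ι x = algebraMap K F (algebraMap A K x) := fun x => rfl
    have hι1 : ∀ x, vF (ι x) ≤ 1 := by
      intro x
      rw [hιx, h1]
      exact hpK x
    have hres : ∀ r : F, vF r ≤ 1 → ∃ x : A, vF (r - ι x) < 1 := by
      intro r hr
      obtain ⟨x, hx⟩ := h2 r 1 one_ne_zero
      rw [map_one] at hx
      have h4 : pw.valuation K x ≤ 1 := by
        rw [← h1]
        have h5 : algebraMap K F x = (algebraMap K F x - r) + r := by ring
        rw [h5]
        exact Valuation.map_add_le _ hx.le hr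
      obtain ⟨q, hq⟩ := pw.exists_valuation_sub_lt_of_integer h4 1
      refine ⟨q, ?_⟩
      have h6 : r - ι q = -((algebraMap K F x - r) +
          (algebraMap K F (algebraMap A K q - x))) := by
        rw [hιx, map_sub]
        ring
      rw [h6, Valuation.map_neg]
      refine Valuation.map_add_lt _ hx ?_
      rw [h1]
      exact hq
    set σ := toRes ι hι1 with hσ
    have hσs : Function.Surjective σ := toRes_surjective ι hι1 hres
    have hvw : vF (ι w) = WithZero.exp (-1 : ℤ) := by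
      rw [hιx, h1, HeightOneSpectrum.valuation_of_algebraMap]
      exact HeightOneSpectrum.intValuation_singleton pw hw0 rfl
    obtain ⟨t, ht⟩ := dd_eq w c hf
    have hDw : dd f w c ∉ Ideal.span {w} := by
      intro h0
      apply hAmax.ne_top
      rw [Ideal.eq_top_iff_one]
      have h5 : (1 : A) = dd f w c - w * t := by rw [ht]; ring
      rw [h5]
      exact Ideal.sub_mem _ h0 (Ideal.mul_mem_right _ _ (Ideal.mem_span_singleton_self w))
    have hvD : vF (ι (dd f w c)) = 1 := by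
      rw [hιx, h1, HeightOneSpectrum.valuation_of_algebraMap,
        HeightOneSpectrum.intValuation_eq_one_iff]
      exact hDw
    have hvϖ : vF (ι (dd f w c ^ j * w)) = WithZero.exp (-1 : ℤ) := by
      rw [map_mul, map_mul, map_pow, map_pow, hvD, one_pow, one_mul, hvw]
    have hσw : σ w = 0 := by
      rw [hσ, toRes_eq_zero_iff, hvw]
      change WithZero.exp (-1 : ℤ) < WithZero.exp (0 : ℤ)
      rw [WithZero.exp_lt_exp]
      norm_num
    have hσD : σ (dd f w c) = 1 := by
      rw [ht, map_add, map_mul, hσw, zero_mul, add_zero, map_one]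
    obtain ⟨hirrσ, hker⟩ := irreducible_map_of_isMaximal σ hσs hf hn hσw hmax
    obtain ⟨𝔞, a, hs, hN', hma⟩ := hloc (placeOf k K pw)
    have hgoodF : Good ℓ (g.map (algebraMap K F)) :=
      ⟨hgood.monic.map _, hgood.sep.map, by rw [natDegree_map]; exact hgood.cop⟩
    have hfF : (f.map (algebraMap A K)).map (algebraMap K F) = f.map ι := by
      rw [Polynomial.map_map]
    have hgF : g.map (algebraMap K F) =
        (f.map ι).scaleRoots (ι 1 * ι (dd f w c ^ j * w) ^ 1) := by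
      rw [hg, map_scaleRoots _ _ _ (by
        rw [hfKm.leadingCoeff, map_one]; exact one_ne_zero), hfF, map_one, one_mul, pow_one]
      rfl
    have hσm₀ : lamMap σ (rfl : f.map σ = f.map σ) m₀ ≠ 0 := by
      intro h0
      apply hMmod m₀ hm₀
      refine ⟨0, ?_⟩
      rw [zero_pow hℓ.ne_zero, sub_zero, ← hker]
      exact h0
    have hσξ : lamMap σ (rfl : f.map σ = f.map σ) (xi f w c) = 1 := by
      unfold xi
      rw [map_add, map_mul, lamMap_of', hσw, map_zero, zero_mul, add_zero, map_one]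
    obtain ⟨c₀, hc₀⟩ : ∃ c₀, c₀ = m₀ * (AdjoinRoot.of f (dd f w c) ^ j * xi f w c) ^ i := ⟨_, rfl⟩
    have hσc₀ : lamMap σ (rfl : f.map σ = f.map σ) c₀ = lamMap σ rfl m₀ := by
      rw [hc₀, map_mul, map_pow, map_mul, map_pow, lamMap_of', hσD, map_one, one_pow, one_mul,
        hσξ, one_pow, mul_one]
    have hmc₀ : scMap hg m = lamMap (algebraMap A K) rfl c₀ * z ^ ℓ := by
      rw [← hm'def, hz, hc₀, map_mul, map_pow, map_mul, map_pow, ← hX₀, ← hY₀, halg]
      ring
    have hmc : scMap hgF (lamMap (algebraMap K F) rfl m) = AdjoinRoot.of _ (1 : F) *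
        lamMap ι rfl c₀ * (lamMap (algebraMap K F) hfF z) ^ ℓ := by
      rw [← lamMap_scMap hg (algebraMap K F) hfF rfl hgF (by
        rw [map_one, one_mul, pow_one]; rfl), hmc₀,
        map_mul (lamMap (algebraMap K F) hfF), map_pow (lamMap (algebraMap K F) hfF),
        lamMap_comp (algebraMap A K) (algebraMap K F) rfl hfF rfl, map_one, one_mul]
    obtain ⟨e, b', heb⟩ := res_of_locCond_unit ι hι1 hvϖ hf hirrσ (hsep.map) hcop
      (ζ := algebraMap k A ζ) (hζ.map_of_injective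
        (f := (toRes ι hι1).comp (algebraMap k A)) (RingHom.injective _))
      (j := 1) (by rw [Nat.dvd_one]; exact hℓ.one_lt.ne')
      (d := 1) (d' := 1) (one_mul 1) hgF 𝔞 a hs
      ((hζ.map_of_injective (algebraMap k K).injective).map_of_injective
        (algebraMap K F).injective)
      (by rw [hιx, hζA]) hN' _ hma c₀ (by rw [hσc₀]; exact hσm₀) 1 _ hmc
    have hNz : Algebra.norm K z ≠ 0 := by
      rw [Ne, Algebra.norm_eq_zero_iff]
      exact hz0
    obtain ⟨o, ho⟩ := exists_pow_mod (K := K) σ hσs hf hcop hirrσ m₀ hσm₀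
      (y := (r / (algebraMap A K (dd f w c) ^ N) ^ i) / Algebra.norm K z) (by
        rw [← halg, div_pow, eq_div_iff (pow_ne_zero _ hNz), ← map_pow, ← map_mul, ← hz, hr''])
      (e := e) (b := b') (by rw [← hσc₀]; exact heb)
    apply hMmod m₀ hm₀
    refine ⟨o, ?_⟩
    rw [← hker]
    exact ho

omit [Algebra k K] [Algebra k A] [IsScalarTower k A K] in
/-- The class of the point is not an `ℓ`-th power. -/
theorem not_pow_at {w c : A} {j : ℕ} (hj : ℓ ∣ f.natDegree * j + 1) {g : K[X]}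
    (hg : g = (f.map (algebraMap A K)).scaleRoots (algebraMap A K (dd f w c ^ j * w)))
    {p : HeightOneSpectrum A} {P₁ P₂ : HeightOneSpectrum (AdjoinRoot f)}
    (H : TwoPrimes (K := K) p P₁ P₂ w c) :
    ¬ ∃ z, AdjoinRoot.of g (algebraMap A K (dd f w c ^ j * (c * w + 1))) - AdjoinRoot.root g =
      z ^ ℓ := by
  rintro ⟨z, hz⟩
  have h1 := congrArg (fun y => P₂.valuation (AdjoinRoot (f.map (algebraMap A K)))
    (scMap hg y)) hz
  rw [scMap_mu, map_mul, map_pow, H.val₂, H.valD, mul_one, map_pow, map_pow] at h1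
  have h2 : WithZero.exp (-(j : ℤ)) = (P₂.valuation (AdjoinRoot (f.map (algebraMap A K)))
      (scMap hg z)) ^ ℓ := by
    rw [← h1, ← WithZero.exp_nsmul]
    congr 1
    simp
  have h3 := dvd_of_exp_eq_pow h2
  have h4 : ℓ ∣ 1 := (Nat.dvd_add_right (dvd_mul_of_dvd_right h3 _)).mp hj
  exact hp.out.one_lt.ne' (Nat.dvd_one.mp h4)

/-- The conclusion: the Mordell-Weil group modulo `φ` is generated by the class of the point
`(a, b)`, the Tate-Shafarevich group has no `ℓ`-torsion. -/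
def Concl (k : Type u) {K : Type v} [Field k] [Field K] [Algebra k K] (ℓ : ℕ) [Fact ℓ.Prime]
    {ζ : K} (hζ : IsPrimitiveRoot ζ ℓ) (g : K[X]) [Good ℓ g] (a b : K) : Prop :=
  b ≠ 0 ∧ b ^ ℓ = g.eval a ∧ ∃ (D : Dv ℓ (g.map (algebraMap K (Sep K)))) (P : Jac ℓ g K),
    D.1 = ptS ℓ (algebraMap K (Sep K) a)
      (lin (algebraMap K (Sep K) ζ) (algebraMap K (Sep K) b) 0) ∧
    P = Additive.ofMul (pcl D) ∧ (∀ σ, act ℓ g K σ P = P) ∧ (∀ n : ℕ, n ≠ 0 → n • P ≠ 0) ∧
    (∀ s : Jac ℓ g K, (∀ σ, act ℓ g K σ s = s) → s - tauJ g K hζ s ≠ P) ∧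
    (∀ t : Jac ℓ g K, (∀ σ, act ℓ g K σ t = t) → ∃ (s : Jac ℓ g K) (i : ℕ),
      (∀ σ, act ℓ g K σ s = s) ∧ t + i • P = s - tauJ g K hζ s) ∧
    (∀ t : Jac ℓ g K, (∀ σ, act ℓ g K σ t = t) → ℓ • t = 0 → t = 0) ∧
    ∀ ξ ∈ Sha k ℓ g, ℓ • ξ = 0 → ξ = 0

include halg hf hsep hcop hg₂ hg₂m hg₂n in
/-- The twist with a point. -/
theorem rank_at {ζ : k} (hζ : IsPrimitiveRoot ζ ℓ) {w c : A} (hw0 : w ≠ 0) {j : ℕ}
    (hj : ℓ ∣ f.natDegree * j + 1) {g : K[X]}
    (hg : g = (f.map (algebraMap A K)).scaleRoots (algebraMap A K (dd f w c ^ j * w)))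
    (M : Finset (AdjoinRoot f))
    (hM : ∀ m : AdjoinRoot (f.map (algebraMap A K)), m ≠ 0 →
      (∀ P : HeightOneSpectrum (AdjoinRoot f), ∃ z : ℤᵐ⁰,
        P.valuation (AdjoinRoot (f.map (algebraMap A K))) m = z ^ ℓ) →
      (∃ r : K, Algebra.norm K m = r ^ ℓ) → (∃ z, m = z ^ ℓ) ∨
        ∃ m₀ ∈ M, ∃ z, z ≠ 0 ∧ m = algebraMap (AdjoinRoot f) _ m₀ * z ^ ℓ)
    (hmax : (Ideal.span {AdjoinRoot.of f w}).IsMaximal)
    (hMmod : ∀ m ∈ M, ¬ ∃ b : AdjoinRoot f, m - b ^ ℓ ∈ Ideal.span {AdjoinRoot.of f w})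
    (hξ : (Ideal.span {AdjoinRoot.of g₂ (xi f w c)}).IsMaximal)
    {ζK : K} (hζK : IsPrimitiveRoot ζK ℓ) (hζζ : algebraMap k K ζ = ζK) :
    ∃ _ : Good ℓ g, ∀ N : ℕ, f.natDegree * j + 1 = ℓ * N → Concl k ℓ hζK g
      (algebraMap A K (dd f w c ^ j * (c * w + 1))) (algebraMap A K (dd f w c) ^ N) := by
  have hℓ := hp.out
  have hcomap := comap_span halg hf hw0
  have hint : Algebra.IsIntegral A (AdjoinRoot f) := by
    have := (AdjoinRoot.powerBasis' hf).finite
    infer_instance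
  have hAmax : (Ideal.span {w}).IsMaximal := by
    rw [← hcomap]
    exact Ideal.isMaximal_comap_of_isIntegral_of_isMaximal _
  have hwu : ¬ IsUnit w := by
    rw [← Ideal.span_singleton_eq_top]
    exact hAmax.ne_top
  obtain ⟨p, P₁, P₂, H⟩ := exists_twoPrimes halg hf hsep hg₂ hg₂m hg₂n hwu hξ
  have hfKm : (f.map (algebraMap A K)).Monic := hf.map _
  have hwK : algebraMap A K w ≠ 0 := by rwa [Ne, IsFractionRing.to_map_eq_zero_iff]
  have hDK : algebraMap A K (dd f w c) ≠ 0 := by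
    rw [Ne, IsFractionRing.to_map_eq_zero_iff]
    exact H.hD
  have hwjK : algebraMap A K (dd f w c ^ j * w) ≠ 0 := by
    rw [Ne, IsFractionRing.to_map_eq_zero_iff]
    exact mul_ne_zero (pow_ne_zero _ H.hD) hw0
  -- `g` is good
  have hgm : g.Monic := by
    rw [hg, monic_scaleRoots_iff]
    exact hfKm
  have hgdom : IsDomain (AdjoinRoot g) := (scEquiv hg (mul_inv_cancel₀ hwjK)).toMulEquiv.isDomain _
  have hgirr : Irreducible g := by
    have h1 : (Ideal.span {g}).IsPrime := by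
      have : IsDomain (K[X] ⧸ Ideal.span {g}) := ‹IsDomain (AdjoinRoot g)›
      exact (Ideal.Quotient.isDomain_iff_prime _).mp this
    exact ((Ideal.span_singleton_prime hgm.ne_zero).mp h1).irreducible
  have hgood : Good ℓ g := by
    refine ⟨hgm, ?_, ?_⟩
    · have h1 := separable_scaleRoots (hsep.map (f := algebraMap A K)) hwjK hirr.out (by
        rw [← hg]; exact hgirr)
      rw [hg]
      exact h1
    · rw [hg, natDegree_scaleRoots, hf.natDegree_map]
      exact hcop
  refine ⟨hgood, fun N hN => ?_⟩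
  -- the point
  obtain ⟨a, ha⟩ : ∃ a : K, a = algebraMap A K (dd f w c ^ j * (c * w + 1)) := ⟨_, rfl⟩
  obtain ⟨b, hb⟩ : ∃ b : K, b = algebraMap A K (dd f w c) ^ N := ⟨_, rfl⟩
  have hb0 : b ≠ 0 := by
    rw [hb]
    exact pow_ne_zero _ hDK
  have hab : b ^ ℓ = g.eval a := by
    have h1 := norm_of_sub_root hgm a
    rw [← h1, ← norm_scMap hwjK hg, ha, scMap_mu, norm_mu hf hwK hN, hb]
  obtain ⟨D, hD, hP, hkum⟩ := exists_kumData hζK g hb0 hab
  have hcore : CoreP k hζK g (Additive.ofMul (pcl D)) := by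
    apply coreP k hζK g hkum hgirr
    intro m hm hr hloc
    rw [ha]
    exact sel_at halg hf hsep hcop hζ hw0 hj hg M hM hmax hMmod H hζK hζζ m hm hr hloc
  have hndiv : ∀ s : Jac ℓ g K, (∀ σ, act ℓ g K σ s = s) →
      s - tauJ g K hζK s ≠ Additive.ofMul (pcl D) := by
    intro s hs hsP
    apply not_pow_at hj hg H
    obtain ⟨z, hz⟩ := hkum.isPow hζK hs hsP
    rw [ha] at hz
    exact ⟨z, hz⟩
  rw [← ha, ← hb]
  exact ⟨hb0, hab, D, Additive.ofMul (pcl D), hD, rfl, hP, fun n hn => nsmul_ne_zero_of_not_phi hζK hgirr hP hndiv hn,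
    hndiv, hcore.gen, fun t ht h => eq_zero_of_ell hζK hgirr ht h, hcore.sha⟩

end At

end Pool.Agent.MP1bdb59C
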