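import Mathlib
import Pool.Agent.MP1bdb59P.Index
import Pool.Agent.MP1bdb59P.Tw
import Pool.Agent.MP1bdb59C.BC

/-!
# The index of `ℓ J(K)` in `J(K)`: descent from `K(ζ)` to `K`
-/

open Polynomial Finset

noncomputable section

open scoped Classical

namespace Pool.Agent.MP1bdb59C

open Pool.Agent.MP1bdb59 (Sep AbsGal emb resGal emb_resGal continuous_resGal Place Completion)

universe u v

section PicTau

variable {A : Type u} [CommRing A] {A' : Type v} [CommRing A'] {ℓ : ℕ}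

/-- `y ↦ ζ y` and base change on the Picard group. -/
lemma pic_tau (φ : A →+* A') {g : A[X]} {g' : A'[X]} (h : g.map φ = g') {ζ : A} {ζ' : A'}
    (hζ : ζ ^ ℓ = 1) (hζ' : ζ' ^ ℓ = 1) (hφ : φ ζ = ζ') (t : CommRing.Pic (CoordRing ℓ g)) :
    CommRing.Pic.mapRingHom (coordMap ℓ φ h) (CommRing.Pic.mapRingHom (tau hζ g) t) =
      CommRing.Pic.mapRingHom (tau hζ' g') (CommRing.Pic.mapRingHom (coordMap ℓ φ h) t) := by
  rw [CommRing.Pic.mapRingHom_mapRingHom, CommRing.Pic.mapRingHom_mapRingHom]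
  congr 2
  exact RingHom.ext fun z => coordMap_tau φ h hζ hζ' hφ z

lemma pic_tau_pow {g : A[X]} {ζ : A} (hζ : ζ ^ ℓ = 1) (c : ℕ) {ξ : A} (hξ : ξ ^ ℓ = 1)
    (h : ξ = ζ ^ c) (t : CommRing.Pic (CoordRing ℓ g)) :
    CommRing.Pic.mapRingHom (tau hξ g) t = (CommRing.Pic.mapRingHom (tau hζ g))^[c] t := by
  induction c generalizing ξ with
  | zero =>
    rw [Function.iterate_zero, id]
    have h1 : tau hξ g = RingHom.id _ := by
      apply ringHom_ext
      · intro p
        rw [tau_of, RingHom.id_apply]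
      · rw [tau_yy, h, pow_zero, C_1, map_one, one_mul, RingHom.id_apply]
    rw [h1, CommRing.Pic.mapRingHom_id]
    rfl
  | succ c ih =>
    have h0 : (ζ ^ c) ^ ℓ = 1 := by rw [← pow_mul, mul_comm, pow_mul, hζ, one_pow]
    rw [Function.iterate_succ_apply', ← ih h0 rfl, CommRing.Pic.mapRingHom_mapRingHom]
    congr 2
    apply ringHom_ext
    · intro p
      rw [RingHom.comp_apply, tau_of, tau_of, tau_of]
    · rw [RingHom.comp_apply, tau_yy, tau_yy, map_mul, tau_of, tau_yy, h, ← mul_assoc, ← map_mul,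
        ← C_mul, ← pow_succ]

end PicTau

section Rot

variable {K : Type u} [Field K] {ℓ : ℕ} [hp : Fact ℓ.Prime] (g : K[X])

/-- The automorphism `y ↦ z y` of the Jacobian. -/
def rotJ {z : Sep K} (hz : z ^ ℓ = 1) : AddMonoid.End (Jac ℓ g K) :=
  (CommRing.Pic.mapRingHom (tau hz (g.map (algebraMap K (Sep K)))) :
    CommRing.Pic (CoordRing ℓ (g.map (algebraMap K (Sep K)))) →* _).toAdditive

omit hp in
lemma rotJ_apply {z : Sep K} (hz : z ^ ℓ = 1) (t : Jac ℓ g K) :
    (rotJ g hz t).toMul = CommRing.Pic.mapRingHom (tau hz (g.map (algebraMap K (Sep K))))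
      t.toMul := rfl

omit hp in
lemma rotJ_pow {z : Sep K} (hz : z ^ ℓ = 1) (c : ℕ) {w : Sep K} (hw : w ^ ℓ = 1) (h : w = z ^ c) :
    rotJ g hw = rotJ g hz ^ c := by
  refine DFunLike.ext _ _ fun t => ?_
  apply Additive.toMul.injective
  rw [rotJ_apply, pic_tau_pow hz c hw h]
  induction c generalizing w with
  | zero => rfl
  | succ c ih =>
    have h0 : (z ^ c) ^ ℓ = 1 := by rw [← pow_mul, mul_comm, pow_mul, hz, one_pow]
    rw [Function.iterate_succ_apply', ih h0 rfl, pow_succ', ← rotJ_apply]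
    rfl

omit hp in
/-- the Galois action and the rotation -/
lemma act_rotJ {z : Sep K} (hz : z ^ ℓ = 1) (σ : AbsGal K) (c : ℕ) (h : σ z = z ^ c)
    (t : Jac ℓ g K) : act ℓ g K σ (rotJ g hz t) = (rotJ g hz ^ c) (act ℓ g K σ t) := by
  have hw : (σ z) ^ ℓ = 1 := by rw [← map_pow, hz, map_one]
  rw [← rotJ_pow g hz c hw h]
  exact pic_tau (σ : Sep K →+* Sep K) (map_sigma g σ) hz hw rfl t.toMul

end Rot

section Fields

variable {K K' : Type*} [Field K] [Field K'] [Algebra K K'] [Algebra.IsSeparable K K'] {ℓ : ℕ}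
  [hp : Fact ℓ.Prime] {ζ : K'} (hζ : IsPrimitiveRoot ζ ℓ) (htop : Algebra.adjoin K {ζ} = ⊤)

include hp in
variable (K) in
/-- the root of unity in the separable closure of `K` -/
def zs (ζ : K') : Sep K := (BC.embEquiv K K').symm (algebraMap K' (Sep K') ζ)

omit hp in
lemma emb_zs (ζ : K') : emb K K' (zs K ζ) = algebraMap K' (Sep K') ζ :=
  (BC.embEquiv K K').apply_symm_apply _

include hζ in
omit hp in
lemma zs_prim : IsPrimitiveRoot (zs K ζ) ℓ := by
  apply IsPrimitiveRoot.of_map_of_injective (f := emb K K') _ (emb K K').toRingHom.injective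
  rw [emb_zs]
  exact hζ.map_of_injective (algebraMap K' (Sep K')).injective

include htop in
lemma ker_eq : ((zs_prim (K := K) hζ).autToPow K).ker = (resGal K K').range := by
  rw [BC.range_resGal]
  ext σ
  have h1 : σ ∈ ((zs_prim (K := K) hζ).autToPow K).ker ↔ σ (zs K ζ) = zs K ζ := by
    have h2 := (zs_prim (K := K) hζ).autToPow_spec K σ
    rw [MonoidHom.mem_ker]
    constructor
    · intro h
      rw [h, Units.val_one, ZMod.val_one, pow_one] at h2
      exact h2.symm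
    · intro h
      rw [h] at h2
      have h3 : (zs K ζ) ^ (((zs_prim (K := K) hζ).autToPow K σ : ZMod ℓ).val) =
          (zs K ζ) ^ 1 := by rw [h2, pow_one]
      have h4 := (zs_prim (K := K) hζ).pow_inj (ZMod.val_lt _) hp.out.one_lt h3
      apply Units.ext
      apply ZMod.val_injective ℓ
      rw [h4, Units.val_one, ZMod.val_one]
  rw [h1, IntermediateField.mem_fixingSubgroup_iff]
  constructor
  · intro h
    have h2 : ((σ : Sep K →ₐ[K] Sep K).comp (((BC.embEquiv K K').symm : Sep K' →ₐ[K] Sep K).comp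
        (IsScalarTower.toAlgHom K K' (Sep K')))) =
        (((BC.embEquiv K K').symm : Sep K' →ₐ[K] Sep K).comp
        (IsScalarTower.toAlgHom K K' (Sep K'))) := by
      apply AlgHom.ext_of_adjoin_eq_top htop
      intro x hx
      rw [Set.mem_singleton_iff] at hx
      subst hx
      exact h
    rintro _ ⟨y, rfl⟩
    exact DFunLike.congr_fun h2 y
  · intro h
    exact h _ ⟨ζ, rfl⟩

end Fields

section Main

variable {k K k' K' : Type*} [Field k] [Field K] [Algebra k K] [Field k'] [Field K']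
  [Algebra k' K'] [Algebra K K'] [Algebra k k'] [Algebra k K'] [IsScalarTower k K K']
  [IsScalarTower k k' K'] [FiniteDimensional K K'] [Algebra.IsSeparable K K'] {ℓ : ℕ}
  [hp : Fact ℓ.Prime]

open BC in
/-- The Tate-Shafarevich group under an extension of degree prime to `ℓ`. -/
theorem descend_sha (hd : ¬ ℓ ∣ Module.finrank K K') (f : K[X])
    (h1 : ∀ ξ ∈ Sha k' ℓ (f.map (algebraMap K K')), ℓ • ξ = 0 → ξ = 0) :
    ∀ ξ ∈ Sha k ℓ f, ℓ • ξ = 0 → ξ = 0 := by
  have hidx := index_range K K'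
  have hpos : 0 < Module.finrank K K' := Module.finrank_pos
  have hfin : (resGal K K').range.FiniteIndex := ⟨by rw [hidx]; exact hpos.ne'⟩
  have hcop : Nat.Coprime ℓ (Module.finrank K K') := (Nat.Prime.coprime_iff_not_dvd hp.out).mpr hd
  have hbij := Phi_bijective (K' := K') ℓ f
  rintro _ ⟨⟨c, ⟨hcl, hc⟩, rfl⟩, hv⟩ hℓ
  have hv' : ∀ v : Place k K, ∃ P : Jac ℓ f (Completion v), ∀ σ : AbsGal (Completion v),
      embJac ℓ f (Completion v) (c (resGal K (Completion v) σ)) =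
        act ℓ f (Completion v) σ P - P := by
    intro v
    have h3 : res ℓ f (Completion v) (cls ℓ f K c) = 0 :=
      (AddSubgroup.mem_iInf.mp hv) v
    rw [res_cls, cls_eq_zero_iff] at h3
    exact h3
  let c' : AbsGal K' → Jac ℓ (f.map (algebraMap K K')) K' :=
    fun σ => Phi K' ℓ f (c (resGal K K' σ))
  have hc' : IsCocycle ℓ (f.map (algebraMap K K')) K' c' := by
    refine ⟨(hcl.comp_continuous (continuous_resGal K K')).comp (Phi K' ℓ f), fun σ τ => ?_⟩
    simp only [c', map_mul, hc, map_add, act_Phi]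
  have hmem : cls ℓ (f.map (algebraMap K K')) K' c' ∈ Sha k' ℓ (f.map (algebraMap K K')) := by
    refine ⟨⟨c', hc', rfl⟩, AddSubgroup.mem_iInf.mpr fun v' => ?_⟩
    rw [AddMonoidHom.mem_ker, res_cls, cls_eq_zero_iff]
    exact sha_transfer ℓ f c hc hv' v'
  have hℓ' : ℓ • cls ℓ (f.map (algebraMap K K')) K' c' = 0 := by
    rw [← cls_nsmul, cls_eq_zero_iff] at hℓ ⊢
    obtain ⟨P, hP⟩ := hℓ
    refine ⟨Phi K' ℓ f P, fun σ => ?_⟩
    have h3 := hP (resGal K K' σ)
    rw [Pi.smul_apply] at h3 ⊢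
    simp only [c']
    rw [← map_nsmul, h3, map_sub, act_Phi]
  have h4 := h1 _ hmem hℓ'
  rw [cls_eq_zero_iff] at h4
  obtain ⟨P', hP'⟩ := h4
  obtain ⟨P₀, rfl⟩ := hbij.2 P'
  have h5 : ∀ h ∈ (resGal K K').range, c h = act ℓ f K h P₀ - P₀ := by
    rintro _ ⟨σ, rfl⟩
    apply hbij.1
    rw [map_sub, ← act_Phi]
    exact hP' σ
  obtain ⟨S, hS⟩ := descent_triv (act ℓ f K) (BC.act_mul ℓ f K) (resGal K K').range c hc P₀ h5
  rw [hidx] at hS
  have h6 : Module.finrank K K' • cls ℓ f K c = 0 := by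
    rw [← cls_nsmul, cls_eq_zero_iff]
    exact ⟨S, hS⟩
  have h7 := Nat.dvd_gcd (addOrderOf_dvd_of_nsmul_eq_zero hℓ)
    (addOrderOf_dvd_of_nsmul_eq_zero h6)
  rw [Nat.Coprime.gcd_eq_one hcop, Nat.dvd_one, AddMonoid.addOrderOf_eq_one_iff] at h7
  exact h7

variable {ζ : K'} (hζ : IsPrimitiveRoot ζ ℓ) (htop : Algebra.adjoin K {ζ} = ⊤) (g : K[X])
  [hg : Good ℓ g]

/-- the class of a point under base change -/
lemma bcU_pt {F F' : Type*} [Field F] [Field F'] {f : F[X]} {f' : F'[X]} [Good ℓ f] [Good ℓ f']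
    (φ : F →+* F') (h : f.map φ = f') {a b z : F} (z' : F') {D : Dv ℓ f}
    (hD : D.1 = ptS ℓ a (lin z b 0)) : (bcU φ h D).1 = ptS ℓ (φ a) (lin z' (φ b) 0) := by
  rw [bcU_val, hD]
  unfold ptS
  rw [Submodule.span_insert, push_sup, push_span_singleton, push_span_singleton, bcM_pol, bcM_alg,
    ← Submodule.span_insert, Polynomial.map_sub, map_X, map_C]
  congr 3
  unfold lin
  rw [map_sub, map_mul, coordMap_of, coordMap_of, coordMap_yy, map_C, map_C, pow_zero, pow_zero,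
    map_one]

omit [FiniteDimensional K K'] in
lemma Phi_rotJ (t : Jac ℓ g K) :
    BC.Phi K' ℓ g (rotJ g (zs_prim (K := K) hζ).pow_eq_one t) =
      tauJ (g.map (algebraMap K K')) K' hζ (BC.Phi K' ℓ g t) := by
  apply Additive.toMul.injective
  have e1 : ∀ x : Jac ℓ g K, (BC.Phi K' ℓ g x).toMul = CommRing.Pic.mapRingHom
      (coordMap ℓ (emb K K' : Sep K →+* Sep K') (BC.map_emb' K' g)) x.toMul := fun x =>
    picMap_apply _ _ x
  rw [tauJ_apply, e1, e1, rotJ_apply]
  unfold tauPic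
  exact pic_tau (ℓ := ℓ) (emb K K' : Sep K →+* Sep K') (BC.map_emb' K' g)
    (zs_prim (K := K) hζ).pow_eq_one (prim_map (Sep K') hζ).pow_eq_one (emb_zs ζ) t.toMul

omit [FiniteDimensional K K'] in
lemma Phi_rotJ_pow (i : ℕ) (t : Jac ℓ g K) :
    BC.Phi K' ℓ g ((rotJ g (zs_prim (K := K) hζ).pow_eq_one ^ i) t) =
      (tauJ (g.map (algebraMap K K')) K' hζ ^ i) (BC.Phi K' ℓ g t) := by
  induction i generalizing t with
  | zero => rfl
  | succ i ih =>
    rw [pow_succ, pow_succ]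
    change BC.Phi K' ℓ g ((rotJ g (zs_prim (K := K) hζ).pow_eq_one ^ i)
      (rotJ g (zs_prim (K := K) hζ).pow_eq_one t)) =
      (tauJ (g.map (algebraMap K K')) K' hζ ^ i) (tauJ (g.map (algebraMap K K')) K' hζ
        (BC.Phi K' ℓ g t))
    rw [ih, Phi_rotJ]

omit [FiniteDimensional K K'] in
lemma sum_rotJ : ∑ i ∈ range ℓ, (rotJ g (zs_prim (K := K) hζ).pow_eq_one) ^ i = 0 := by
  refine DFunLike.ext _ _ fun t => ?_
  apply (BC.Phi_bijective (K' := K') ℓ g).1
  rw [end_sum_apply, map_sum]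
  refine (Finset.sum_congr rfl fun i _ => Phi_rotJ_pow hζ g i t).trans ?_
  have h1 := DFunLike.congr_fun (sum_tauJ (g.map (algebraMap K K')) K' hζ) (BC.Phi K' ℓ g t)
  rw [end_sum_apply] at h1
  exact h1.trans (map_zero (BC.Phi K' ℓ g)).symm

include htop in
omit [FiniteDimensional K K'] hg in
lemma mem_inv_iff (x : Jac ℓ g K) :
    x ∈ Idx.inv (act ℓ g K) ((zs_prim (K := K) hζ).autToPow K).ker ↔
      ∀ σ : AbsGal K', act ℓ (g.map (algebraMap K K')) K' σ (BC.Phi K' ℓ g x) =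
        BC.Phi K' ℓ g x := by
  rw [ker_eq hζ htop, Idx.mem_inv]
  constructor
  · intro h σ
    rw [BC.act_Phi, h _ ⟨σ, rfl⟩]
  · rintro h _ ⟨σ, rfl⟩
    apply (BC.Phi_bijective (K' := K') ℓ g).1
    rw [← BC.act_Phi, h]

include htop in
omit [FiniteDimensional K K'] in
theorem data_of_concl {a b : K} (hC : Concl k' ℓ hζ (g.map (algebraMap K K')) (algebraMap K K' a)
    (algebraMap K K' b)) :
    ∃ P, Idx.Data (act ℓ g K) (rotJ g (zs_prim (K := K) hζ).pow_eq_one)
      ((zs_prim (K := K) hζ).autToPow K) P := by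
  obtain ⟨hb, hab, D, P, hD, hP, h1, h2, h3, h4, h5, -⟩ := hC
  have hb0 : b ≠ 0 := by rwa [Ne, map_eq_zero] at hb
  have hab0 : b ^ ℓ = g.eval a := by
    apply (algebraMap K K').injective
    rw [map_pow, hab, eval_map_apply]
  have hbij := BC.Phi_bijective (K' := K') ℓ g
  obtain ⟨D₀, hD₀, -⟩ := exists_pt (f := g.map (algebraMap K (Sep K))) (zs_prim (K := K) hζ)
    (algebraMap K (Sep K) a) (b := algebraMap K (Sep K) b) (by rwa [Ne, map_eq_zero]) (by
      rw [eval_map_apply, ← hab0, map_pow])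
  have hPhi : BC.Phi K' ℓ g (Additive.ofMul (pcl D₀)) = P := by
    rw [hP]
    apply Additive.toMul.injective
    have h6 : bcU (emb K K' : Sep K →+* Sep K') (BC.map_emb' K' g) D₀ = D := by
      apply Units.ext
      rw [bcU_pt _ _ (algebraMap K' (Sep K') ζ) hD₀, hD]
      have h7 : ∀ x : K, (emb K K' : Sep K →+* Sep K') (algebraMap K (Sep K) x) =
          algebraMap K' (Sep K') (algebraMap K K' x) := by
        intro x
        rw [← IsScalarTower.algebraMap_apply K K' (Sep K')]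
        exact (emb K K').commutes x
      rw [h7, h7]
    have e1 : (BC.Phi K' ℓ g (Additive.ofMul (pcl D₀))).toMul = CommRing.Pic.mapRingHom
        (coordMap ℓ (emb K K' : Sep K →+* Sep K') (BC.map_emb' K' g)) (pcl D₀) :=
      picMap_apply _ _ _
    rw [e1, mapRingHom_pcl, h6]
    rfl
  refine ⟨Additive.ofMul (pcl D₀), act_mul g K, ?_, sum_rotJ hζ g, ?_, ?_, ?_, ?_⟩
  · intro σ x
    exact act_rotJ g (zs_prim (K := K) hζ).pow_eq_one σ _
      ((zs_prim (K := K) hζ).autToPow_spec K σ).symm x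
  · intro x hx hx0
    apply hbij.1
    rw [map_zero]
    refine h5 _ ((mem_inv_iff hζ htop g x).mp hx) ?_
    rw [← map_nsmul, hx0, map_zero]
  · intro σ
    apply Additive.toMul.injective
    have h6 : bcU (σ : Sep K →+* Sep K) (map_sigma g σ) D₀ = D₀ := by
      apply Units.ext
      rw [bcU_pt _ _ (zs K ζ) hD₀, hD₀]
      have h7 : ∀ x : K, (σ : Sep K →+* Sep K) (algebraMap K (Sep K) x) =
          algebraMap K (Sep K) x := fun x => σ.commutes x
      rw [h7, h7]
    have e1 : (act ℓ g K σ (Additive.ofMul (pcl D₀))).toMul = CommRing.Pic.mapRingHom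
        (coordMap ℓ (σ : Sep K →+* Sep K) (map_sigma g σ)) (pcl D₀) := picMap_apply _ _ _
    rw [e1, mapRingHom_pcl, h6]
    rfl
  · intro s hs h
    apply h3 (BC.Phi K' ℓ g s) ((mem_inv_iff hζ htop g s).mp hs)
    rw [← Phi_rotJ, ← map_sub, h, hPhi]
  · intro t ht
    obtain ⟨s, i, hs, hi⟩ := h4 (BC.Phi K' ℓ g t) ((mem_inv_iff hζ htop g t).mp ht)
    obtain ⟨s₀, rfl⟩ := hbij.2 s
    refine ⟨s₀, (mem_inv_iff hζ htop g s₀).mpr hs, i, ?_⟩
    apply hbij.1
    rw [map_sub, Phi_rotJ, map_add, map_nsmul, hPhi]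
    exact hi

include htop in
theorem descend_rank {a b : K} (hC : Concl k' ℓ hζ (g.map (algebraMap K K')) (algebraMap K K' a)
    (algebraMap K K' b)) :
    (∀ ξ ∈ Sha k ℓ g, ℓ • ξ = 0 → ξ = 0) ∧
      (∀ t : Jac ℓ g K, (∀ σ, act ℓ g K σ t = t) → ℓ • t = 0 → t = 0) ∧
      ((Idx.inv (act ℓ g K) ⊤).map (nsmulAddMonoidHom ℓ)).relIndex (Idx.inv (act ℓ g K) ⊤) =
        ℓ ^ ((ℓ - 1) / Module.finrank K K') := by
  obtain ⟨P, d⟩ := data_of_concl hζ htop g hC
  have hidx : ((zs_prim (K := K) hζ).autToPow K).ker.index = Module.finrank K K' := by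
    rw [ker_eq hζ htop, BC.index_range]
  refine ⟨descend_sha (k' := k') (K' := K') (by rw [← hidx]; exact Idx.Data.not_dvd_index) g ?_,
    ?_, ?_⟩
  · obtain ⟨-, -, D, P', -, -, -, -, -, -, -, h6⟩ := hC
    exact h6
  · intro t ht
    exact d.tor t fun σ _ => ht σ
  · rw [← hidx]
    exact d.relIndex_inv

end Main

end Pool.Agent.MP1bdb59C
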