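import Mathlib
import Pool.Agent.MP1bdb59C.HilbAll

/-!
# Hilbert specialisation for an arbitrary nonconstant function
-/

open Polynomial

noncomputable section

open scoped Classical

namespace Pool.Agent.MP1bdb59C

universe u v

section Alg

variable {k : Type*} {L : Type*} [Field k] [Field L] [Algebra k L]

lemma finite_ratFunc {h : L} (htr : Transcendental k h)
    [FiniteDimensional (IntermediateField.adjoin k {h}) L] [Algebra k[X] L]
    [IsScalarTower k k[X] L] [Algebra (RatFunc k) L] [IsScalarTower k[X] (RatFunc k) L]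
    (hX : algebraMap k[X] L X = h) : FiniteDimensional (RatFunc k) L := by
  have hcomp : (algebraMap (RatFunc k) L) =
      (algebraMap (IntermediateField.adjoin k {h}) L).comp
        (RatFunc.algEquivOfTranscendental h htr).toRingEquiv.toRingHom := by
    apply IsLocalization.ringHom_ext (nonZeroDivisors k[X])
    apply Polynomial.ringHom_ext
    · intro c
      rw [RingHom.comp_apply, RingHom.comp_apply, RingHom.comp_apply]
      have h1 : (RatFunc.algEquivOfTranscendental h htr).toRingEquiv.toRingHom
          (algebraMap k[X] (RatFunc k) (C c)) = algebraMap k _ c := by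
        have h2 : algebraMap k[X] (RatFunc k) (C c) = algebraMap k (RatFunc k) c := by
          rw [IsScalarTower.algebraMap_apply k k[X] (RatFunc k)]
          rfl
        rw [h2]
        exact (RatFunc.algEquivOfTranscendental h htr).commutes c
      rw [h1, ← IsScalarTower.algebraMap_apply k[X] (RatFunc k) L, ← Polynomial.algebraMap_eq,
        ← IsScalarTower.algebraMap_apply, ← IsScalarTower.algebraMap_apply]
    · rw [RingHom.comp_apply, RingHom.comp_apply, RingHom.comp_apply,
        ← IsScalarTower.algebraMap_apply k[X] (RatFunc k) L]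
      have h1 : (RatFunc.algEquivOfTranscendental h htr).toRingEquiv.toRingHom
          (algebraMap k[X] (RatFunc k) X) =
          aeval (IntermediateField.AdjoinSimple.gen k h) (X : k[X]) :=
        RatFunc.algEquivOfTranscendental_algebraMap h htr X
      rw [h1, aeval_X, IntermediateField.AdjoinSimple.algebraMap_gen, hX]
  refine Module.Finite.of_equiv_equiv
    (RatFunc.algEquivOfTranscendental h htr).symm.toRingEquiv (RingEquiv.refl L) ?_
  ext x
  obtain ⟨u, rfl⟩ := (RatFunc.algEquivOfTranscendental h htr).surjective x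
  have h1 := RingHom.congr_fun hcomp u
  rw [RingHom.comp_apply] at h1
  rw [RingHom.comp_apply, RingHom.comp_apply]
  have h2 : ((RatFunc.algEquivOfTranscendental h htr).symm.toRingEquiv :
      IntermediateField.adjoin k {h} →+* RatFunc k)
      (RatFunc.algEquivOfTranscendental h htr u) = u :=
    (RatFunc.algEquivOfTranscendental h htr).symm_apply_apply u
  rw [h2, h1]
  rfl

/-- Exchange. -/
lemma finite_adjoin_exchange {h ψ : L} (htr : Transcendental k h) (hψ : Transcendental k ψ)
    [FiniteDimensional (IntermediateField.adjoin k {h}) L] :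
    FiniteDimensional (IntermediateField.adjoin k {ψ}) L := by
  -- `ψ` is algebraic over `k[h]`
  have h1 : IsAlgebraic (IntermediateField.adjoin k {h}) ψ := Algebra.IsAlgebraic.isAlgebraic ψ
  have h2 : IsAlgebraic (Algebra.adjoin k {h}) ψ :=
    IntermediateField.isAlgebraic_adjoin_iff.mp h1
  have h3 : IsAlgebraic (Algebra.adjoin k {ψ}) h := IsAlgebraic.adjoin_singleton htr hψ h2
  have h4 : IsAlgebraic (IntermediateField.adjoin k {ψ}) h :=
    IntermediateField.isAlgebraic_adjoin_iff.mpr h3
  have i1 : FiniteDimensional (IntermediateField.adjoin (IntermediateField.adjoin k {ψ})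
      {algebraMap L L h}) L := finite_adjoin_ext (k := k) h
  have i2 : FiniteDimensional (IntermediateField.adjoin k {ψ})
      (IntermediateField.adjoin (IntermediateField.adjoin k {ψ}) {algebraMap L L h}) :=
    IntermediateField.adjoin.finiteDimensional h4.isIntegral
  exact Module.Finite.trans
    (IntermediateField.adjoin (IntermediateField.adjoin k {ψ}) {algebraMap L L h}) L

end Alg

section Spec

variable {k₀ k R L : Type*} [Field k₀] [Field k] [Algebra k₀ k] [CharZero k] [CommRing R]
  [IsDomain R] [Algebra k R] [Algebra.FiniteType k R] [Field L] [Algebra R L]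
  [IsFractionRing R L] [Algebra k L] [IsScalarTower k R L]

omit [CharZero k] [IsDomain R] [Algebra k L] [IsScalarTower k R L] in
lemma exists_den_ft [Algebra k[X] R] [Algebra k[X] L] [IsScalarTower k[X] R L]
    [IsScalarTower k k[X] R]
    [Algebra (RatFunc k) L] [IsScalarTower k[X] (RatFunc k) L] [FiniteDimensional (RatFunc k) L] :
    ∃ s : k[X], s ≠ 0 ∧ ∀ a : R, ∃ N : ℕ, IsIntegral k[X] (algebraMap k[X] R s ^ N * a) := by
  obtain ⟨S, hS⟩ := (Algebra.FiniteType.out : (⊤ : Subalgebra k R).FG)
  obtain ⟨s, hs, hsint⟩ := exists_integral_multiples k[X] (RatFunc k) (S.image (algebraMap R L))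
  refine ⟨s, hs, fun a => ?_⟩
  have ha : a ∈ Algebra.adjoin k (S : Set R) := by
    rw [hS]
    exact Algebra.mem_top
  have hsi : IsIntegral k[X] (algebraMap k[X] R s) := isIntegral_algebraMap
  induction ha using Algebra.adjoin_induction with
  | mem x hx =>
    refine ⟨1, ?_⟩
    have h1 := hsint (algebraMap R L x) (Finset.mem_image_of_mem _ hx)
    rw [Algebra.smul_def, IsScalarTower.algebraMap_apply k[X] R L, ← map_mul] at h1
    rw [pow_one]
    exact (isIntegral_algebraMap_iff (IsFractionRing.injective R L)).mp h1
  | algebraMap r =>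
    refine ⟨0, ?_⟩
    rw [pow_zero, one_mul, IsScalarTower.algebraMap_apply k k[X] R]
    exact isIntegral_algebraMap
  | add x y _ _ hx hy =>
    obtain ⟨N, hN⟩ := hx
    obtain ⟨M, hM⟩ := hy
    refine ⟨N + M, ?_⟩
    have h1 : algebraMap k[X] R s ^ (N + M) * (x + y) =
        algebraMap k[X] R s ^ M * (algebraMap k[X] R s ^ N * x) +
          algebraMap k[X] R s ^ N * (algebraMap k[X] R s ^ M * y) := by ring
    rw [h1]
    exact ((hsi.pow M).mul hN).add ((hsi.pow N).mul hM)
  | mul x y _ _ hx hy =>
    obtain ⟨N, hN⟩ := hx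
    obtain ⟨M, hM⟩ := hy
    refine ⟨N + M, ?_⟩
    have h1 : algebraMap k[X] R s ^ (N + M) * (x * y) =
        (algebraMap k[X] R s ^ N * x) * (algebraMap k[X] R s ^ M * y) := by ring
    rw [h1]
    exact hN.mul hM

/-- Hilbert specialisation for the function `ψ`. -/
theorem hilbert_psi (hk : HilbOver k₀ k) {h : L} (htr : Transcendental k h)
    [FiniteDimensional (IntermediateField.adjoin k {h}) L] {ψ : R} (hψ : Transcendental k ψ) :
    {c : k₀ | (Ideal.span {ψ - algebraMap k R (algebraMap k₀ k c)}).IsMaximal}.Infinite := by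
  have hinjR : Function.Injective (algebraMap R L) := IsFractionRing.injective R L
  have hψL : Transcendental k (algebraMap R L ψ) :=
    (transcendental_algebraMap_iff hinjR).mpr hψ
  have hfin : FiniteDimensional (IntermediateField.adjoin k {algebraMap R L ψ}) L :=
    finite_adjoin_exchange htr hψL
  have hinj : Function.Injective (aeval (algebraMap R L ψ) : k[X] →ₐ[k] L) :=
    transcendental_iff_injective.mp hψL
  let a0 : Algebra k[X] R := (aeval ψ : k[X] →ₐ[k] R).toRingHom.toAlgebra
  let a1 : Algebra k[X] L := (aeval (algebraMap R L ψ) : k[X] →ₐ[k] L).toRingHom.toAlgebra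
  let a2 : Algebra (RatFunc k) L :=
    (IsFractionRing.lift (K := RatFunc k)
      (g := (aeval (algebraMap R L ψ) : k[X] →ₐ[k] L).toRingHom) hinj).toAlgebra
  have t1 : IsScalarTower k[X] (RatFunc k) L := IsScalarTower.of_algebraMap_eq (fun p => by
    exact (IsFractionRing.lift_algebraMap hinj p).symm)
  have t2 : IsScalarTower k k[X] L := IsScalarTower.of_algebraMap_eq (fun c => by
    exact (aeval_C (R := k) (algebraMap R L ψ) c).symm)
  have t3 : IsScalarTower k k[X] R := IsScalarTower.of_algebraMap_eq (fun c => by
    exact (aeval_C (R := k) ψ c).symm)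
  have t4 : IsScalarTower k[X] R L := IsScalarTower.of_algebraMap_eq (fun p => by
    change aeval (algebraMap R L ψ) p = algebraMap R L (aeval ψ p)
    rw [aeval_algebraMap_apply])
  have hX : ∀ c : k, algebraMap k[X] R (X - C c) = ψ - algebraMap k R c := by
    intro c
    rw [map_sub]
    congr 1
    · exact aeval_X (R := k) ψ
    · exact aeval_C (R := k) ψ c
  have hfin' : FiniteDimensional (RatFunc k) L :=
    finite_ratFunc hψL (aeval_X (R := k) (algebraMap R L ψ))
  have hc1 : CharZero (RatFunc k) :=
    charZero_of_injective_algebraMap (algebraMap k (RatFunc k)).injective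
  have hsep : Algebra.IsSeparable (RatFunc k) L := inferInstance
  obtain ⟨s, hs, hint⟩ := exists_den_ft (k := k) (R := R) (L := L)
  have hbad : {c : k | s.eval c = 0}.Finite := by
    refine s.roots.toFinset.finite_toSet.subset fun c hc => ?_
    rw [Finset.mem_coe, Multiset.mem_toFinset, mem_roots hs]
    exact hc
  have hp2 : Fact (Nat.Prime 2) := ⟨Nat.prime_two⟩
  have hinf := hilbert_spec_over (O := R) (L := L) hk (ℓ := 2) (by simp) ∅
    (fun m hm => absurd hm (Finset.notMem_empty m)) _ hbad
  refine hinf.mono ?_
  rintro c ⟨hcs, hc⟩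
  have h1 := isMaximal_span L s hint hcs (fun 𝔪 h𝔪 hX => (hc 𝔪 h𝔪 hX).1)
  rw [hX] at h1
  exact h1

end Spec

end Pool.Agent.MP1bdb59C
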