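import Mathlib
import Pool.Agent.MP1bdb59P.Psi
import Pool.Agent.MP1bdb59P.Tw

/-!
# The primes `ξ` remain maximal for infinitely many parameters
-/

open Polynomial IsDedekindDomain

noncomputable section

open scoped Classical WithZero

namespace Pool.Agent.MP1bdb59C

universe u v

section Loc

/-- maximality and inversion of an element which is a unit modulo `ξ` -/
lemma isMaximal_span_of_loc {O R : Type*} [CommRing O] [CommRing R] [Algebra O R]
    (hinj : Function.Injective (algebraMap O R)) {w θ : O} {u : R}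
    (hu : algebraMap O R w * u = 1)
    (hloc : ∀ r : R, ∃ (N : ℕ) (y : O), algebraMap O R w ^ N * r = algebraMap O R y)
    (hmax : (Ideal.span {algebraMap O R θ - u}).IsMaximal) :
    (Ideal.span {1 - w * θ}).IsMaximal := by
  obtain ⟨𝔪, h𝔪⟩ : ∃ 𝔪, 𝔪 = Ideal.span {algebraMap O R θ - u} := ⟨_, rfl⟩
  rw [← h𝔪] at hmax
  let q : O →+* R ⧸ 𝔪 := (Ideal.Quotient.mk 𝔪).comp (algebraMap O R)
  have hu' : Ideal.Quotient.mk 𝔪 u = q θ := by
    symm
    change Ideal.Quotient.mk 𝔪 (algebraMap O R θ) = _
    rw [Ideal.Quotient.eq, h𝔪]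
    exact Ideal.mem_span_singleton_self _
  have hwθ : q w * q θ = 1 := by
    rw [← hu']
    change Ideal.Quotient.mk 𝔪 (algebraMap O R w) * _ = 1
    rw [← map_mul, hu, map_one]
  have hsurj : Function.Surjective q := by
    intro z
    obtain ⟨r, rfl⟩ := Ideal.Quotient.mk_surjective z
    obtain ⟨N, y, hy⟩ := hloc r
    refine ⟨y * θ ^ N, ?_⟩
    have h1 : q y = q w ^ N * Ideal.Quotient.mk 𝔪 r := by
      change Ideal.Quotient.mk 𝔪 (algebraMap O R y) =
        Ideal.Quotient.mk 𝔪 (algebraMap O R w) ^ N * _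
      rw [← hy, map_mul, map_pow]
    rw [map_mul, map_pow, h1, mul_right_comm, ← mul_pow, hwθ, one_pow, one_mul]
  have hker : RingHom.ker q = Ideal.span {1 - w * θ} := by
    apply le_antisymm
    · intro x hx
      have h1 : algebraMap O R x ∈ 𝔪 := Ideal.Quotient.eq_zero_iff_mem.mp hx
      rw [h𝔪] at h1
      obtain ⟨r, hr⟩ := Ideal.mem_span_singleton'.mp h1
      obtain ⟨N, y, hy⟩ := hloc r
      have h2 : w ^ (N + 1) * x = (w * θ - 1) * y := by
        apply hinj
        rw [map_mul, map_mul, ← hr, ← hy, map_sub, map_mul, map_pow, map_one]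
        linear_combination (algebraMap O R w ^ N * r) * (-hu)
      have h4 : Ideal.Quotient.mk (Ideal.span {1 - w * θ}) w *
          Ideal.Quotient.mk (Ideal.span {1 - w * θ}) θ = 1 := by
        rw [← map_mul, ← map_one (Ideal.Quotient.mk (Ideal.span {1 - w * θ})), eq_comm,
          Ideal.Quotient.eq]
        exact Ideal.mem_span_singleton_self _
      have h5 := congrArg (Ideal.Quotient.mk (Ideal.span {1 - w * θ})) h2
      rw [map_mul, map_mul, map_sub, map_mul, map_pow, map_one, h4, sub_self, zero_mul] at h5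
      rw [← Ideal.Quotient.eq_zero_iff_mem]
      have h6 : Ideal.Quotient.mk (Ideal.span {1 - w * θ}) x =
          (Ideal.Quotient.mk (Ideal.span {1 - w * θ}) w *
            Ideal.Quotient.mk (Ideal.span {1 - w * θ}) θ) ^ (N + 1) *
            Ideal.Quotient.mk (Ideal.span {1 - w * θ}) x := by rw [h4, one_pow, one_mul]
      rw [h6, mul_pow, mul_right_comm, h5, zero_mul]
    · rw [Ideal.span_le, Set.singleton_subset_iff]
      change q (1 - w * θ) = 0
      rw [map_sub, map_mul, hwθ, map_one, sub_self]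
  let _ := Ideal.Quotient.field 𝔪
  rw [← hker]
  exact RingHom.ker_isMaximal_of_surjective q hsurj

theorem hilbert_loc {k₀ k O L : Type*} [Field k₀] [Field k] [Algebra k₀ k] [CharZero k]
    [CommRing O] [IsDomain O] [Algebra k O] [Algebra.FiniteType k O] [Field L] [Algebra O L]
    [IsFractionRing O L] [Algebra k L] [IsScalarTower k O L] (hk : HilbOver k₀ k) {h : L}
    (htr : Transcendental k h) [FiniteDimensional (IntermediateField.adjoin k {h}) L] {w θ : O}
    (hw : w ≠ 0) (hψ : Transcendental k (algebraMap O L θ - (algebraMap O L w)⁻¹)) :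
    {c : k₀ | (Ideal.span {1 - w * (θ - algebraMap k O (algebraMap k₀ k c))}).IsMaximal}.Infinite := by
  have hle : Submonoid.powers w ≤ nonZeroDivisors O := by
    rw [Submonoid.powers_le]
    exact mem_nonZeroDivisors_of_ne_zero hw
  have hinj : Function.Injective (algebraMap O L) := IsFractionRing.injective O L
  have hwL : algebraMap O L w ≠ 0 := (map_ne_zero_iff _ hinj).mpr hw
  have k1 : IsLocalization (Submonoid.powers w) (Localization.subalgebra.ofField L _ hle) :=
    inferInstance
  set R := Localization.subalgebra.ofField L _ hle with hR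
  have k2 : IsFractionRing R L := inferInstance
  have k3 : Algebra.FiniteType O R := IsLocalization.finiteType_of_monoid_fg (Submonoid.powers w) R
  have k4 : IsScalarTower k O R := inferInstance
  have k5 : IsScalarTower k R L := inferInstance
  have k6 : Algebra.FiniteType k R := Algebra.FiniteType.trans ‹_› k3
  have hu : (algebraMap O L w)⁻¹ ∈ R := ⟨1, w, Submonoid.mem_powers w, by rw [map_one, one_mul]⟩
  obtain ⟨u, hu⟩ : ∃ u : R, algebraMap R L u = (algebraMap O L w)⁻¹ := ⟨⟨_, hu⟩, rfl⟩
  have hinjR : Function.Injective (algebraMap R L) := IsFractionRing.injective R L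
  have hψR : Transcendental k (algebraMap O R θ - u) := by
    rw [← transcendental_algebraMap_iff (S := R) (A := L) hinjR, map_sub, hu,
      ← IsScalarTower.algebraMap_apply O R L]
    exact hψ
  have hmain := hilbert_psi (R := R) (L := L) hk htr hψR
  refine hmain.mono fun c hc => ?_
  have hc' : (Ideal.span {algebraMap O R (θ - algebraMap k O (algebraMap k₀ k c)) - u}).IsMaximal := by
    have h1 : algebraMap O R (θ - algebraMap k O (algebraMap k₀ k c)) - u =
        (algebraMap O R θ - u) - algebraMap k R (algebraMap k₀ k c) := by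
      rw [map_sub, ← IsScalarTower.algebraMap_apply k O R]
      ring
    rw [h1]
    exact hc
  refine isMaximal_span_of_loc (R := R) (u := u) ?_ ?_ ?_ hc'
  · have h1 : Function.Injective ((algebraMap R L).comp (algebraMap O R)) := by
      rw [← IsScalarTower.algebraMap_eq]
      exact hinj
    rw [RingHom.coe_comp] at h1
    exact Function.Injective.of_comp h1
  · apply hinjR
    rw [map_mul, hu, map_one, ← IsScalarTower.algebraMap_apply O R L, mul_inv_cancel₀ hwL]
  · intro r
    obtain ⟨⟨y, ⟨_, N, rfl⟩⟩, hy⟩ := IsLocalization.surj (Submonoid.powers w) r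
    refine ⟨N, y, ?_⟩
    rw [← hy, mul_comm, ← map_pow]

end Loc

section Xi

variable {k₀ : Type*} {k : Type u} {K : Type v} [Field k₀] [Field k] [Algebra k₀ k] [CharZero k]
  [Field K] [Algebra k K] {A : Type*} [CommRing A] [IsDomain A]
  [Algebra A K] [IsFractionRing A K] [Algebra k A] [IsScalarTower k A K] [Algebra.FiniteType k A]
  {f : A[X]} [hirr : Fact (Irreducible (f.map (algebraMap A K)))]
  [IsDomain (AdjoinRoot f)] [Algebra (AdjoinRoot f) (AdjoinRoot (f.map (algebraMap A K)))]
  [IsFractionRing (AdjoinRoot f) (AdjoinRoot (f.map (algebraMap A K)))]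
  (halg : ∀ x, algebraMap (AdjoinRoot f) (AdjoinRoot (f.map (algebraMap A K))) x =
    lamMap (algebraMap A K) rfl x)

omit [CharZero k] in
lemma transcendental_psi {f : K[X]} [Fact (Irreducible f)] (hf : f.Monic) (hn : f.natDegree ≠ 1)
    (hreg : ∀ x : AdjoinRoot f, IsAlgebraic k x → x ∈ Set.range (algebraMap k (AdjoinRoot f)))
    (w : K) : Transcendental k (AdjoinRoot.root f - AdjoinRoot.of f w) := by
  intro h0
  obtain ⟨c, hc⟩ := hreg _ h0
  apply hn
  have h1 : AdjoinRoot.root f ∈ (algebraMap K (AdjoinRoot f)).range := by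
    refine ⟨w + algebraMap k K c, ?_⟩
    rw [map_add, ← IsScalarTower.algebraMap_apply, hc]
    change AdjoinRoot.of f w + _ = _
    ring
  rw [← minpoly.natDegree_eq_one_iff, AdjoinRoot.minpoly_root hf.ne_zero, hf.leadingCoeff, inv_one,
    C_1, mul_one] at h1
  exact h1

include halg in
omit [IsDomain A] in
theorem hilbert_xi (hk : HilbOver k₀ k) (hf : f.Monic) (hn : f.natDegree ≠ 1) {h : K}
    (htr : Transcendental k h) [FiniteDimensional (IntermediateField.adjoin k {h}) K]
    (hreg : ∀ x : AdjoinRoot (f.map (algebraMap A K)), IsAlgebraic k x →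
      x ∈ Set.range (algebraMap k (AdjoinRoot (f.map (algebraMap A K)))))
    {g₂ : (AdjoinRoot f)[X]} (hg₂m : g₂.Monic)
    (hirr₂ : Irreducible (g₂.map (algebraMap (AdjoinRoot f)
      (AdjoinRoot (f.map (algebraMap A K)))))) {w : A} (hw : w ≠ 0) :
    {c : k₀ | (Ideal.span {AdjoinRoot.of g₂
      (xi f w (algebraMap k A (algebraMap k₀ k c)))}).IsMaximal}.Infinite := by
  have hfKm : (f.map (algebraMap A K)).Monic := hf.map _
  have j0 := Fact.mk hirr₂
  have j1 : IsDomain (AdjoinRoot g₂) := isDomain_adjoinRoot_of_irr hg₂m hirr₂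
  let j2 : Algebra (AdjoinRoot g₂) (AdjoinRoot (g₂.map (algebraMap (AdjoinRoot f)
      (AdjoinRoot (f.map (algebraMap A K)))))) :=
    (lamMap (algebraMap (AdjoinRoot f) (AdjoinRoot (f.map (algebraMap A K)))) rfl).toAlgebra
  have j3 : IsFractionRing (AdjoinRoot g₂) (AdjoinRoot (g₂.map (algebraMap (AdjoinRoot f)
      (AdjoinRoot (f.map (algebraMap A K)))))) :=
    isFractionRing_adjoinRoot rfl hg₂m hirr₂ (fun _ => rfl)
  have j4 : IsScalarTower k (AdjoinRoot g₂) (AdjoinRoot (g₂.map (algebraMap (AdjoinRoot f)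
      (AdjoinRoot (f.map (algebraMap A K)))))) := by
    apply IsScalarTower.of_algebraMap_eq
    intro c
    change AdjoinRoot.of _ (AdjoinRoot.of _ (algebraMap k K c)) = lamMap _ rfl
      (AdjoinRoot.of g₂ (AdjoinRoot.of f (algebraMap k A c)))
    rw [lamMap_of', halg, lamMap_of', ← IsScalarTower.algebraMap_apply]
  have j5 : Algebra.FiniteType A (AdjoinRoot f) := by
    have := (AdjoinRoot.powerBasis' hf).finite
    infer_instance
  have j6 : Algebra.FiniteType (AdjoinRoot f) (AdjoinRoot g₂) := by
    have := (AdjoinRoot.powerBasis' hg₂m).finite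
    infer_instance
  have j7 : Algebra.FiniteType k (AdjoinRoot f) := Algebra.FiniteType.trans (S := A) ‹_› j5
  have j8 : Algebra.FiniteType k (AdjoinRoot g₂) :=
    Algebra.FiniteType.trans (S := AdjoinRoot f) j7 j6
  have j9 : FiniteDimensional K (AdjoinRoot (f.map (algebraMap A K))) :=
    (AdjoinRoot.powerBasis' hfKm).finite
  have j10 : FiniteDimensional (AdjoinRoot (f.map (algebraMap A K)))
      (AdjoinRoot (g₂.map (algebraMap (AdjoinRoot f) (AdjoinRoot (f.map (algebraMap A K)))))) :=
    (AdjoinRoot.powerBasis' (hg₂m.map _)).finite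
  have j11 : FiniteDimensional K (AdjoinRoot (g₂.map (algebraMap (AdjoinRoot f)
      (AdjoinRoot (f.map (algebraMap A K)))))) :=
    Module.Finite.trans (AdjoinRoot (f.map (algebraMap A K))) _
  have j12 := finite_adjoin_ext (k := k) (k' := k) (K' := AdjoinRoot (g₂.map
    (algebraMap (AdjoinRoot f) (AdjoinRoot (f.map (algebraMap A K)))))) h
  have htr' : Transcendental k (algebraMap K (AdjoinRoot (g₂.map
      (algebraMap (AdjoinRoot f) (AdjoinRoot (f.map (algebraMap A K)))))) h) :=
    (transcendental_algebraMap_iff (RingHom.injective _)).mpr htr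
  have hwg : AdjoinRoot.of g₂ (AdjoinRoot.of f w) ≠ 0 := by
    intro h0
    have h1 := congrArg (algebraMap (AdjoinRoot g₂) (AdjoinRoot (g₂.map (algebraMap (AdjoinRoot f)
      (AdjoinRoot (f.map (algebraMap A K))))))) h0
    rw [map_zero] at h1
    change lamMap _ rfl (AdjoinRoot.of g₂ (AdjoinRoot.of f w)) = 0 at h1
    rw [lamMap_of', halg, lamMap_of', map_eq_zero, map_eq_zero, IsFractionRing.to_map_eq_zero_iff]
      at h1
    exact hw h1
  have hmain := hilbert_loc (O := AdjoinRoot g₂) hk htr' (w := AdjoinRoot.of g₂ (AdjoinRoot.of f w))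
    (θ := AdjoinRoot.of g₂ (AdjoinRoot.root f)) hwg (by
      have h1 := transcendental_psi (k := k) hfKm (by rwa [hf.natDegree_map]) hreg
        (algebraMap A K w)⁻¹
      have h2 := (transcendental_algebraMap_iff (R := k) (A := AdjoinRoot (g₂.map
        (algebraMap (AdjoinRoot f) (AdjoinRoot (f.map (algebraMap A K))))))
        (RingHom.injective (algebraMap (AdjoinRoot (f.map (algebraMap A K))) _))).mpr h1
      convert h2 using 1
      rw [map_sub]
      change lamMap _ rfl (AdjoinRoot.of g₂ (AdjoinRoot.root f)) -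
        (lamMap _ rfl (AdjoinRoot.of g₂ (AdjoinRoot.of f w)))⁻¹ = _
      rw [lamMap_of', lamMap_of', halg, halg, lamMap_of', map_inv₀, map_inv₀]
      congr 1
      rw [← AdjoinRoot.mk_X, lamMap_mk, map_X, AdjoinRoot.mk_X]
      rfl)
  refine hmain.mono fun c hc => ?_
  have h1 : AdjoinRoot.of g₂ (xi f w (algebraMap k A (algebraMap k₀ k c))) =
      1 - AdjoinRoot.of g₂ (AdjoinRoot.of f w) * (AdjoinRoot.of g₂ (AdjoinRoot.root f) -
        algebraMap k (AdjoinRoot g₂) (algebraMap k₀ k c)) := by
    have h2 : algebraMap k (AdjoinRoot g₂) (algebraMap k₀ k c) = AdjoinRoot.of g₂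
      (AdjoinRoot.of f (algebraMap k A (algebraMap k₀ k c))) := rfl
    rw [h2]
    unfold xi
    rw [map_add, map_mul, map_sub, map_one]
    ring
  change (Ideal.span _).IsMaximal
  rw [h1]
  exact hc

end Xi

end Pool.Agent.MP1bdb59C
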