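import Mathlib
import Pool.Agent.MP1bdb59P.Loc

/-!
# Twists with a point over function fields over a Hilbertian field: the core
-/

open Polynomial IsDedekindDomain

noncomputable section

open scoped Classical WithZero

namespace Pool.Agent.MP1bdb59C

open Pool.Agent.MP1bdb59 (Sep AbsGal emb resGal Place Completion placeOf TateModule)

universe u v

section Core

variable {k₀ : Type*} {k : Type u} {K : Type v} [Field k₀] [Field k] [Algebra k₀ k] [CharZero k]
  [Field K] [Algebra k K] [Algebra k[X] K] [IsScalarTower k k[X] K] [Algebra (RatFunc k) K]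
  [IsScalarTower k[X] (RatFunc k) K] [FiniteDimensional (RatFunc k) K]
  {A : Type*} [CommRing A] [IsDedekindDomain A] [Algebra k[X] A] [Algebra A K]
  [IsFractionRing A K] [IsScalarTower k[X] A K] [Algebra k A] [IsScalarTower k k[X] A]
  [IsScalarTower k A K] [Algebra.FiniteType k A] {ℓ : ℕ} [hp : Fact ℓ.Prime]

/-- The main theorem, over a Dedekind domain `A` of functions. -/
theorem rank_core (hk : HilbOver k₀ k) {ζ : k} (hζ : IsPrimitiveRoot ζ ℓ) (s : k[X])
    (hs : s ≠ 0) (hint : ∀ a : A, ∃ N : ℕ, IsIntegral k[X] (algebraMap k[X] A s ^ N * a))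
    {h : K} (htr : Transcendental k h) [FiniteDimensional (IntermediateField.adjoin k {h}) K]
    (hX : ∀ c : k, algebraMap k[X] K (X - C c) = h - algebraMap k K c)
    {f : A[X]} (hf : f.Monic) (hsep : f.Separable) (hirr : Irreducible (f.map (algebraMap A K)))
    (hcop : ¬ ℓ ∣ f.natDegree) (hn1 : f.natDegree ≠ 1)
    (hreg : ∀ x : AdjoinRoot (f.map (algebraMap A K)), IsAlgebraic k x →
      x ∈ Set.range (algebraMap k (AdjoinRoot (f.map (algebraMap A K)))))
    {q : (AdjoinRoot (f.map (algebraMap A K)))[X]}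
    (hq : (f.map (algebraMap A K)).map (AdjoinRoot.of (f.map (algebraMap A K))) =
      (X - C (AdjoinRoot.root (f.map (algebraMap A K)))) * q) (hqirr : Irreducible q)
    {ζK : K} (hζK : IsPrimitiveRoot ζK ℓ) (hζζ : algebraMap k K ζ = ζK) :
    {c₁ : k₀ | {c₂ : k₀ | ∀ j N : ℕ, f.natDegree * j + 1 = ℓ * N → ∀ w D : K, ∀ g : K[X],
      w = h - algebraMap k K (algebraMap k₀ k c₁) →
      D = w ^ f.natDegree * (f.map (algebraMap A K)).eval
        (algebraMap k K (algebraMap k₀ k c₂) + w⁻¹) →
      g = (f.map (algebraMap A K)).scaleRoots (D ^ j * w) →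
      ∃ _ : Good ℓ g, Concl k ℓ hζK g
        (D ^ j * (algebraMap k K (algebraMap k₀ k c₂) * w + 1)) (D ^ N)}.Infinite}.Infinite := by
  have hℓ := hp.out
  have i0 := Fact.mk hirr
  have hn : f.natDegree ≠ 0 := by
    rw [← hf.natDegree_map (algebraMap A K)]
    exact hirr.natDegree_pos.ne'
  have hfKm : (f.map (algebraMap A K)).Monic := hf.map _
  have hded : IsDedekindDomain (AdjoinRoot f) := isDedekind_adjoinRoot K hf hsep hirr
  let i1 : Algebra (AdjoinRoot f) (AdjoinRoot (f.map (algebraMap A K))) :=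
    (lamMap (algebraMap A K) rfl).toAlgebra
  have i2 : IsFractionRing (AdjoinRoot f) (AdjoinRoot (f.map (algebraMap A K))) :=
    isFractionRing_adjoinRoot rfl hf hirr (fun _ => rfl)
  have i3 : IsScalarTower A (AdjoinRoot f) (AdjoinRoot (f.map (algebraMap A K))) := by
    apply IsScalarTower.of_algebraMap_eq
    intro a
    change AdjoinRoot.of _ (algebraMap A K a) = lamMap (algebraMap A K) rfl (AdjoinRoot.of f a)
    rw [lamMap_of']
  have i4 : IsScalarTower k[X] (AdjoinRoot f) (AdjoinRoot (f.map (algebraMap A K))) := by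
    apply IsScalarTower.of_algebraMap_eq
    intro q
    change AdjoinRoot.of _ (algebraMap k[X] K q) =
      lamMap (algebraMap A K) rfl (AdjoinRoot.of f (algebraMap k[X] A q))
    rw [lamMap_of', ← IsScalarTower.algebraMap_apply]
  have i5 : IsScalarTower k k[X] (AdjoinRoot f) := inferInstance
  have i6 : IsScalarTower k k[X] (AdjoinRoot (f.map (algebraMap A K))) := inferInstance
  have i7 : IsScalarTower k[X] (RatFunc k) (AdjoinRoot (f.map (algebraMap A K))) := inferInstance
  have i8 : FiniteDimensional K (AdjoinRoot (f.map (algebraMap A K))) :=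
    (AdjoinRoot.powerBasis' hfKm).finite
  have i9 : IsScalarTower (RatFunc k) K (AdjoinRoot (f.map (algebraMap A K))) := inferInstance
  have i10 : FiniteDimensional (RatFunc k) (AdjoinRoot (f.map (algebraMap A K))) :=
    Module.Finite.trans K _
  have i11 : CharZero (RatFunc k) :=
    charZero_of_injective_algebraMap (algebraMap k (RatFunc k)).injective
  have i12 : Algebra.IsSeparable (RatFunc k) (AdjoinRoot (f.map (algebraMap A K))) := inferInstance
  have i13 : IsScalarTower k (AdjoinRoot f) (AdjoinRoot (f.map (algebraMap A K))) := by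
    apply IsScalarTower.of_algebraMap_eq
    intro c
    change AdjoinRoot.of _ (algebraMap k K c) =
      lamMap (algebraMap A K) rfl (AdjoinRoot.of f (algebraMap k A c))
    rw [lamMap_of', ← IsScalarTower.algebraMap_apply]
  have hintO : ∀ a : AdjoinRoot f, ∃ N : ℕ,
      IsIntegral k[X] (algebraMap k[X] (AdjoinRoot f) s ^ N * a) := fun a =>
    exists_pow_mul_isIntegral (algebraMap k[X] A s) isIntegral_algebraMap hint hf hn a
  have hfin := finite_selmer (k := k) (O := AdjoinRoot f)
    (L := AdjoinRoot (f.map (algebraMap A K))) s hs hintO hreg hζ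
  have hkK : ∀ (c : k) (y : K), algebraMap k K c = y ^ ℓ → ∃ b : k, c = b ^ ℓ := by
    intro c y hy
    have h1 : IsAlgebraic k (algebraMap K (AdjoinRoot (f.map (algebraMap A K))) y) := by
      refine IsIntegral.isAlgebraic ⟨X ^ ℓ - C c, monic_X_pow_sub_C _ hℓ.ne_zero, ?_⟩
      rw [eval₂_sub, eval₂_pow, eval₂_X, eval₂_C, ← map_pow, ← hy,
        ← IsScalarTower.algebraMap_apply, sub_self]
    obtain ⟨b, hb⟩ := hreg _ h1
    refine ⟨b, ?_⟩
    rw [IsScalarTower.algebraMap_apply k K] at hb
    have hb' := (algebraMap K (AdjoinRoot (f.map (algebraMap A K)))).injective hb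
    apply (algebraMap k K).injective
    rw [hy, map_pow, hb']
  obtain ⟨M, hM1, hM2⟩ := exists_reps_sel hfin (Algebra.norm K) hcop (fun x hx => by
      rwa [Algebra.norm_eq_zero_iff] at hx) (fun c => by
      rw [IsScalarTower.algebraMap_apply k K, Algebra.norm_algebraMap,
        (AdjoinRoot.powerBasis' hfKm).finrank, AdjoinRoot.powerBasis'_dim, hf.natDegree_map]) hkK
  have hℓk : (ℓ : k) ≠ 0 := by exact_mod_cast hℓ.ne_zero
  have hbad : {c : k | s.eval c = 0}.Finite := by
    refine s.roots.toFinset.finite_toSet.subset fun c hc => ?_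
    rw [Finset.mem_coe, Multiset.mem_toFinset, mem_roots hs]
    exact hc
  -- the factor
  obtain ⟨g₂, hg₂⟩ : (X - C (AdjoinRoot.root f)) ∣ f.map (AdjoinRoot.of f) :=
    dvd_iff_isRoot.mpr (AdjoinRoot.isRoot_root f)
  have hg₂m : g₂.Monic := (monic_X_sub_C _).of_mul_monic_left (hg₂ ▸ hf.map _)
  have hg₂n : g₂.natDegree ≠ 0 := by
    intro h0
    have h1 := congrArg natDegree hg₂
    rw [(monic_X_sub_C _).natDegree_mul hg₂m, natDegree_X_sub_C, h0, hf.natDegree_map] at h1
    exact hn1 h1
  have hg₂q : g₂.map (algebraMap (AdjoinRoot f) (AdjoinRoot (f.map (algebraMap A K)))) = q := by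
    apply mul_left_cancel₀ (X_sub_C_ne_zero (AdjoinRoot.root (f.map (algebraMap A K))))
    rw [← hq, Polynomial.map_map]
    have h1 := congrArg (Polynomial.map (algebraMap (AdjoinRoot f)
      (AdjoinRoot (f.map (algebraMap A K))))) hg₂
    rw [Polynomial.map_mul, Polynomial.map_sub, map_X, map_C, Polynomial.map_map] at h1
    have h2 : algebraMap (AdjoinRoot f) (AdjoinRoot (f.map (algebraMap A K)))
        (AdjoinRoot.root f) = AdjoinRoot.root (f.map (algebraMap A K)) := by
      change lamMap (algebraMap A K) rfl (AdjoinRoot.root f) = _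
      rw [← AdjoinRoot.mk_X, lamMap_mk, map_X, AdjoinRoot.mk_X]
    rw [h2] at h1
    rw [← h1]
    congr 1
    ext a
    change lamMap (algebraMap A K) rfl (AdjoinRoot.of f a) = _
    rw [lamMap_of']
    rfl
  have hinf := hilbert_spec_over (L := AdjoinRoot (f.map (algebraMap A K))) hk hℓk M hM1 _ hbad
  refine hinf.mono ?_
  rintro c ⟨hcs, hc⟩
  have hcs' : s.eval (algebraMap k₀ k c) ≠ 0 := hcs
  have hmax := isMaximal_span (AdjoinRoot (f.map (algebraMap A K))) s hintO hcs'
    (fun 𝔪 h𝔪 hX => (hc 𝔪 h𝔪 hX).1)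
  have hMmod := (hc _ hmax (Ideal.mem_span_singleton_self _)).2
  have hinjK : Function.Injective (algebraMap k[X] K) := by
    rw [IsScalarTower.algebraMap_eq k[X] (RatFunc k) K]
    exact (algebraMap (RatFunc k) K).injective.comp (IsFractionRing.injective k[X] (RatFunc k))
  obtain ⟨w₀, hw₀⟩ : ∃ w₀ : A, w₀ = algebraMap k[X] A (X - C (algebraMap k₀ k c)) := ⟨_, rfl⟩
  have hw0 : w₀ ≠ 0 := by
    intro h0
    apply X_sub_C_ne_zero (algebraMap k₀ k c)
    apply hinjK
    rw [IsScalarTower.algebraMap_apply k[X] A K, ← hw₀, h0, map_zero, map_zero]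
  have hwK : algebraMap A K w₀ = h - algebraMap k K (algebraMap k₀ k c) := by
    rw [hw₀, ← IsScalarTower.algebraMap_apply, hX]
  have hwK0 : algebraMap A K w₀ ≠ 0 := by rwa [Ne, IsFractionRing.to_map_eq_zero_iff]
  have hinf₂ := hilbert_xi (k₀ := k₀) (f := f) (fun _ => rfl) hk hf hn1 htr hreg hg₂m
    (by rw [hg₂q]; exact hqirr) hw0
  refine hinf₂.mono ?_
  rintro c₂ hξ j N hj w D g rfl rfl hg
  have hD : (h - algebraMap k K (algebraMap k₀ k c)) ^ f.natDegree *
      (f.map (algebraMap A K)).eval (algebraMap k K (algebraMap k₀ k c₂) +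
        (h - algebraMap k K (algebraMap k₀ k c))⁻¹) =
      algebraMap A K (dd f w₀ (algebraMap k A (algebraMap k₀ k c₂))) := by
    rw [map_dd' hf hwK0, hwK, ← IsScalarTower.algebraMap_apply k A K]
  obtain ⟨hg', hmain⟩ := rank_at (f := f) (g₂ := g₂) (fun _ => rfl) hf hsep hcop hg₂ hg₂m hg₂n hζ
    (w := w₀) (c := algebraMap k A (algebraMap k₀ k c₂)) hw0 ⟨N, hj⟩ (g := g) (by
      rw [hg, hD, map_mul, map_pow, hwK]) M hM2 (by rw [hw₀]; exact hmax)
    (by rw [hw₀]; exact hMmod) hξ hζK hζζ
  refine ⟨hg', ?_⟩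
  have h1 := hmain N hj
  rw [map_mul, map_pow, map_add, map_mul, map_one, ← hD, hwK,
    ← IsScalarTower.algebraMap_apply k A K] at h1
  exact h1

end Core

end Pool.Agent.MP1bdb59C
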