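import Mathlib
import Pool.Agent.MP1bdb59P.RFin
import Pool.Agent.MP1bdb59P.RDesc
import Pool.Agent.MP1bdb59C.HilbAll

/-!
# Twists of positive rank over a function field over a Hilbertian field: every prime `ℓ`
-/

open Polynomial

noncomputable section

open scoped Classical

namespace Pool.Agent.MP1bdb59C

open Pool.Agent.MP1bdb59 (Sep AbsGal emb resGal Place Completion placeOf TateModule)

universe u v

lemma good_of_map {K K' : Type*} [Field K] [Field K'] [Algebra K K'] {ℓ : ℕ} {g : K[X]}
    (h : Good ℓ (g.map (algebraMap K K'))) : Good ℓ g :=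
  ⟨monic_of_injective (algebraMap K K').injective h.monic, (separable_map _).mp h.sep, by
    have := h.cop
    rwa [natDegree_map] at this⟩

/-- The degree of the cyclotomic extension. -/
lemma finrank_cyclo {k K' : Type*} [Field k] [CharZero k] [Field K'] [Algebra k K'] {ℓ : ℕ}
    [hp : Fact ℓ.Prime] {ζ : K'} (hζ : IsPrimitiveRoot ζ ℓ) (hint : IsIntegral k ζ) :
    (minpoly k ζ).natDegree = Module.finrank k (CyclotomicField ℓ k) := by
  have h0 : NeZero ℓ := ⟨hp.out.ne_zero⟩
  have h00 : NeZero (ℓ : k) := ⟨by exact_mod_cast hp.out.ne_zero⟩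
  have h1 : IsCyclotomicExtension {ℓ} k (IntermediateField.adjoin k {ζ}) := by
    change IsCyclotomicExtension {ℓ} k (IntermediateField.adjoin k {ζ}).toSubalgebra
    rw [IntermediateField.adjoin_simple_toSubalgebra_of_isAlgebraic hint.isAlgebraic]
    exact hζ.adjoin_isCyclotomicExtension k
  have h2 : IsCyclotomicExtension {ℓ} k (CyclotomicField ℓ k) :=
    CyclotomicField.isCyclotomicExtension ℓ k
  rw [← IntermediateField.adjoin.finrank hint]
  exact (IsCyclotomicExtension.algEquiv {ℓ} k (IntermediateField.adjoin k {ζ})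
    (CyclotomicField ℓ k)).toLinearEquiv.finrank_eq

section Factor

variable {k K K' : Type*} [Field k] [CharZero k] [Field K] [Algebra k K] [Field K'] [Algebra K K']
  [Algebra k K'] [IsScalarTower k K K'] [FiniteDimensional K K'] {ζ : K'} (hζ : IsIntegral k ζ)
  (htop : IntermediateField.adjoin K {ζ} = ⊤) {f : K[X]} (hf : f.Monic) (hirr : Irreducible f)
  (hirr' : Irreducible (f.map (algebraMap K K'))) {q : (AdjoinRoot f)[X]}
  (hq : f.map (AdjoinRoot.of f) = (X - C (AdjoinRoot.root f)) * q) (hqirr : Irreducible q)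
  (hreg : ∀ x : AdjoinRoot q, IsAlgebraic k x → x ∈ Set.range (algebraMap k (AdjoinRoot q)))

include hζ htop hf hirr hirr' hq hqirr hreg in
/-- The factor `f(x)/(x - θ)` stays irreducible. -/
theorem exists_factor_ext : ∃ q' : (AdjoinRoot (f.map (algebraMap K K')))[X],
    (f.map (algebraMap K K')).map (AdjoinRoot.of (f.map (algebraMap K K'))) =
      (X - C (AdjoinRoot.root (f.map (algebraMap K K')))) * q' ∧ Irreducible q' := by
  have i0 := Fact.mk hirr
  have i1 := Fact.mk hirr'
  have hfm : (f.map (algebraMap K K')).Monic := hf.map _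
  have hqm : q.Monic := (monic_X_sub_C _).of_mul_monic_left (hq ▸ hf.map _)
  have hroot : aeval (AdjoinRoot.root (f.map (algebraMap K K'))) f = 0 := by
    rw [← aeval_map_algebraMap K', AdjoinRoot.aeval_eq, AdjoinRoot.mk_self]
  let φ : AdjoinRoot f →ₐ[K] AdjoinRoot (f.map (algebraMap K K')) :=
    AdjoinRoot.liftAlgHom f (Algebra.ofId _ _) _ hroot
  have hφroot : φ (AdjoinRoot.root f) = AdjoinRoot.root (f.map (algebraMap K K')) :=
    AdjoinRoot.liftAlgHom_root _ _ _ _
  let i2 : Algebra (AdjoinRoot f) (AdjoinRoot (f.map (algebraMap K K'))) := φ.toRingHom.toAlgebra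
  have i3 : IsScalarTower K (AdjoinRoot f) (AdjoinRoot (f.map (algebraMap K K'))) :=
    IsScalarTower.of_algebraMap_eq (fun x => (φ.commutes x).symm)
  have i4 : IsScalarTower k (AdjoinRoot f) (AdjoinRoot (f.map (algebraMap K K'))) := by
    apply IsScalarTower.of_algebraMap_eq
    intro x
    rw [IsScalarTower.algebraMap_apply k K (AdjoinRoot f), ← IsScalarTower.algebraMap_apply K,
      ← IsScalarTower.algebraMap_apply]
  have i5 : FiniteDimensional K' (AdjoinRoot (f.map (algebraMap K K'))) :=
    (AdjoinRoot.powerBasis' hfm).finite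
  have i6 : FiniteDimensional K (AdjoinRoot (f.map (algebraMap K K'))) :=
    Module.Finite.trans K' _
  have i7 : FiniteDimensional (AdjoinRoot f) (AdjoinRoot (f.map (algebraMap K K'))) :=
    Module.Finite.of_restrictScalars_finite K _ _
  have hζ' : IsIntegral k (AdjoinRoot.of (f.map (algebraMap K K')) ζ) :=
    hζ.map (IsScalarTower.toAlgHom k K' (AdjoinRoot (f.map (algebraMap K K'))))
  have htop' : IntermediateField.adjoin (AdjoinRoot f)
      {AdjoinRoot.of (f.map (algebraMap K K')) ζ} = ⊤ := by
    rw [eq_top_iff]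
    intro z _
    have hK : ∀ x : K, AdjoinRoot.of (f.map (algebraMap K K')) (algebraMap K K' x) ∈
        IntermediateField.adjoin (AdjoinRoot f)
          {AdjoinRoot.of (f.map (algebraMap K K')) ζ} := by
      intro x
      have h1 : AdjoinRoot.of (f.map (algebraMap K K')) (algebraMap K K' x) =
          algebraMap (AdjoinRoot f) _ (AdjoinRoot.of f x) := (φ.commutes x).symm
      rw [h1]
      exact IntermediateField.algebraMap_mem _ _
    have hK' : ∀ y : K', AdjoinRoot.of (f.map (algebraMap K K')) y ∈
        IntermediateField.adjoin (AdjoinRoot f)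
          {AdjoinRoot.of (f.map (algebraMap K K')) ζ} := by
      intro y
      have hy : y ∈ IntermediateField.adjoin K {ζ} := by
        rw [htop]
        exact IntermediateField.mem_top
      induction hy using IntermediateField.adjoin_induction with
      | mem x hx =>
        rw [Set.mem_singleton_iff] at hx
        rw [hx]
        exact IntermediateField.mem_adjoin_simple_self _ _
      | algebraMap x => exact hK x
      | add x y _ _ hx hy => rw [map_add]; exact add_mem hx hy
      | inv x _ hx => rw [map_inv₀]; exact inv_mem hx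
      | mul x y _ _ hx hy => rw [map_mul]; exact mul_mem hx hy
    obtain ⟨p, rfl⟩ := AdjoinRoot.mk_surjective z
    induction p using Polynomial.induction_on' with
    | add p q hp hq => rw [map_add]; exact add_mem (hp trivial) (hq trivial)
    | monomial n a =>
      rw [← C_mul_X_pow_eq_monomial, map_mul, map_pow, AdjoinRoot.mk_C, AdjoinRoot.mk_X, ← hφroot]
      refine mul_mem (hK' a) (pow_mem ?_ n)
      exact IntermediateField.algebraMap_mem _ (AdjoinRoot.root f)
  have hmain := irreducible_ext (k := k) (K := AdjoinRoot f)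
    (K' := AdjoinRoot (f.map (algebraMap K K'))) hζ' htop' hqm hqirr hreg
  refine ⟨q.map (algebraMap (AdjoinRoot f) (AdjoinRoot (f.map (algebraMap K K')))), ?_, hmain⟩
  have h1 := congrArg (Polynomial.map (algebraMap (AdjoinRoot f)
    (AdjoinRoot (f.map (algebraMap K K'))))) hq
  rw [Polynomial.map_mul, Polynomial.map_sub, map_X, map_C, Polynomial.map_map] at h1
  have h2 : algebraMap (AdjoinRoot f) (AdjoinRoot (f.map (algebraMap K K')))
      (AdjoinRoot.root f) = AdjoinRoot.root (f.map (algebraMap K K')) := hφroot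
  rw [h2] at h1
  rw [← h1, Polynomial.map_map]
  congr 1
  exact RingHom.ext fun x => (φ.commutes x).symm

end Factor

section Rank

variable {k : Type u} {K : Type v} [Field k] [CharZero k] [Field K] [Algebra k K]
  {ℓ : ℕ} [hp : Fact ℓ.Prime]

/-- **Twists with a point over a function field over a Hilbertian field, every prime `ℓ`.** -/
theorem rank_all (hk : IsHilbertian k) {h : K}
    (htr : Transcendental k h) [FiniteDimensional (IntermediateField.adjoin k {h}) K]
    {f : K[X]} (hf : f.Monic) (hirr : Irreducible f) (hcop : ¬ ℓ ∣ f.natDegree)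
    {q : (AdjoinRoot f)[X]}
    (hq : f.map (AdjoinRoot.of f) = (X - C (AdjoinRoot.root f)) * q) (hqirr : Irreducible q)
    (hreg : ∀ x : AdjoinRoot q, IsAlgebraic k x → x ∈ Set.range (algebraMap k (AdjoinRoot q))) :
    {c₁ : k | {c₂ : k | ∀ j : ℕ, ℓ ∣ f.natDegree * j + 1 → ∀ w D : K, ∀ g : K[X],
      w = h - algebraMap k K c₁ →
      D = w ^ f.natDegree * f.eval (algebraMap k K c₂ + w⁻¹) →
      g = f.scaleRoots (D ^ j * w) → ∃ _ : Good ℓ g,
        (∀ ξ ∈ Sha k ℓ g, ℓ • ξ = 0 → ξ = 0) ∧
        (∀ t : Jac ℓ g K, (∀ σ, act ℓ g K σ t = t) → ℓ • t = 0 → t = 0) ∧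
        ((Idx.inv (act ℓ g K) ⊤).map (nsmulAddMonoidHom ℓ)).relIndex (Idx.inv (act ℓ g K) ⊤) =
          ℓ ^ ((ℓ - 1) / Module.finrank k (CyclotomicField ℓ k))}.Infinite}.Infinite := by
  have hℓ := hp.out
  have hfirr := Fact.mk hirr
  have hc2 : CharZero K := charZero_of_injective_algebraMap (algebraMap k K).injective
  have hne : NeZero (ℓ : K) := ⟨by exact_mod_cast hℓ.ne_zero⟩
  have hne' : NeZero ℓ := ⟨hℓ.ne_zero⟩
  let K' := CyclotomicField ℓ K
  have c1 : IsCyclotomicExtension {ℓ} K K' := CyclotomicField.isCyclotomicExtension ℓ K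
  have i1 : FiniteDimensional K K' := IsCyclotomicExtension.finiteDimensional {ℓ} K K'
  have i2 : CharZero K' := charZero_of_injective_algebraMap (algebraMap K K').injective
  have i3 : Algebra.IsSeparable K K' := inferInstance
  have i5 : IsScalarTower k K K' := inferInstance
  set ζ : K' := IsCyclotomicExtension.zeta ℓ K K' with hζ
  have hζs : IsPrimitiveRoot ζ ℓ := IsCyclotomicExtension.zeta_spec ℓ K K'
  have hζint : IsIntegral k ζ := by
    refine ⟨X ^ ℓ - 1, monic_X_pow_sub_C 1 hℓ.ne_zero, ?_⟩
    rw [eval₂_sub, eval₂_pow, eval₂_X, eval₂_one, hζs.pow_eq_one, sub_self]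
  have htop0 : Algebra.adjoin K {ζ} = ⊤ :=
    IsCyclotomicExtension.adjoin_primitive_root_eq_top hζs
  have htop : IntermediateField.adjoin K {ζ} = ⊤ :=
    IntermediateField.adjoin_eq_top_of_algebra K {ζ} htop0
  have hregL : ∀ x : AdjoinRoot f, IsAlgebraic k x → x ∈ Set.range (algebraMap k (AdjoinRoot f)) :=
    closed_base (K := AdjoinRoot f) hqirr hreg
  have hregK := closed_base hirr hregL
  have i6 : FiniteDimensional k (IntermediateField.adjoin k {ζ}) :=
    IntermediateField.adjoin.finiteDimensional hζint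
  have hover : HilbOver k (IntermediateField.adjoin k {ζ}) := hilbOver_of_finite hk
  have hζ' : IsPrimitiveRoot (IntermediateField.AdjoinSimple.gen k ζ) ℓ := by
    apply IsPrimitiveRoot.of_map_of_injective
      (f := algebraMap (IntermediateField.adjoin k {ζ}) K') _ (RingHom.injective _)
    rw [IntermediateField.AdjoinSimple.algebraMap_gen]
    exact hζs
  have htr' : Transcendental (IntermediateField.adjoin k {ζ}) (algebraMap K K' h) := by
    have h1 : Transcendental k (algebraMap K K' h) :=
      (transcendental_algebraMap_iff (algebraMap K K').injective).mpr htr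
    exact h1.extendScalars _
  have i7 : FiniteDimensional (IntermediateField.adjoin (IntermediateField.adjoin k {ζ})
      {algebraMap K K' h}) K' := finite_adjoin_ext (k := k) h
  have hirr' := irreducible_ext hζint htop hf hirr hregL
  have i8 := Fact.mk hirr'
  have hn : (f.map (algebraMap K K')).natDegree = f.natDegree := hf.natDegree_map _
  have hn1 : f.natDegree ≠ 1 := by
    intro h1
    have hqm : q.Monic := (monic_X_sub_C _).of_mul_monic_left (hq ▸ hf.map _)
    have h2 := congrArg natDegree hq
    rw [hf.natDegree_map, (monic_X_sub_C _).natDegree_mul hqm, natDegree_X_sub_C, h1] at h2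
    have h3 : q.natDegree = 0 := by omega
    have h4 : q = 1 := by
      rw [eq_C_of_natDegree_eq_zero h3]
      have h5 := hqm.coeff_natDegree
      rw [h3] at h5
      rw [h5, C_1]
    exact hqirr.not_isUnit (h4 ▸ isUnit_one)
  obtain ⟨q', hq', hqirr'⟩ := exists_factor_ext hζint htop hf hirr hirr' hq hqirr hreg
  have hmain := rank_twist (k₀ := k) (k := IntermediateField.adjoin k {ζ}) (K := K') (ℓ := ℓ)
    hover hζ' htr' (hf.map (algebraMap K K')) hirr' (by rwa [hn]) (by rwa [hn])
    (closed_ext hζint htop hf hirr hregL) hq' hqirr' (ζK := ζ) hζs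
    (IntermediateField.AdjoinSimple.algebraMap_gen k ζ)
  refine hmain.mono ?_
  intro c₁ hc₁
  refine Set.Infinite.mono ?_ hc₁
  intro c₂ hc j hj w D g hw hD hg
  obtain ⟨N, hN⟩ := hj
  have hw' : algebraMap K K' w = algebraMap K K' h -
      algebraMap (IntermediateField.adjoin k {ζ}) K'
        (algebraMap k (IntermediateField.adjoin k {ζ}) c₁) := by
    rw [hw, map_sub]
    rfl
  have hc2' : algebraMap (IntermediateField.adjoin k {ζ}) K'
      (algebraMap k (IntermediateField.adjoin k {ζ}) c₂) =
      algebraMap K K' (algebraMap k K c₂) := rfl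
  obtain ⟨hG, hC⟩ := hc j N (by rw [hn, hN]) (algebraMap K K' w) (algebraMap K K' D)
    (g.map (algebraMap K K')) hw' (by
      rw [hD, map_mul, map_pow, hn, hc2', ← map_inv₀, ← map_add, eval_map_algebraMap,
        aeval_algebraMap_apply_eq_algebraMap_eval]) (by
      rw [hg, map_scaleRoots _ _ _ (by rw [hf.leadingCoeff, map_one]; exact one_ne_zero), map_mul,
        map_pow])
  have hG' : Good ℓ g := good_of_map hG
  refine ⟨hG', ?_⟩
  rw [hc2', ← map_mul, ← map_one (algebraMap K K'), ← map_add, ← map_pow, ← map_mul, ← map_pow]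
    at hC
  have hfin := descend_rank (k := k) (k' := IntermediateField.adjoin k {ζ}) hζs htop0 g hC
  rwa [finrank_eq hζint htop hregK, finrank_cyclo hζs hζint] at hfin

end Rank

end Pool.Agent.MP1bdb59C
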